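import Pool.Agent.LibBru95.Defs

/-!
# Gross's p-adic regulator: definitions

`K` is a CM field, `PadicAlgCl p` a fixed algebraic closure of `ℚ_[p]`.  The places of `K` above `p` are the
`Gal(PadicAlgCl p/ℚ_[p])`-orbits of embeddings `σ : K → PadicAlgCl p`, the completion at the place of `σ` is
`Kv σ = ℚ_p(σ K)`.
-/

namespace GR95

open NumberField Bru95

variable (p : ℕ) [Fact p.Prime] (K : Type*) [Field K] [NumberField K]

/-- The embeddings of `K` into the algebraic closure of `ℚ_[p]`. -/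
abbrev Emb := K →+* PadicAlgCl p

/-- Two embeddings define the same place of `K` above `p`. -/
def SamePlace (σ τ : Emb p K) : Prop :=
  ∃ γ : PadicAlgCl p ≃ₐ[ℚ_[p]] PadicAlgCl p, (γ : PadicAlgCl p →+* PadicAlgCl p).comp σ = τ

/-- The completion `K_σ = ℚ_p(σ K)` of `K` at the place given by `σ`. -/
noncomputable def Kv (σ : Emb p K) : IntermediateField ℚ_[p] (PadicAlgCl p) :=
  IntermediateField.adjoin ℚ_[p] (Set.range σ)

/-- The local norm `N_{K_σ/ℚ_p}(σ x)`. -/
noncomputable def locNorm (σ : Emb p K) (x : K) : ℚ_[p] :=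
  Algebra.norm ℚ_[p] (⟨σ x, IntermediateField.subset_adjoin _ _ ⟨x, rfl⟩⟩ : Kv p K σ)

/-- `u` is a unit of `𝓞 K [1/p]`. -/
def IsPUnit (u : K) : Prop :=
  u ≠ 0 ∧ ∃ n : ℕ, IsIntegral ℤ ((p : K) ^ n * u) ∧ IsIntegral ℤ ((p : K) ^ n * u⁻¹)

/-- An automorphism `g` of `K` acts on functions on embeddings by `(g f)(σ) = f(σ ∘ g)`. -/
noncomputable def act (k : Type*) [CommSemiring k] (g : K →+* K) : (Emb p K → k) →ₗ[k] (Emb p K → k) :=
  LinearMap.funLeft k k (fun σ : Emb p K => σ.comp g)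

variable [IsCMField K]

/-- The complex conjugation of the CM field `K`. -/
noncomputable def cc : K →+* K :=
  ((IsCMField.complexConj K : K ≃ₐ[maximalRealSubfield K] K) : K →+* K)

/-- `Y⁻ = (ℚ_p ⊗ Y_{K,p})⁻`: the functions on the places of `K` above `p` (functions on the embeddings
constant on Galois orbits) on which complex conjugation acts as `-1`. -/
noncomputable def Ym : Submodule ℚ_[p] (Emb p K → ℚ_[p]) where
  carrier := {f | (∀ σ τ : Emb p K, SamePlace p K σ τ → f σ = f τ) ∧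
    ∀ σ : Emb p K, f (σ.comp (cc K)) = - f σ}
  add_mem' := by
    rintro f g ⟨hf, hf'⟩ ⟨hg, hg'⟩
    refine ⟨fun σ τ h => by simp [hf σ τ h, hg σ τ h], fun σ => ?_⟩
    simp only [Pi.add_apply, hf', hg']
    ring
  zero_mem' := by simp
  smul_mem' := by
    rintro c f ⟨hf, hf'⟩
    refine ⟨fun σ τ h => by simp [hf σ τ h], fun σ => ?_⟩
    simp only [Pi.smul_apply, hf', smul_eq_mul]
    ring

/-- The `ℚ_p`-span of the vectors `(L N_{K_σ/ℚ_p}(u))_σ`, `u` in the minus part of the group of `p`-units. -/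
noncomputable def LogImage (L : ℚ_[p] → ℚ_[p]) : Submodule ℚ_[p] (Emb p K → ℚ_[p]) :=
  Submodule.span ℚ_[p] {f | ∃ u : K, IsPUnit p K u ∧ u * cc K u = 1 ∧ f = fun σ => L (locNorm p K σ u)}

/-- The rational (or `k`-valued) matrices indexed by embeddings which commute with `G`, are constant on places in
both variables and anti-invariant under complex conjugation in both variables: the endomorphisms of `Y⁻` commuting
with `G`. -/
noncomputable def Bm (k : Type*) [CommRing k] (G : Subgroup (K ≃ₐ[ℚ] K)) : Submodule k (Matrix (Emb p K) (Emb p K) k) where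
  carrier := {f | (∀ g ∈ G, ∀ σ τ : Emb p K,
      f (σ.comp (g : K →+* K)) (τ.comp (g : K →+* K)) = f σ τ) ∧
    (∀ σ σ' τ : Emb p K, SamePlace p K σ σ' → f σ τ = f σ' τ) ∧
    (∀ σ τ τ' : Emb p K, SamePlace p K τ τ' → f σ τ = f σ τ') ∧
    (∀ σ τ : Emb p K, f (σ.comp (cc K)) τ = - f σ τ) ∧
    (∀ σ τ : Emb p K, f σ (τ.comp (cc K)) = - f σ τ)}
  add_mem' := by
    rintro f g ⟨h1, h2, h3, h4, h5⟩ ⟨k1, k2, k3, k4, k5⟩
    refine ⟨fun g hg σ τ => by simp [h1 g hg, k1 g hg], fun σ σ' τ h => by simp [h2 σ σ' τ h, k2 σ σ' τ h],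
      fun σ τ τ' h => by simp [h3 σ τ τ' h, k3 σ τ τ' h], fun σ τ => ?_, fun σ τ => ?_⟩
    · simp only [Matrix.add_apply, h4, k4]; ring
    · simp only [Matrix.add_apply, h5, k5]; ring
  zero_mem' := by simp
  smul_mem' := by
    rintro c f ⟨h1, h2, h3, h4, h5⟩
    refine ⟨fun g hg σ τ => by simp [h1 g hg], fun σ σ' τ h => by simp [h2 σ σ' τ h],
      fun σ τ τ' h => by simp [h3 σ τ τ' h], fun σ τ => ?_, fun σ τ => ?_⟩
    · simp only [Matrix.smul_apply, h4, smul_eq_mul]; ring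
    · simp only [Matrix.smul_apply, h5, smul_eq_mul]; ring

end GR95
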