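import Pool.Agent.LibGR95.Defs

/-! Row G7. Complex conjugation of a CM field. Check equalities in `K` after one embedding `θ : K → ℂ`
(`IsCMField.complexEmbedding_complexConj`). -/

namespace GR95

open NumberField Bru95

variable (K : Type*) [Field K] [NumberField K] [IsCMField K]

theorem cc_cc (x : K) : cc K (cc K x) = x := by
  exact IsCMField.complexConj_apply_apply K x

theorem cc_comp_cc : (cc K).comp (cc K) = RingHom.id K := by
  exact RingHom.ext (cc_cc K)

theorem cc_bijective : Function.Bijective (cc K) := by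
  exact (IsCMField.complexConj K).bijective

theorem conj_cc (θ : K →+* ℂ) (x : K) : θ (cc K x) = starRingEnd ℂ (θ x) := by
  exact IsCMField.complexEmbedding_complexConj K θ x

/-- complex conjugation commutes with every automorphism: `θ (g (cc (g⁻¹ x))) = conj θ(x)` as `θ ∘ g` is an embedding -/
theorem cc_comm (g : K ≃ₐ[ℚ] K) : (cc K).comp (g : K →+* K) = (g : K →+* K).comp (cc K) := by
  refine RingHom.ext fun x => ?_
  obtain ⟨θ⟩ : Nonempty (K →+* ℂ) := inferInstance
  apply θ.injective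
  change θ (cc K (g x)) = θ (g (cc K x))
  rw [conj_cc]
  exact (conj_cc K (θ.comp (g : K →+* K)) x).symm

theorem isPUnit_cc (p : ℕ) {u : K} (hu : IsPUnit p K u) : IsPUnit p K (cc K u) := by
  obtain ⟨h0, n, h1, h2⟩ := hu
  refine ⟨fun h => h0 ((map_eq_zero (cc K)).mp h), n, ?_, ?_⟩
  · have h3 : (p : K) ^ n * cc K u = cc K ((p : K) ^ n * u) := by
      rw [map_mul, map_pow, map_natCast]
    rw [h3]
    exact h1.map (cc K).toIntAlgHom
  · have h3 : (p : K) ^ n * (cc K u)⁻¹ = cc K ((p : K) ^ n * u⁻¹) := by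
      rw [map_mul, map_pow, map_natCast, map_inv₀]
    rw [h3]
    exact h2.map (cc K).toIntAlgHom

theorem isPUnit_div (p : ℕ) {u v : K} (hu : IsPUnit p K u) (hv : IsPUnit p K v) :
    IsPUnit p K (u / v) := by
  obtain ⟨h0, n, h1, h2⟩ := hu
  obtain ⟨k0, m, k1, k2⟩ := hv
  refine ⟨div_ne_zero h0 k0, n + m, ?_, ?_⟩
  · have h3 : (p : K) ^ (n + m) * (u / v) = ((p : K) ^ n * u) * ((p : K) ^ m * v⁻¹) := by
      rw [pow_add, div_eq_mul_inv]; ring
    rw [h3]
    exact h1.mul k2
  · have h3 : (p : K) ^ (n + m) * (u / v)⁻¹ = ((p : K) ^ m * v) * ((p : K) ^ n * u⁻¹) := by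
      rw [pow_add, inv_div, div_eq_mul_inv]; ring
    rw [h3]
    exact k1.mul h2

end GR95
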