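import Pool.Agent.LibGR95.RNorm2
import Pool.Agent.LibGR95.RCC

/-! Row G9. Complex absolute values. Let `Q` be the algebraic closure of `ℚ` in `PadicAlgCl p` (`algebraicClosure ℚ (PadicAlgCl p)` or
`integralClosure`), `Θ : Q →+* ℂ` an embedding (`IsAlgClosed.lift`). Every embedding `τ : K → PadicAlgCl p` lands in `Q`, and `Θ ∘ τ`
is a complex embedding of `K`, so `|Θ(τ u)|^2 = Θ τ(u) conj(Θ τ(u)) = Θ τ (u cc u) = 1` (`conj_cc`). The number
`x = ∏ locNorm τ u ^ m τ` is a product of powers of such `τ u` (`algebraMap_locNorm`), so `|Θ x| = 1`, and `x^N = p^b` gives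
`p^b = 1` in `ℝ`, `b = 0`. -/

namespace GR95

open NumberField Bru95

variable (p : ℕ) [Fact p.Prime] (K : Type*) [Field K] [NumberField K] [IsCMField K]

private theorem RAbs_exists (F E M : Type*) [Field F] [Field E] [Algebra F E] [Field M]
    [Algebra F M] [IsAlgClosed M] : Nonempty (algebraicClosure F E →+* M) :=
  ⟨((IsAlgClosed.lift : algebraicClosure F E →ₐ[F] M) : algebraicClosure F E →+* M)⟩

omit [IsCMField K] in
private theorem RAbs_mem (τ : Emb p K) (y : K) : τ y ∈ algebraicClosure ℚ (PadicAlgCl p) := by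
  rw [mem_algebraicClosure_iff]
  exact (Algebra.IsAlgebraic.isAlgebraic (R := ℚ) y).algHom τ.toRatAlgHom

private theorem RAbs_norm (Θ : algebraicClosure ℚ (PadicAlgCl p) →+* ℂ) {u : K} (hu : u * cc K u = 1)
    (τ : Emb p K) : ‖Θ ⟨τ u, RAbs_mem p K τ u⟩‖ = 1 := by
  have h1 := conj_cc K (Θ.comp (RingHom.codRestrict τ (algebraicClosure ℚ (PadicAlgCl p))
    (RAbs_mem p K τ))) u
  have h2 : (Θ.comp (RingHom.codRestrict τ (algebraicClosure ℚ (PadicAlgCl p))
    (RAbs_mem p K τ))) (u * cc K u) = 1 := by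
    rw [hu, map_one]
  rw [map_mul, h1, Complex.mul_conj] at h2
  have h3 : Complex.normSq ((Θ.comp (RingHom.codRestrict τ (algebraicClosure ℚ (PadicAlgCl p))
    (RAbs_mem p K τ))) u) = 1 := by exact_mod_cast h2
  rw [Complex.normSq_eq_norm_sq] at h3
  have h4 : ‖(Θ.comp (RingHom.codRestrict τ (algebraicClosure ℚ (PadicAlgCl p))
    (RAbs_mem p K τ))) u‖ = 1 := by
    have := norm_nonneg ((Θ.comp (RingHom.codRestrict τ (algebraicClosure ℚ (PadicAlgCl p))
      (RAbs_mem p K τ))) u)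
    nlinarith
  exact h4

theorem abs_one {u : K} (hu : u * cc K u = 1) (m : Emb p K → ℤ) {N : ℕ} (hN : 0 < N) {b : ℤ}
    (h : (∏ τ, locNorm p K τ u ^ m τ) ^ N = (p : ℚ_[p]) ^ b) : b = 0 := by
  classical
  obtain ⟨Θ⟩ := RAbs_exists ℚ (PadicAlgCl p) ℂ
  let X : algebraicClosure ℚ (PadicAlgCl p) :=
    ∏ τ, (∏ τ' ∈ Finset.univ.filter (fun τ' : Emb p K => SamePlace p K τ τ'),
      (⟨τ' u, RAbs_mem p K τ' u⟩ : algebraicClosure ℚ (PadicAlgCl p))) ^ m τ
  have hX : ((X : algebraicClosure ℚ (PadicAlgCl p)) : PadicAlgCl p) =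
      algebraMap ℚ_[p] (PadicAlgCl p) (∏ τ, locNorm p K τ u ^ m τ) := by
    rw [map_prod]
    have : ((X : algebraicClosure ℚ (PadicAlgCl p)) : PadicAlgCl p) =
        (algebraicClosure ℚ (PadicAlgCl p)).val X := rfl
    rw [this]
    simp only [X]
    rw [map_prod]
    refine Finset.prod_congr rfl fun τ _ => ?_
    rw [map_zpow₀, map_zpow₀, algebraMap_locNorm, map_prod]
    rfl
  have hXN : X ^ N = (p : algebraicClosure ℚ (PadicAlgCl p)) ^ b := by
    apply (algebraicClosure ℚ (PadicAlgCl p)).val.injective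
    change (algebraicClosure ℚ (PadicAlgCl p)).val (X ^ N) =
      (algebraicClosure ℚ (PadicAlgCl p)).val ((p : algebraicClosure ℚ (PadicAlgCl p)) ^ b)
    rw [map_pow, map_zpow₀, map_natCast]
    have h5 : (algebraicClosure ℚ (PadicAlgCl p)).val X =
      algebraMap ℚ_[p] (PadicAlgCl p) (∏ τ, locNorm p K τ u ^ m τ) := hX
    rw [h5, ← map_pow, h, map_zpow₀, map_natCast]
  have h1 : ‖Θ X‖ = 1 := by
    simp only [X]
    rw [map_prod, norm_prod]
    refine Finset.prod_eq_one fun τ _ => ?_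
    rw [map_zpow₀, norm_zpow, map_prod, norm_prod]
    rw [Finset.prod_eq_one, one_zpow]
    intro τ' _
    exact RAbs_norm p K Θ hu τ'
  have h2 : ‖Θ (X ^ N)‖ = ((p : ℕ) : ℝ) ^ b := by
    rw [hXN, map_zpow₀, map_natCast, norm_zpow, Complex.norm_natCast]
  rw [map_pow, norm_pow, h1, one_pow] at h2
  have hp : (1 : ℝ) < (p : ℝ) := by exact_mod_cast (Fact.out : p.Prime).one_lt
  exact (zpow_eq_one_iff_right₀ (by positivity) hp.ne').1 h2.symm

end GR95
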