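import Mathlib

/-! Row G27. The companion matrix `Cm m ω` of `X^m - ω`. `comp_unit`: reduce mod `p`: the polynomial `q = ∑ c̄_i X^i` is nonzero of
degree `< m`, so coprime to the irreducible `X^m - ω̄`; evaluate `u q + v (X^m - ω̄) = 1` at the reduced matrix (its `m`-th power is
`ω̄`): the determinant is nonzero in `ZMod p`, hence a unit of `ℤ_[p]`. -/

namespace GR95

/-- The matrix with `e_j ↦ e_(j+1)`, `e_(m-1) ↦ ω e_0`. -/
def Cm {R : Type*} [Zero R] [One R] (m : ℕ) (ω : R) : Matrix (Fin m) (Fin m) R := fun i j =>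
  if (i : ℕ) = j + 1 then 1 else if (j : ℕ) + 1 = m ∧ (i : ℕ) = 0 then ω else 0

private theorem RComp_pow_apply {R : Type*} [CommRing R] (m : ℕ) (ω : R) (k : ℕ) (hk : k ≤ m)
    (i j : Fin m) : (Cm m ω ^ k) i j =
      if (i : ℕ) = j + k then 1 else if (i : ℕ) + m = j + k then ω else 0 := by
  induction k generalizing i j with
  | zero =>
    rw [pow_zero, Matrix.one_apply]
    have hj := j.2
    have h2 : ¬ ((i : ℕ) + m = j + 0) := by omega
    rw [if_neg h2]
    by_cases h : i = j
    · rw [if_pos h, if_pos (by rw [h]; rfl)]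
    · rw [if_neg h, if_neg (fun h' => h (Fin.ext (by simpa using h')))]
  | succ k ih =>
    rw [pow_succ, Matrix.mul_apply]
    have hi := i.2
    have hj := j.2
    by_cases hjm : (j : ℕ) + 1 < m
    · rw [Finset.sum_eq_single (⟨(j : ℕ) + 1, hjm⟩ : Fin m)]
      · rw [ih (by omega)]
        have h1 : Cm m ω (⟨(j : ℕ) + 1, hjm⟩ : Fin m) j = 1 := by
          unfold Cm
          rw [if_pos rfl]
        rw [h1, mul_one]
        have e1 : ((i : ℕ) = (⟨(j : ℕ) + 1, hjm⟩ : Fin m) + k) ↔ ((i : ℕ) = j + (k + 1)) := by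
          show ((i : ℕ) = (j : ℕ) + 1 + k) ↔ _
          omega
        have e2 : ((i : ℕ) + m = (⟨(j : ℕ) + 1, hjm⟩ : Fin m) + k) ↔
            ((i : ℕ) + m = j + (k + 1)) := by
          show ((i : ℕ) + m = (j : ℕ) + 1 + k) ↔ _
          omega
        simp only [e1, e2]
      · intro l _ hl
        have h1 : Cm m ω l j = 0 := by
          unfold Cm
          rw [if_neg (fun h => hl (Fin.ext h)), if_neg (fun h => by omega)]
        rw [h1, mul_zero]
      · intro h
        exact absurd (Finset.mem_univ _) h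
    · have hm0 : 0 < m := by omega
      rw [Finset.sum_eq_single (⟨0, hm0⟩ : Fin m)]
      · rw [ih (by omega)]
        have h1 : Cm m ω (⟨0, hm0⟩ : Fin m) j = ω := by
          unfold Cm
          rw [if_neg (by show ¬ (0 = (j : ℕ) + 1); omega), if_pos ⟨by omega, rfl⟩]
        rw [h1]
        have e1 : ((i : ℕ) = (⟨0, hm0⟩ : Fin m) + k) ↔ ((i : ℕ) = k) := by
          show ((i : ℕ) = 0 + k) ↔ _
          omega
        have e2 : ¬ ((i : ℕ) + m = (⟨0, hm0⟩ : Fin m) + k) := by
          show ¬ ((i : ℕ) + m = 0 + k)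
          omega
        have e3 : ¬ ((i : ℕ) = j + (k + 1)) := by omega
        have e4 : ((i : ℕ) + m = j + (k + 1)) ↔ ((i : ℕ) = k) := by omega
        rw [if_neg e2, if_neg e3]
        simp only [e1, e4]
        split_ifs
        · rw [one_mul]
        · rw [zero_mul]
      · intro l _ hl
        have h1 : Cm m ω l j = 0 := by
          unfold Cm
          have hl2 := l.2
          rw [if_neg (fun h => by omega), if_neg (fun h => hl (Fin.ext h.2))]
        rw [h1, mul_zero]
      · intro h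
        exact absurd (Finset.mem_univ _) h

theorem Cm_pow {R : Type*} [CommRing R] (m : ℕ) (ω : R) :
    Cm m ω ^ m = ω • (1 : Matrix (Fin m) (Fin m) R) := by
  ext i j
  rw [RComp_pow_apply m ω m le_rfl, Matrix.smul_apply, Matrix.one_apply]
  have hi := i.2
  rw [if_neg (by omega : ¬ ((i : ℕ) = j + m))]
  by_cases h : i = j
  · rw [if_pos (by rw [h]), if_pos h, smul_eq_mul, mul_one]
  · rw [if_neg (fun h' => h (Fin.ext (by omega))), if_neg h, smul_zero]

private theorem RComp_map {R S : Type*} [CommRing R] [CommRing S] (f : R →+* S) (m : ℕ) (ω : R) :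
    f.mapMatrix (Cm m ω) = Cm m (f ω) := by
  ext i j
  rw [RingHom.mapMatrix_apply, Matrix.map_apply]
  unfold Cm
  split_ifs
  · exact map_one f
  · rfl
  · exact map_zero f

theorem comp_unit (p : ℕ) [Fact p.Prime] {m : ℕ} (ω : ℤ_[p])
    (hirr : Irreducible (Polynomial.X ^ m - Polynomial.C (PadicInt.toZMod ω) : Polynomial (ZMod p)))
    (c : Fin m → ℤ_[p]) (hc : ∃ i, PadicInt.toZMod (c i) ≠ 0) :
    IsUnit (Matrix.det (∑ i, c i • Cm m ω ^ (i : ℕ))) := by
  classical
  obtain ⟨i0, hi0⟩ := hc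
  set φ : ℤ_[p] →+* ZMod p := PadicInt.toZMod with hφ
  set w : ZMod p := φ ω with hw
  set B : Matrix (Fin m) (Fin m) (ZMod p) := Cm m w with hB
  set A : Matrix (Fin m) (Fin m) ℤ_[p] := ∑ i, c i • Cm m ω ^ (i : ℕ) with hA
  let q : Polynomial (ZMod p) := ∑ i : Fin m, Polynomial.C (φ (c i)) * Polynomial.X ^ (i : ℕ)
  have hcoeff : ∀ k : Fin m, q.coeff (k : ℕ) = φ (c k) := by
    intro k
    show (∑ i : Fin m, Polynomial.C (φ (c i)) * Polynomial.X ^ (i : ℕ)).coeff (k : ℕ) = _
    rw [Polynomial.finsetSum_coeff, Finset.sum_eq_single k]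
    · rw [Polynomial.coeff_C_mul, Polynomial.coeff_X_pow, if_pos rfl, mul_one]
    · intro l _ hl
      rw [Polynomial.coeff_C_mul, Polynomial.coeff_X_pow,
        if_neg (fun h => hl (Fin.ext h.symm)), mul_zero]
    · intro h
      exact absurd (Finset.mem_univ _) h
  have hq0 : q ≠ 0 := by
    intro h
    apply hi0
    rw [← hcoeff i0, h, Polynomial.coeff_zero]
  have hm : m ≠ 0 := by
    have := i0.2
    omega
  have hqdeg : q.degree < m := by
    rw [Polynomial.degree_lt_iff_coeff_zero]
    intro n hn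
    show (∑ i : Fin m, Polynomial.C (φ (c i)) * Polynomial.X ^ (i : ℕ)).coeff n = 0
    rw [Polynomial.finsetSum_coeff]
    refine Finset.sum_eq_zero fun l _ => ?_
    have hl := l.2
    rw [Polynomial.coeff_C_mul, Polynomial.coeff_X_pow, if_neg (by omega), mul_zero]
  have hfdeg : (Polynomial.X ^ m - Polynomial.C w : Polynomial (ZMod p)).degree = m :=
    Polynomial.degree_X_pow_sub_C (Nat.pos_of_ne_zero hm) w
  have hndvd : ¬ (Polynomial.X ^ m - Polynomial.C w : Polynomial (ZMod p)) ∣ q := by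
    intro h
    have h1 := Polynomial.degree_le_of_dvd h hq0
    rw [hfdeg] at h1
    exact absurd hqdeg (not_lt.2 h1)
  obtain ⟨u, v, huv⟩ := (hirr.coprime_iff_not_dvd).2 hndvd
  have hBf : Polynomial.aeval B (Polynomial.X ^ m - Polynomial.C w : Polynomial (ZMod p)) = 0 := by
    rw [map_sub, map_pow, Polynomial.aeval_X, Polynomial.aeval_C, hB, Cm_pow,
      Algebra.algebraMap_eq_smul_one, sub_self]
  have hBq : Polynomial.aeval B q = φ.mapMatrix A := by
    show Polynomial.aeval B (∑ i : Fin m, Polynomial.C (φ (c i)) * Polynomial.X ^ (i : ℕ)) = _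
    rw [hA, map_sum, map_sum]
    refine Finset.sum_congr rfl fun l _ => ?_
    rw [map_mul, map_pow, Polynomial.aeval_X, Polynomial.aeval_C, Algebra.algebraMap_eq_smul_one,
      smul_mul_assoc, one_mul, hB, hw, ← RComp_map, ← map_pow]
    ext i j
    rw [Matrix.smul_apply, RingHom.mapMatrix_apply, RingHom.mapMatrix_apply, Matrix.map_apply,
      Matrix.map_apply, Matrix.smul_apply, smul_eq_mul, smul_eq_mul, map_mul]
  have h1 : Polynomial.aeval B v * φ.mapMatrix A = 1 := by
    have h2 := congrArg (Polynomial.aeval B) huv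
    rw [map_add, map_mul, map_mul, hBf, mul_zero, zero_add, hBq, map_one] at h2
    exact h2
  have h2 : (φ.mapMatrix A).det ≠ 0 := by
    intro h
    have h3 := congrArg Matrix.det h1
    rw [Matrix.det_mul, h, mul_zero, Matrix.det_one] at h3
    exact zero_ne_one h3
  rw [← RingHom.map_det] at h2
  have h3 : A.det ∉ RingHom.ker φ := fun h => h2 ((RingHom.mem_ker).1 h)
  rw [hφ, PadicInt.ker_toZMod] at h3
  exact (IsLocalRing.notMem_maximalIdeal).1 h3

end GR95
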