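import Mathlib

/-! Row G28. Perturbation of a determinant over an ultrametric field: `det (B + E') - det B` is a sum of products of entries of norm at
most 1, one of which at least is an entry of `E'`, of norm `< 1` (or: induct / reduce modulo the maximal ideal of the
valuation ring). -/

namespace GR95

private theorem RDet_add_lt {F : Type*} [NormedField F] [IsUltrametricDist F] {a b : F}
    (ha : ‖a‖ < 1) (hb : ‖b‖ < 1) : ‖a + b‖ < 1 :=
  lt_of_le_of_lt (IsUltrametricDist.norm_add_le_max a b) (max_lt ha hb)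

private theorem RDet_add_le {F : Type*} [NormedField F] [IsUltrametricDist F] {a b : F}
    (ha : ‖a‖ ≤ 1) (hb : ‖b‖ ≤ 1) : ‖a + b‖ ≤ 1 :=
  le_trans (IsUltrametricDist.norm_add_le_max a b) (max_le ha hb)

private theorem RDet_prod {F : Type*} [NormedField F] [IsUltrametricDist F] {ι : Type*}
    [DecidableEq ι] (s : Finset ι) (f g : ι → F) (hf : ∀ i, ‖f i‖ ≤ 1) (hg : ∀ i, ‖g i‖ < 1) :
    ‖∏ i ∈ s, (f i + g i) - ∏ i ∈ s, f i‖ < 1 ∧ ‖∏ i ∈ s, (f i + g i)‖ ≤ 1 := by
  induction s using Finset.induction_on with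
  | empty => simp
  | insert a s ha ih =>
    rw [Finset.prod_insert ha, Finset.prod_insert ha]
    obtain ⟨h1, h2⟩ := ih
    constructor
    · have h3 : (f a + g a) * ∏ i ∈ s, (f i + g i) - f a * ∏ i ∈ s, f i
          = f a * (∏ i ∈ s, (f i + g i) - ∏ i ∈ s, f i) + g a * ∏ i ∈ s, (f i + g i) := by ring
      rw [h3]
      apply RDet_add_lt
      · rw [norm_mul]
        calc ‖f a‖ * ‖∏ i ∈ s, (f i + g i) - ∏ i ∈ s, f i‖
            ≤ 1 * ‖∏ i ∈ s, (f i + g i) - ∏ i ∈ s, f i‖ :=
              mul_le_mul_of_nonneg_right (hf a) (norm_nonneg _)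
          _ < 1 := by rw [one_mul]; exact h1
      · rw [norm_mul]
        calc ‖g a‖ * ‖∏ i ∈ s, (f i + g i)‖ ≤ ‖g a‖ * 1 :=
              mul_le_mul_of_nonneg_left h2 (norm_nonneg _)
          _ < 1 := by rw [mul_one]; exact hg a
    · rw [norm_mul]
      calc ‖f a + g a‖ * ‖∏ i ∈ s, (f i + g i)‖ ≤ 1 * 1 :=
            mul_le_mul (RDet_add_le (hf a) (hg a).le) h2 (norm_nonneg _) zero_le_one
        _ = 1 := one_mul 1

theorem norm_det_add {F : Type*} [NormedField F] [IsUltrametricDist F] {n : Type*} [Fintype n]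
    [DecidableEq n] (B E' : Matrix n n F) (hB : ∀ i j, ‖B i j‖ ≤ 1) (hdet : ‖B.det‖ = 1)
    (hE : ∀ i j, ‖E' i j‖ < 1) : ‖(B + E').det‖ = 1 := by
  classical
  have h1 : ‖(B + E').det - B.det‖ < 1 := by
    rw [Matrix.det_apply, Matrix.det_apply, ← Finset.sum_sub_distrib]
    apply Finset.sum_induction _ (fun x : F => ‖x‖ < 1) (fun a b ha hb => RDet_add_lt ha hb)
      (by simp)
    intro σ _
    have h2 := (RDet_prod Finset.univ (fun i => B (σ i) i) (fun i => E' (σ i) i)
      (fun i => hB _ _) (fun i => hE _ _)).1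
    rw [← smul_sub]
    have h3 : ∀ x : F, ‖(Equiv.Perm.sign σ) • x‖ = ‖x‖ := by
      intro x
      rcases Int.units_eq_one_or (Equiv.Perm.sign σ) with h | h
      · rw [h, one_smul]
      · rw [h, Units.neg_smul, one_smul, norm_neg]
    rw [h3]
    exact h2
  have h4 : (B + E').det = B.det + ((B + E').det - B.det) := by ring
  have h5 : ‖B.det‖ ≠ ‖(B + E').det - B.det‖ := by
    rw [hdet]
    exact (ne_of_lt h1).symm
  rw [h4, IsUltrametricDist.norm_add_eq_max_of_norm_ne_norm h5, hdet]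
  exact max_eq_left h1.le

end GR95
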