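import Pool.Agent.LibGR95.RZeta
import Pool.Agent.LibGR95.RComp
import Pool.Agent.LibGR95.RDet

/-! Row G29. The cyclic algebra generated by `A = diag(ζ^(h^j))` and `C = Cm m ω` is a division algebra. Write
`∑_k c_ik A^k = ∑_k c'_ik (A - 1)^k`, `k < p - 1` (binomial, `c' ≠ 0`). The diagonal entries of `A - 1` have norm `ρ = p^(-1/(p-1))`
(`norm_zeta_sub_one`). Let `(i₀, k₀)` maximize `‖c'_ik‖ ρ^k`, `λ = c'_(i₀ k₀)`. For `k ≠ k₀`, `‖c'_ik‖ ρ^k < ‖λ‖ ρ^k₀`
(never equal for nonzero coefficients: raise to the power `p - 1`, `p^((p-1) v + k)` are different modulo `p - 1`). Multiply the matrix on the right by `(A - 1)^(-k₀)` (diagonal,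
invertible) and by `λ⁻¹`: it becomes `∑_i (c'_(i k₀)/λ) C^i` (coefficients in `ℤ_[p]`, the one of `i₀` is 1: determinant of norm
1 by `comp_unit`) plus a matrix with entries of norm `< 1` (`C^i` has entries of norm at most 1): `norm_det_add`. -/

namespace GR95

/-- the diagonal matrix `diag (ζ^(h^j))` -/
def Am {R : Type*} [CommRing R] (m : ℕ) (ζ : R) (h : ℕ) : Matrix (Fin m) (Fin m) R :=
  Matrix.diagonal fun j => ζ ^ (h ^ (j : ℕ))

private theorem RDom_pow_eq {R : Type*} [CommRing R] {p a b : ℕ} {ζ : R} (hζ : ζ ^ p = 1)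
    (h : a ≡ b [MOD p]) : ζ ^ a = ζ ^ b := by
  rw [← Nat.mod_add_div a p, ← Nat.mod_add_div b p, pow_add, pow_add, pow_mul, pow_mul, hζ,
    one_pow, one_pow, h]

/-- `C A = A^g C` for `g h ≡ 1`, `g^m ≡ 1` mod `p` -/
theorem Cm_mul_Am {R : Type*} [CommRing R] {p m g h : ℕ} {ζ ω : R} (hζ : ζ ^ p = 1)
    (hgh : g * h ≡ 1 [MOD p]) (hgm : g ^ m ≡ 1 [MOD p]) :
    Cm m ω * Am m ζ h = Am m ζ h ^ g * Cm m ω := by
  ext i j
  unfold Am
  rw [Matrix.diagonal_pow, Matrix.mul_diagonal, Matrix.diagonal_mul, Pi.pow_apply, ← pow_mul]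
  unfold Cm
  split_ifs with h1 h2
  · rw [one_mul, mul_one]
    refine RDom_pow_eq hζ ?_
    rw [h1, pow_succ, mul_assoc, mul_comm h g]
    calc h ^ (j : ℕ) = h ^ (j : ℕ) * 1 := (mul_one _).symm
      _ ≡ h ^ (j : ℕ) * (g * h) [MOD p] := (Nat.ModEq.mul_left _ hgh).symm
  · rw [mul_comm]
    congr 1
    refine RDom_pow_eq hζ ?_
    obtain ⟨h2, h3⟩ := h2
    rw [h3, pow_zero, one_mul]
    calc h ^ (j : ℕ) = h ^ (j : ℕ) * 1 := (mul_one _).symm
      _ ≡ h ^ (j : ℕ) * g ^ m [MOD p] := (Nat.ModEq.mul_left _ hgm).symm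
      _ = (g * h) ^ (j : ℕ) * g := by
        have h4 : g ^ m = g ^ (j : ℕ) * g := by
          rw [← pow_succ]
          exact congrArg _ h2.symm
        rw [h4, mul_pow]; ring
      _ ≡ 1 ^ (j : ℕ) * g [MOD p] := Nat.ModEq.mul_right _ (hgh.pow _)
      _ = g := by rw [one_pow, one_mul]
  · rw [zero_mul, mul_zero]

private theorem RDom_map_Cm {R S : Type*} [CommRing R] [CommRing S] (φ : R →+* S) (m : ℕ) (ω : R) :
    (Cm m ω).map φ = Cm m (φ ω) := by
  ext i j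
  simp only [Matrix.map_apply, Cm]
  split_ifs <;> simp

private theorem RDom_map_pow {R S : Type*} [CommRing R] [CommRing S] (φ : R →+* S) (m : ℕ) (ω : R)
    (i : ℕ) : (Cm m (φ ω)) ^ i = (Cm m ω ^ i).map φ := by
  rw [← RDom_map_Cm]
  exact ((φ.mapMatrix).map_pow (Cm m ω) i).symm

/-- the values of the norm never agree for exponents different modulo `p - 1` -/
private theorem RDom_sep (p : ℕ) [Fact p.Prime] {ρ : ℝ} (hρ : 0 < ρ)
    (hρp : ρ ^ (p - 1) = (p : ℝ)⁻¹) {x y : ℚ_[p]} (hy : y ≠ 0) {k l : ℕ} (hk : k < p - 1)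
    (hl : l < p - 1) (h : ‖x‖ * ρ ^ k = ‖y‖ * ρ ^ l) : k = l := by
  have hp : p.Prime := Fact.out
  have hp0 : (0 : ℝ) < p := by exact_mod_cast hp.pos
  have hp1 : (1 : ℝ) < p := by exact_mod_cast hp.one_lt
  have hx : x ≠ 0 := by
    rintro rfl
    rw [norm_zero, zero_mul] at h
    have : 0 < ‖y‖ * ρ ^ l := mul_pos (norm_pos_iff.2 hy) (pow_pos hρ _)
    linarith
  have h2 : (‖x‖ * ρ ^ k) ^ (p - 1) = (‖y‖ * ρ ^ l) ^ (p - 1) := by rw [h]
  rw [mul_pow, mul_pow, ← pow_mul, ← pow_mul, mul_comm k, mul_comm l, pow_mul, pow_mul, hρp,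
    Padic.norm_eq_zpow_neg_valuation hx, Padic.norm_eq_zpow_neg_valuation hy, ← zpow_natCast,
    ← zpow_natCast, ← zpow_natCast, ← zpow_natCast, ← zpow_neg_one, ← zpow_mul, ← zpow_mul,
    ← zpow_mul, ← zpow_mul, ← zpow_add₀ hp0.ne', ← zpow_add₀ hp0.ne'] at h2
  have h3 := zpow_right_injective₀ hp0 hp1.ne' h2
  have h4 : ((p - 1 : ℕ) : ℤ) ∣ (k : ℤ) - (l : ℤ) := by
    refine ⟨-x.valuation + y.valuation, ?_⟩
    linear_combination -h3
  have h5 : (k : ℤ) - (l : ℤ) = 0 := by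
    refine Int.eq_zero_of_abs_lt_dvd h4 ?_
    rw [abs_lt]
    constructor <;> omega
  omega

private theorem RDom_taylor (p : ℕ) {F K : Type*} [Field K] [Field F] [Algebra K F] (c : Fin p → K)
    (hc : c ≠ 0) : ∃ c' : ℕ → K, (∃ k, k < p ∧ c' k ≠ 0) ∧
      ∀ z : F, ∑ k : Fin p, c k • z ^ (k : ℕ) = ∑ k ∈ Finset.range p, c' k • (z - 1) ^ k := by
  classical
  let P : Polynomial K := ∑ k : Fin p, Polynomial.monomial (k : ℕ) (c k)
  have hdeg : ∀ k, p ≤ k → P.coeff k = 0 := by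
    intro k hk
    simp only [P]
    rw [Polynomial.finsetSum_coeff]
    refine Finset.sum_eq_zero fun i _ => ?_
    rw [Polynomial.coeff_monomial, if_neg]
    have := i.2
    omega
  have hP : P ≠ 0 := by
    obtain ⟨k, hk⟩ := Function.ne_iff.1 hc
    intro h
    apply hk
    have : P.coeff k = c k := by
      simp only [P]
      rw [Polynomial.finsetSum_coeff, Finset.sum_eq_single k]
      · rw [Polynomial.coeff_monomial, if_pos rfl]
      · intro b _ hb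
        rw [Polynomial.coeff_monomial, if_neg]
        intro h
        exact hb (Fin.ext h)
      · intro h
        exact absurd (Finset.mem_univ _) h
    rw [h, Polynomial.coeff_zero] at this
    exact this.symm
  have hd : P.natDegree < p := by
    by_contra hcon
    push Not at hcon
    have := hdeg _ hcon
    rw [Polynomial.coeff_natDegree, Polynomial.leadingCoeff_eq_zero] at this
    exact hP this
  have hd' : (Polynomial.taylor 1 P).natDegree < p := by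
    rwa [Polynomial.natDegree_taylor]
  refine ⟨fun k => (Polynomial.taylor 1 P).coeff k, ⟨(Polynomial.taylor 1 P).natDegree, hd', ?_⟩,
    fun z => ?_⟩
  · change (Polynomial.taylor 1 P).coeff (Polynomial.taylor 1 P).natDegree ≠ 0
    rw [Polynomial.coeff_natDegree, Ne, Polynomial.leadingCoeff_eq_zero,
      Polynomial.taylor_eq_zero]
    exact hP
  · have h1 : Polynomial.aeval z P = ∑ k : Fin p, c k • z ^ (k : ℕ) := by
      simp only [P]
      rw [map_sum]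
      refine Finset.sum_congr rfl fun k _ => ?_
      rw [Polynomial.aeval_monomial, Algebra.smul_def]
    have h2 : Polynomial.aeval (z - 1) (Polynomial.taylor 1 P) = Polynomial.aeval z P := by
      rw [Polynomial.taylor_apply, Polynomial.aeval_comp]
      congr 1
      simp
    rw [← h1, ← h2, Polynomial.aeval_eq_sum_range' hd']

private theorem RDom_gen (p : ℕ) [Fact p.Prime] {F : Type*} [NormedField F] [IsUltrametricDist F]
    [NormedAlgebra ℚ_[p] F] {m : ℕ} (hm : 0 < m) (ω : ℤ_[p])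
    (hirr : Irreducible (Polynomial.X ^ m - Polynomial.C (PadicInt.toZMod ω) : Polynomial (ZMod p)))
    (z : Fin m → F) (hz : ∀ j, ‖z j - 1‖ ^ (p - 1) = (p : ℝ)⁻¹)
    (c : Fin m → Fin (p - 1) → ℚ_[p]) (hc : c ≠ 0) :
    (∑ i, ∑ k, c i k • (Cm m (algebraMap ℚ_[p] F (ω : ℚ_[p])) ^ (i : ℕ) *
      (Matrix.diagonal z) ^ (k : ℕ))).det ≠ 0 := by
  classical
  have hp : p.Prime := Fact.out
  have hp1 : 0 < p - 1 := by have := hp.two_le; omega
  have hp0 : (0 : ℝ) < (p : ℝ)⁻¹ := by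
    have : (0 : ℝ) < p := by exact_mod_cast hp.pos
    positivity
  -- the common norm
  obtain ⟨ρ, hρ0, hρp, hρj⟩ : ∃ ρ : ℝ, 0 < ρ ∧ ρ ^ (p - 1) = (p : ℝ)⁻¹ ∧ ∀ j, ‖z j - 1‖ = ρ := by
    refine ⟨‖z ⟨0, hm⟩ - 1‖, ?_, hz _, fun j => ?_⟩
    · rcases (norm_nonneg (z ⟨0, hm⟩ - 1)).eq_or_lt with h | h
      · exfalso
        have := hz ⟨0, hm⟩
        rw [← h, zero_pow hp1.ne'] at this
        linarith
      · exact h
    · exact (pow_left_inj₀ (norm_nonneg _) (norm_nonneg _) hp1.ne').1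
        ((hz j).trans (hz ⟨0, hm⟩).symm)
  -- the coefficients `c'`
  have hex : ∀ i, ∃ c' : ℕ → ℚ_[p], (c i ≠ 0 → ∃ k, k < p - 1 ∧ c' k ≠ 0) ∧
      ∀ w : F, ∑ k : Fin (p - 1), c i k • w ^ (k : ℕ) =
        ∑ k ∈ Finset.range (p - 1), c' k • (w - 1) ^ k := by
    intro i
    by_cases h : c i = 0
    · refine ⟨0, fun h' => absurd h h', fun w => ?_⟩
      simp [h]
    · obtain ⟨c', h1, h2⟩ := RDom_taylor (p - 1) (F := F) (c i) h
      exact ⟨c', fun _ => h1, h2⟩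
  choose c' hc'1 hc'2 using hex
  obtain ⟨i₁, hi₁⟩ := Function.ne_iff.1 hc
  obtain ⟨k₁, hk₁, hck₁⟩ := hc'1 i₁ hi₁
  -- the maximum
  have hne : (Finset.univ ×ˢ Finset.range (p - 1) : Finset (Fin m × ℕ)).Nonempty :=
    ⟨(i₁, k₁), by simp [hk₁]⟩
  obtain ⟨⟨i₀, k₀⟩, hmem, hmax⟩ := Finset.exists_max_image _
    (fun q : Fin m × ℕ => ‖c' q.1 q.2‖ * ρ ^ q.2) hne
  have hk₀ : k₀ < p - 1 := by simpa using hmem
  have hmax' : ∀ i k, k < p - 1 → ‖c' i k‖ * ρ ^ k ≤ ‖c' i₀ k₀‖ * ρ ^ k₀ := by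
    intro i k hk
    exact hmax (i, k) (by simp [hk])
  have hl : c' i₀ k₀ ≠ 0 := by
    intro h
    have := hmax' i₁ k₁ hk₁
    rw [h, norm_zero, zero_mul] at this
    have h2 : 0 < ‖c' i₁ k₁‖ * ρ ^ k₁ := mul_pos (norm_pos_iff.2 hck₁) (pow_pos hρ0 _)
    linarith
  have hlpos : 0 < ‖c' i₀ k₀‖ := norm_pos_iff.2 hl
  have hstrict : ∀ i k, k < p - 1 → k ≠ k₀ → ‖c' i k‖ * ρ ^ k < ‖c' i₀ k₀‖ * ρ ^ k₀ := by
    intro i k hk hkk
    exact lt_of_le_of_ne (hmax' i k hk) fun h => hkk (RDom_sep p hρ0 hρp hl hk hk₀ h)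
  -- the unit part
  have hb : ∀ i, ‖c' i k₀ / c' i₀ k₀‖ ≤ 1 := by
    intro i
    rw [norm_div, div_le_one hlpos]
    exact le_of_mul_le_mul_right (hmax' i k₀ hk₀) (pow_pos hρ0 _)
  let b : Fin m → ℤ_[p] := fun i => ⟨c' i k₀ / c' i₀ k₀, hb i⟩
  have hb0 : b i₀ = 1 := by
    apply Subtype.ext
    exact div_self hl
  have hunit := comp_unit p ω hirr b ⟨i₀, by rw [hb0, map_one]; exact one_ne_zero⟩
  let φ : ℤ_[p] →+* F := (algebraMap ℚ_[p] F).comp PadicInt.Coe.ringHom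
  have hφn : ∀ x : ℤ_[p], ‖φ x‖ = ‖x‖ := by
    intro x
    simp only [φ]
    rw [RingHom.comp_apply, norm_algebraMap']
    rfl
  have hφω : algebraMap ℚ_[p] F (ω : ℚ_[p]) = φ ω := rfl
  let B : Matrix (Fin m) (Fin m) F := (∑ i, b i • Cm m ω ^ (i : ℕ)).map φ
  let t : Fin m → F := fun j => (algebraMap ℚ_[p] F (c' i₀ k₀))⁻¹ * ((z j - 1) ^ k₀)⁻¹
  let q : Fin m → Fin m → F := fun i j => ∑ k : Fin (p - 1), c i k • z j ^ (k : ℕ)
  let ε : Fin m → Fin m → F := fun i j => q i j * t j - φ (b i)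
  let E' : Matrix (Fin m) (Fin m) F := fun a j =>
    ∑ i : Fin m, (Cm m (φ ω) ^ (i : ℕ)) a j * ε i j
  have hCle : ∀ (i : ℕ) (a j : Fin m), ‖(Cm m (φ ω) ^ i) a j‖ ≤ 1 := by
    intro i a j
    rw [RDom_map_pow, Matrix.map_apply, hφn]
    exact PadicInt.norm_le_one _
  have hzj : ∀ j, z j - 1 ≠ 0 := by
    intro j
    rw [← norm_pos_iff, hρj]
    exact hρ0
  have hal : algebraMap ℚ_[p] F (c' i₀ k₀) ≠ 0 := by
    rw [Ne, map_eq_zero]
    exact hl
  have hεlt : ∀ i j, ‖ε i j‖ < 1 := by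
    intro i j
    have h1 : ε i j = ∑ k ∈ (Finset.range (p - 1)).erase k₀, (c' i k • (z j - 1) ^ k) * t j := by
      have h2 : φ (b i) = (c' i k₀ • (z j - 1) ^ k₀) * t j := by
        change algebraMap ℚ_[p] F (c' i k₀ / c' i₀ k₀) =
          (c' i k₀ • (z j - 1) ^ k₀) * ((algebraMap ℚ_[p] F (c' i₀ k₀))⁻¹ * ((z j - 1) ^ k₀)⁻¹)
        rw [Algebra.smul_def, map_div₀]
        have := pow_ne_zero k₀ (hzj j)
        field_simp
      simp only [ε, q]
      rw [h2, hc'2, Finset.sum_mul, ← Finset.add_sum_erase _ _ (Finset.mem_range.2 hk₀)]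
      ring
    rw [h1]
    rcases ((Finset.range (p - 1)).erase k₀).eq_empty_or_nonempty with he | he
    · rw [he, Finset.sum_empty, norm_zero]
      exact one_pos
    · obtain ⟨k, hk, hle⟩ := IsUltrametricDist.exists_norm_finsetSum_le_of_nonempty he
        (fun k => (c' i k • (z j - 1) ^ k) * t j)
      refine lt_of_le_of_lt hle ?_
      rw [Finset.mem_erase, Finset.mem_range] at hk
      simp only [t]
      rw [norm_mul, norm_smul, norm_mul, norm_inv, norm_inv, norm_pow, norm_pow, hρj,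
        norm_algebraMap', ← mul_inv, ← div_eq_mul_inv, div_lt_one (mul_pos hlpos (pow_pos hρ0 _))]
      exact hstrict i k hk.2 hk.1
  have hkey : (∑ i, ∑ k, c i k • (Cm m (algebraMap ℚ_[p] F (ω : ℚ_[p])) ^ (i : ℕ) *
      (Matrix.diagonal z) ^ (k : ℕ))) * Matrix.diagonal t = B + E' := by
    ext a j
    rw [Matrix.mul_diagonal, Matrix.sum_apply, Matrix.add_apply, hφω]
    have hB : B a j = ∑ i, φ (b i) * (Cm m (φ ω) ^ (i : ℕ)) a j := by
      simp only [B]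
      rw [Matrix.map_apply, Matrix.sum_apply, map_sum]
      refine Finset.sum_congr rfl fun i _ => ?_
      rw [Matrix.smul_apply, smul_eq_mul, map_mul, RDom_map_pow, Matrix.map_apply]
    rw [hB]
    simp only [E']
    rw [← Finset.sum_add_distrib, Finset.sum_mul]
    refine Finset.sum_congr rfl fun i _ => ?_
    rw [Matrix.sum_apply]
    have h3 : ∑ k : Fin (p - 1), (c i k • (Cm m (φ ω) ^ (i : ℕ) *
        (Matrix.diagonal z) ^ (k : ℕ))) a j = (Cm m (φ ω) ^ (i : ℕ)) a j * q i j := by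
      simp only [q]
      rw [Finset.mul_sum]
      refine Finset.sum_congr rfl fun k _ => ?_
      rw [Matrix.smul_apply, Matrix.diagonal_pow, Matrix.mul_diagonal, Pi.pow_apply,
        mul_smul_comm]
    rw [h3]
    simp only [ε]
    ring
  have hBle : ∀ a j, ‖B a j‖ ≤ 1 := by
    intro a j
    simp only [B]
    rw [Matrix.map_apply, hφn]
    exact PadicInt.norm_le_one _
  have hBdet : ‖B.det‖ = 1 := by
    have : B.det = φ ((∑ i, b i • Cm m ω ^ (i : ℕ)).det) := by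
      rw [RingHom.map_det]
      rfl
    rw [this, hφn]
    exact PadicInt.isUnit_iff.1 hunit
  have hE' : ∀ a j, ‖E' a j‖ < 1 := by
    intro a j
    simp only [E']
    obtain ⟨i, _, hle⟩ := IsUltrametricDist.exists_norm_finsetSum_le_of_nonempty
      (⟨⟨0, hm⟩, Finset.mem_univ _⟩ : (Finset.univ : Finset (Fin m)).Nonempty)
      (fun i => (Cm m (φ ω) ^ (i : ℕ)) a j * ε i j)
    refine lt_of_le_of_lt hle ?_
    rw [norm_mul]
    exact mul_lt_one_of_nonneg_of_lt_one_right (hCle _ _ _) (norm_nonneg _) (hεlt i j)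
  have hfin := norm_det_add B E' hBle hBdet hE'
  rw [← hkey, Matrix.det_mul] at hfin
  intro h0
  rw [h0, zero_mul, norm_zero] at hfin
  exact zero_ne_one hfin

theorem det_ne_zero (p : ℕ) [Fact p.Prime] {m : ℕ} (hm : 0 < m) (ω : ℤ_[p])
    (hirr : Irreducible (Polynomial.X ^ m - Polynomial.C (PadicInt.toZMod ω) : Polynomial (ZMod p)))
    {ζ : PadicAlgCl p} (hζ : IsPrimitiveRoot ζ p) {h : ℕ} (hh : ¬ p ∣ h)
    (c : Fin m → Fin (p - 1) → ℚ_[p]) (hc : c ≠ 0) :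
    (∑ i, ∑ k, c i k • (Cm m (algebraMap ℚ_[p] (PadicAlgCl p) (ω : ℚ_[p])) ^ (i : ℕ) *
      Am m ζ h ^ (k : ℕ))).det ≠ 0 := by
  have hp : p.Prime := Fact.out
  exact RDom_gen p hm ω hirr (fun j => ζ ^ (h ^ (j : ℕ)))
    (fun j => norm_zeta_sub_one p hζ (fun h' => hh (hp.dvd_of_dvd_pow h'))) c hc

end GR95
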