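import Mathlib

/-! Row G25. Extension of a homomorphism from generators of a metacyclic group. `G = <a> ⋊ <b>`, `orderOf a = p`, `orderOf b = N` with
`p ∤ N` (`p` prime), `b a b⁻¹ = a^g`. Every element of `G` is `b^j a^k` with unique `j < N`, `k < p` (`<a>` is normal, `<a> ⊓ <b> = ⊥` as the
orders are coprime, `<a> <b>` is a subgroup containing `a, b`). Given `A, C` in a monoid `M` with `A^p = 1`, `C^N = 1`, `C A = A^g C`, the map
`b^j a^k ↦ C^j A^k` is a homomorphism (`A^k C^j = C^j A^(k h^j)` where `h g ≡ 1 mod p`; `g` is prime to `p` as `a ↦ a^g` is injective). -/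

namespace GR95

private theorem RHomExt_push {G : Type*} [Group G] {g : ℕ} (a b : G) (hab : b * a * b⁻¹ = a ^ g)
    (k m : ℕ) : b ^ m * a ^ k = a ^ (k * g ^ m) * b ^ m := by
  have h1 : ∀ k : ℕ, b * a ^ k = a ^ (k * g) * b := by
    intro k
    have h2 : b * a ^ k * b⁻¹ = (b * a * b⁻¹) ^ k := (conj_pow).symm
    rw [hab, ← pow_mul] at h2
    rw [mul_comm k g, ← h2]
    group
  induction m with
  | zero => simp
  | succ m ih =>
    rw [pow_succ', mul_assoc, ih, ← mul_assoc, h1, mul_assoc, pow_succ, mul_assoc k]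

private theorem RHomExt_comm {G : Type*} [Group G] {N g : ℕ} (hN : 0 < N) (a b : G) (hb : b ^ N = 1)
    (hab : b * a * b⁻¹ = a ^ g) (k j : ℕ) :
    a ^ k * b ^ j = b ^ j * a ^ (k * g ^ (N * j - j)) := by
  have h1 := RHomExt_push a b hab k (N * j - j)
  have h2 : j ≤ N * j := Nat.le_mul_of_pos_left j hN
  have h3 : b ^ (N * j - j) * b ^ j = 1 := by
    rw [← pow_add, Nat.sub_add_cancel h2, pow_mul, hb, one_pow]
  have h4 : b ^ j * b ^ (N * j - j) = 1 := by
    rw [← pow_add, Nat.add_sub_cancel' h2, pow_mul, hb, one_pow]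
  calc a ^ k * b ^ j = (b ^ j * b ^ (N * j - j)) * (a ^ k * b ^ j) := by rw [h4, one_mul]
    _ = b ^ j * (b ^ (N * j - j) * a ^ k) * b ^ j := by simp only [mul_assoc]
    _ = b ^ j * (a ^ (k * g ^ (N * j - j)) * b ^ (N * j - j)) * b ^ j := by rw [h1]
    _ = b ^ j * a ^ (k * g ^ (N * j - j)) * (b ^ (N * j - j) * b ^ j) := by simp only [mul_assoc]
    _ = _ := by rw [h3, mul_one]

private theorem RHomExt_nf {G : Type*} [Group G] {p N g : ℕ} (hp : 0 < p) (hN : 0 < N) (a b : G)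
    (ha : a ^ p = 1) (hb : b ^ N = 1) (hab : b * a * b⁻¹ = a ^ g) :
    ∀ x ∈ Subgroup.closure ({a, b} : Set G), ∃ j k : ℕ, j < N ∧ k < p ∧ x = b ^ j * a ^ k := by
  have main : ∀ x ∈ Subgroup.closure ({a, b} : Set G), ∃ j k : ℕ, x = b ^ j * a ^ k := by
    intro x hx
    induction hx using Subgroup.closure_induction with
    | mem x hx =>
      rcases hx with rfl | rfl
      · exact ⟨0, 1, by simp⟩
      · exact ⟨1, 0, by simp⟩
    | one => exact ⟨0, 0, by simp⟩
    | mul x y _ _ hx hy =>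
      obtain ⟨j, k, rfl⟩ := hx
      obtain ⟨j', k', rfl⟩ := hy
      refine ⟨j + j', k * g ^ (N * j' - j') + k', ?_⟩
      calc b ^ j * a ^ k * (b ^ j' * a ^ k') = b ^ j * (a ^ k * b ^ j') * a ^ k' := by
            simp only [mul_assoc]
        _ = _ := by rw [RHomExt_comm hN a b hb hab, pow_add, pow_add]; simp only [mul_assoc]
    | inv x _ hx =>
      obtain ⟨j, k, rfl⟩ := hx
      have h1 : (a ^ k)⁻¹ = a ^ (p * k - k) := by
        rw [inv_eq_iff_mul_eq_one, ← pow_add, Nat.add_sub_cancel' (Nat.le_mul_of_pos_left k hp),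
          pow_mul, ha, one_pow]
      have h2 : (b ^ j)⁻¹ = b ^ (N * j - j) := by
        rw [inv_eq_iff_mul_eq_one, ← pow_add, Nat.add_sub_cancel' (Nat.le_mul_of_pos_left j hN),
          pow_mul, hb, one_pow]
      rw [mul_inv_rev, h1, h2, RHomExt_comm hN a b hb hab]
      exact ⟨_, _, rfl⟩
  intro x hx
  obtain ⟨j, k, rfl⟩ := main x hx
  refine ⟨j % N, k % p, Nat.mod_lt _ hN, Nat.mod_lt _ hp, ?_⟩
  rw [← pow_eq_pow_mod j hb, ← pow_eq_pow_mod k ha]

theorem exists_hom_ext {G M : Type*} [Group G] [Monoid M] {p N g : ℕ} (hp : p.Prime) (hN : 0 < N)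
    (hpN : ¬ p ∣ N) (a b : G) (ha : orderOf a = p) (hb : orderOf b = N)
    (hgen : Subgroup.closure {a, b} = ⊤) (hab : b * a * b⁻¹ = a ^ g) (A C : M) (hA : A ^ p = 1)
    (hC : C ^ N = 1) (hCA : C * A = A ^ g * C) :
    (∃ ψ : G →* M, ψ a = A ∧ ψ b = C) ∧ ∀ x : G, ∃ j k : ℕ, j < N ∧ k < p ∧ x = b ^ j * a ^ k := by
  have ha1 : a ^ p = 1 := by rw [← ha]; exact pow_orderOf_eq_one a
  have hb1 : b ^ N = 1 := by rw [← hb]; exact pow_orderOf_eq_one b
  refine ⟨?_, fun x => RHomExt_nf hp.pos hN a b ha1 hb1 hab x (by rw [hgen]; trivial)⟩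
  let Au : Mˣ := Units.ofPowEqOne A p hA hp.ne_zero
  let Cu : Mˣ := Units.ofPowEqOne C N hC hN.ne'
  have hAu : (Au : M) = A := rfl
  have hCu : (Cu : M) = C := rfl
  have hAu1 : Au ^ p = 1 := by
    ext
    rw [Units.val_pow_eq_pow_val, hAu, hA, Units.val_one]
  have hCu1 : Cu ^ N = 1 := by
    ext
    rw [Units.val_pow_eq_pow_val, hCu, hC, Units.val_one]
  have hCAu : Cu * Au * Cu⁻¹ = Au ^ g := by
    rw [mul_inv_eq_iff_eq_mul]
    ext
    rw [Units.val_mul, Units.val_mul, Units.val_pow_eq_pow_val, hAu, hCu, hCA]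
  let a' : G × Mˣ := (a, Au)
  let b' : G × Mˣ := (b, Cu)
  have hnf := RHomExt_nf (G := G × Mˣ) hp.pos hN a' b' (Prod.ext ha1 hAu1) (Prod.ext hb1 hCu1)
    (Prod.ext hab hCAu)
  let H : Subgroup (G × Mˣ) := Subgroup.closure {a', b'}
  have ha' : a' ∈ H := Subgroup.subset_closure (by simp)
  have hb' : b' ∈ H := Subgroup.subset_closure (by simp)
  let f : H →* G := (MonoidHom.fst G Mˣ).comp H.subtype
  have hinj : Function.Injective f := by
    rw [injective_iff_map_eq_one]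
    rintro ⟨x, hx⟩ hfx
    obtain ⟨j, k, hj, hk, rfl⟩ := hnf x hx
    have h1 : b ^ j * a ^ k = 1 := hfx
    have h2 : b ^ j = (a ^ k)⁻¹ := eq_inv_of_mul_eq_one_left h1
    have h3 : orderOf (b ^ j) ∣ N := by rw [← hb]; exact orderOf_pow_dvd j
    have h4 : orderOf (b ^ j) ∣ p := by
      rw [h2, orderOf_inv, ← ha]; exact orderOf_pow_dvd k
    have h5 : orderOf (b ^ j) = 1 := by
      rcases (Nat.dvd_prime hp).mp h4 with h | h
      · exact h
      · rw [h] at h3; exact absurd h3 hpN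
    have h6 : b ^ j = 1 := orderOf_eq_one_iff.mp h5
    have h7 : a ^ k = 1 := by rw [h6, one_mul] at h1; exact h1
    have h8 : j = 0 := by
      have := orderOf_dvd_of_pow_eq_one h6
      rw [hb] at this
      exact Nat.eq_zero_of_dvd_of_lt this hj
    have h9 : k = 0 := by
      have := orderOf_dvd_of_pow_eq_one h7
      rw [ha] at this
      exact Nat.eq_zero_of_dvd_of_lt this hk
    subst h8 h9
    apply Subtype.ext
    change b' ^ 0 * a' ^ 0 = 1
    simp
  have hsurj : Function.Surjective f := by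
    rw [← MonoidHom.range_eq_top, eq_top_iff, ← hgen, Subgroup.closure_le]
    rintro x (rfl | rfl)
    · exact ⟨⟨a', ha'⟩, rfl⟩
    · exact ⟨⟨b', hb'⟩, rfl⟩
  let e : H ≃* G := MulEquiv.ofBijective f ⟨hinj, hsurj⟩
  refine ⟨(Units.coeHom M).comp ((MonoidHom.snd G Mˣ).comp (H.subtype.comp e.symm.toMonoidHom)),
    ?_, ?_⟩
  · have h1 : e.symm a = ⟨a', ha'⟩ := (MulEquiv.symm_apply_eq e).mpr rfl
    change (((e.symm a : H) : G × Mˣ).2 : M) = A
    rw [h1]
    rfl
  · have h1 : e.symm b = ⟨b', hb'⟩ := (MulEquiv.symm_apply_eq e).mpr rfl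
    change (((e.symm b : H) : G × Mˣ).2 : M) = C
    rw [h1]
    rfl

end GR95
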