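import Pool.Agent.LibGR95.RSplit
import Pool.Agent.LibGR95.RDom
import Pool.Agent.LibGR95.RHomExt

/-! Row G30. The family `C_p ⋊ C_(m t)`. Let `ζ` be a primitive `p`-th root of unity in `PadicAlgCl p`, `h` with `g h ≡ 1 mod p`, `A = Am m ζ h`,
`C = Cm m ω`. `exists_hom_ext` gives `ψ : Gal(K/ℚ) → Matrix`, `ψ a = A`, `ψ b = C` (`C^m = ω`, `ω^t = 1`). `D` = the `ℚ_[p]`-subalgebra of matrices spanned by
`ψ(G)` (range of `MonoidAlgebra.lift`); by `Cm_pow`, `∑_{k<p} A^k = 0` (`ζ^(h^j)` is a primitive root) and the form `b^j a^k` of the elements, every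
element of `D` is `∑_{i<m, k<p-1} c_ik C^i A^k`, so nonzero elements of `D` are invertible matrices (`det_ne_zero`): `D` has no zero
divisors, is finite dimensional, and the `C^i A^k` are linearly independent. Given `f` as in the statement take the functional `ℓ` on `D` with
`ℓ(C^j A^k) = f(σ₀ ∘ b^j a^k)` for `j < m`, `k < p - 1` (extend from a basis). Both `σ₀ ∘ x ↦ f(σ₀ ∘ x)` and `x ↦ ℓ(ψ x)` satisfy `F(x b^m) = ω F(x)`,
`∑_{k<p} F(x a^k) = 0`, so they agree on all of `G` (on `b^j a^k`: `b^(j + m i) a^k = b^j a^k (b^m)^i` as `b^m` commutes with `a`: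
`hgm`). `ψ(c)² = 1` so `ψ(c) = ± 1` (`D` domain). If `ψ(c) = -1`, `split_division`. If `ψ(c) = 1` then `f(σ₀ x c) = f(σ₀ x)`, but `f ∈ Y⁻`, so `f = 0`.
(every embedding is `σ₀ ∘ x`.) -/

namespace GR95

open NumberField Bru95

section RFam_alg

/-- all products `C^j A^k` are combinations of the small ones -/
private theorem RFam_span {F M : Type*} [Field F] [Ring M] [Algebra F M] {n m : ℕ}
    (hm : 0 < m) (w : F) (A C : M) (hC : C ^ m = algebraMap F M w) (hA : A ^ (n + 1) = 1)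
    (hs : ∑ k ∈ Finset.range (n + 1), A ^ k = 0) (j k : ℕ) :
    C ^ j * A ^ k ∈ Submodule.span F
      (Set.range fun ik : Fin m × Fin n => C ^ (ik.1 : ℕ) * A ^ (ik.2 : ℕ)) := by
  set S := Submodule.span F
      (Set.range fun ik : Fin m × Fin n => C ^ (ik.1 : ℕ) * A ^ (ik.2 : ℕ)) with hS
  have h1 : ∀ i k, i < m → k < n → C ^ i * A ^ k ∈ S := fun i k hi hk =>
    Submodule.subset_span ⟨(⟨i, hi⟩, ⟨k, hk⟩), rfl⟩
  have h2 : ∀ i k, i < m → k < n + 1 → C ^ i * A ^ k ∈ S := by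
    intro i k hi hk
    rcases lt_or_ge k n with h | h
    · exact h1 i k hi h
    · have hk' : k = n := by omega
      have h3 : A ^ k = - ∑ k ∈ Finset.range n, A ^ k := by
        rw [Finset.sum_range_succ] at hs
        rw [hk']
        exact (eq_neg_of_add_eq_zero_right hs)
      rw [h3, mul_neg, Finset.mul_sum]
      exact S.neg_mem (S.sum_mem fun k hk => h1 i k hi (Finset.mem_range.1 hk))
  have h5 : C ^ j * A ^ k = (w ^ (j / m)) • (C ^ (j % m) * A ^ (k % (n + 1))) := by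
    have h6 : A ^ k = A ^ (k % (n + 1)) := by
      conv_lhs => rw [← Nat.mod_add_div k (n + 1), pow_add, pow_mul, hA, one_pow, mul_one]
    have h7 : C ^ j = (w ^ (j / m)) • C ^ (j % m) := by
      conv_lhs => rw [← Nat.mod_add_div j m, pow_add, pow_mul, hC, ← map_pow, ← Algebra.commutes,
        ← Algebra.smul_def]
    rw [h6, h7, smul_mul_assoc]
  rw [h5]
  exact S.smul_mem _ (h2 _ _ (Nat.mod_lt _ hm) (Nat.mod_lt _ (by omega)))

/-- two functions with the same quasi-periods which agree on the small elements agree -/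
private theorem RFam_agree {G F : Type*} [Group G] [Field F] {n m N : ℕ} (hm : 0 < m)
    (a b : G) (hab : b ^ m * a = a * b ^ m)
    (hrep : ∀ x : G, ∃ j k : ℕ, j < N ∧ k < n + 1 ∧ x = b ^ j * a ^ k)
    (w : F) (F1 F2 : G → F)
    (h1 : ∀ x, F1 (x * b ^ m) = w * F1 x) (h2 : ∀ x, F2 (x * b ^ m) = w * F2 x)
    (k1 : ∀ x, ∑ k ∈ Finset.range (n + 1), F1 (x * a ^ k) = 0)
    (k2 : ∀ x, ∑ k ∈ Finset.range (n + 1), F2 (x * a ^ k) = 0)
    (hF : ∀ i k, i < m → k < n → F1 (b ^ i * a ^ k) = F2 (b ^ i * a ^ k)) :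
    ∀ x, F1 x = F2 x := by
  have e1 : ∀ i k, i < m → k < n + 1 → F1 (b ^ i * a ^ k) = F2 (b ^ i * a ^ k) := by
    intro i k hi hk
    rcases lt_or_ge k n with h | h
    · exact hF i k hi h
    · have hk' : k = n := by omega
      have u1 := k1 (b ^ i)
      have u2 := k2 (b ^ i)
      rw [Finset.sum_range_succ] at u1 u2
      have u3 : ∑ k ∈ Finset.range n, F1 (b ^ i * a ^ k) =
          ∑ k ∈ Finset.range n, F2 (b ^ i * a ^ k) :=
        Finset.sum_congr rfl fun k hk => hF i k hi (Finset.mem_range.1 hk)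
      rw [u3] at u1
      rw [hk']
      have u4 := u1.trans u2.symm
      exact add_left_cancel u4
  have hcomm : ∀ k : ℕ, b ^ m * a ^ k = a ^ k * b ^ m := fun k =>
    ((show Commute (b ^ m) a from hab).pow_right k)
  have e2 : ∀ (E : G → F), (∀ x, E (x * b ^ m) = w * E x) → ∀ i k s : ℕ,
      E (b ^ (i + m * s) * a ^ k) = w ^ s * E (b ^ i * a ^ k) := by
    intro E hE i k s
    induction s with
    | zero => simp
    | succ s ih =>
      have h3 : b ^ (i + m * (s + 1)) * a ^ k = (b ^ (i + m * s) * a ^ k) * b ^ m := by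
        rw [mul_assoc, ← hcomm k, ← mul_assoc, ← pow_add]
        congr 2
        ring
      rw [h3, hE, ih, pow_succ]
      ring
  intro x
  obtain ⟨j, k, _, hk, rfl⟩ := hrep x
  rw [← Nat.mod_add_div j m, e2 F1 h1, e2 F2 h2, e1 _ k (Nat.mod_lt _ hm) hk]

private theorem RFam_functional {F V ι : Type*} [Field F] [AddCommGroup V] [Module F V]
    (v : ι → V) (hv : LinearIndependent F v) (φ : ι → F) :
    ∃ ℓ : V →ₗ[F] F, ∀ i, ℓ (v i) = φ i := by
  obtain ⟨ℓ, hℓ⟩ := LinearMap.exists_extend ((Module.Basis.span hv).constr F φ)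
  refine ⟨ℓ, fun i => ?_⟩
  have h1 := LinearMap.congr_fun hℓ ((Module.Basis.span hv) i)
  rw [Module.Basis.constr_basis] at h1
  rw [← h1]
  show ℓ (v i) = ℓ (((Module.Basis.span hv) i : Submodule.span F (Set.range v)) : V)
  rw [Module.Basis.span_apply]

private theorem RFam_D {F M G : Type*} [Field F] [Ring M] [Algebra F M] [Group G] (ψ : G →* M) :
    ∃ D : Subalgebra F M, Subalgebra.toSubmodule D = Submodule.span F (Set.range ψ) := by
  refine ⟨Algebra.adjoin F (Set.range ψ), ?_⟩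
  rw [Algebra.adjoin_eq_span]
  have h1 : (Set.range ψ) = ((MonoidHom.mrange ψ : Submonoid M) : Set M) := by
    rw [MonoidHom.coe_mrange]
  rw [h1, Submonoid.closure_eq]

private theorem RFam_sq {R : Type*} [Ring R] (y : R) (h : y * y = 1) :
    (y - 1) * (y + 1) = 0 := by
  rw [sub_mul, mul_add, mul_one, one_mul, h]
  abel

end RFam_alg

/-- in a Galois extension all embeddings are conjugate -/
private theorem RFam_emb (p : ℕ) [Fact p.Prime] (K : Type*) [Field K] [NumberField K]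
    [IsGalois ℚ K] (σ₀ : Emb p K) (τ : Emb p K) :
    ∃ x : K ≃ₐ[ℚ] K, σ₀.comp (x : K →+* K) = τ := by
  classical
  have hinj : Function.Injective (fun x : K ≃ₐ[ℚ] K => σ₀.comp (x : K →+* K)) := by
    intro x y hxy
    ext z
    have h1 : σ₀ (x z) = σ₀ (y z) := RingHom.congr_fun hxy z
    exact σ₀.injective h1
  have hcard : Fintype.card (K ≃ₐ[ℚ] K) = Fintype.card (Emb p K) := by
    have h1 : Fintype.card (K →+* PadicAlgCl p) = Module.finrank ℚ K :=
      NumberField.Embeddings.card K (PadicAlgCl p)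
    have h2 := IsGalois.card_aut_eq_finrank ℚ K
    rw [Nat.card_eq_fintype_card] at h2
    rw [h2]
    exact h1.symm
  exact ((Fintype.bijective_iff_injective_and_card _).2 ⟨hinj, hcard⟩).2 τ

variable (p : ℕ) [Fact p.Prime] (K : Type*) [Field K] [NumberField K] [IsCMField K]

theorem family {L : ℚ_[p] → ℚ_[p]} (hL : IsPadicLog p L) [IsGalois ℚ K]
    (hsplit : ∀ (σ : Emb p K) (x : K), ∃ y : ℚ_[p], σ x = algebraMap ℚ_[p] (PadicAlgCl p) y)
    {m t g : ℕ} (hm : 0 < m) (ht : 0 < t) (hmt : ¬ p ∣ m * t) (a b : K ≃ₐ[ℚ] K)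
    (ha : orderOf a = p) (hb : orderOf b = m * t) (hgen : Subgroup.closure {a, b} = ⊤)
    (hab : b * a * b⁻¹ = a ^ g) (hgm : g ^ m ≡ 1 [MOD p]) (ω : ℤ_[p]) (hω : ω ^ t = 1)
    (hirr : Irreducible (Polynomial.X ^ m - Polynomial.C (PadicInt.toZMod ω) : Polynomial (ZMod p)))
    (f : Emb p K → ℚ_[p]) (hf : f ∈ Ym p K)
    (h1 : ∀ σ : Emb p K, f (σ.comp ((b ^ m : K ≃ₐ[ℚ] K) : K →+* K)) = (ω : ℚ_[p]) * f σ)
    (h2 : ∀ σ : Emb p K, ∑ k ∈ Finset.range p, f (σ.comp ((a ^ k : K ≃ₐ[ℚ] K) : K →+* K)) = 0) :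
    f ∈ LogImage p K L := by
  classical
  have hp : p.Prime := Fact.out
  have hp2 : 2 ≤ p := hp.two_le
  have : NeZero (p : PadicAlgCl p) := ⟨Nat.cast_ne_zero.2 hp.ne_zero⟩
  obtain ⟨ζ, hζ⟩ := HasEnoughRootsOfUnity.exists_primitiveRoot (PadicAlgCl p) p
  have hgh : g * g ^ (m - 1) ≡ 1 [MOD p] := by
    have : g * g ^ (m - 1) = g ^ m := by
      rw [← pow_succ']
      congr 1
      omega
    rw [this]
    exact hgm
  have hh : ¬ p ∣ g ^ (m - 1) := by
    intro hd
    have h3 : g * g ^ (m - 1) ≡ 0 [MOD p] := Nat.modEq_zero_iff_dvd.2 (Dvd.dvd.mul_left hd g)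
    have h4 : 1 ≡ 0 [MOD p] := hgh.symm.trans h3
    rw [Nat.modEq_zero_iff_dvd] at h4
    have h5 := Nat.le_of_dvd one_pos h4
    omega
  set h := g ^ (m - 1) with hh_def
  set w' : PadicAlgCl p := algebraMap ℚ_[p] (PadicAlgCl p) (ω : ℚ_[p]) with hw'
  set A : Matrix (Fin m) (Fin m) (PadicAlgCl p) := Am m ζ h with hA_def
  set C : Matrix (Fin m) (Fin m) (PadicAlgCl p) := Cm m w' with hC_def
  have hApow : ∀ k : ℕ, A ^ k = Matrix.diagonal fun j : Fin m => (ζ ^ (h ^ (j : ℕ))) ^ k := by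
    intro k
    rw [hA_def, Am, Matrix.diagonal_pow]
    rfl
  have hprim : ∀ j : ℕ, IsPrimitiveRoot (ζ ^ (h ^ j)) p := by
    intro j
    apply hζ.pow_of_coprime
    exact Nat.Coprime.pow_left _ ((Nat.coprime_comm.1 ((Nat.Prime.coprime_iff_not_dvd hp).2 hh)))
  have hA : A ^ p = 1 := by
    rw [hApow, ← Matrix.diagonal_one]
    congr 1
    funext j
    exact (hprim j).pow_eq_one
  have hAsum : ∑ k ∈ Finset.range p, A ^ k = 0 := by
    ext i j
    rw [Matrix.sum_apply]
    have h3 : ∀ k ∈ Finset.range p, (A ^ k) i j =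
        if i = j then (ζ ^ (h ^ (i : ℕ))) ^ k else 0 := by
      intro k _
      rw [hApow, Matrix.diagonal_apply]
    rw [Finset.sum_congr rfl h3]
    by_cases hij : i = j
    · simp only [hij, if_true]
      exact (hprim _).geom_sum_eq_zero hp.one_lt
    · simp [hij]
  have hCm : C ^ m = algebraMap ℚ_[p] (Matrix (Fin m) (Fin m) (PadicAlgCl p)) (ω : ℚ_[p]) := by
    rw [hC_def, Cm_pow, Algebra.algebraMap_eq_smul_one, hw', algebraMap_smul]
  have hCN : C ^ (m * t) = 1 := by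
    rw [pow_mul, hCm, ← map_pow]
    have h3 : (ω : ℚ_[p]) ^ t = 1 := by
      rw [← PadicInt.coe_pow, hω, PadicInt.coe_one]
    rw [h3, map_one]
  have hCA : C * A = A ^ g * C := Cm_mul_Am hζ.pow_eq_one hgh hgm
  obtain ⟨⟨ψ, hψa, hψb⟩, hrep⟩ := exists_hom_ext hp (Nat.mul_pos hm ht) hmt a b ha hb hgen hab
    A C hA hCN hCA
  -- the order relations
  have hconj : ∀ n : ℕ, b ^ n * a * (b ^ n)⁻¹ = a ^ (g ^ n) := by
    intro n
    induction n with
    | zero => simp
    | succ n ih =>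
      have h3 : b ^ (n + 1) * a * (b ^ (n + 1))⁻¹ = b ^ n * (b * a * b⁻¹) * (b ^ n)⁻¹ := by
        rw [pow_succ]
        group
      have h4 : ∀ k : ℕ, b ^ n * a ^ k * (b ^ n)⁻¹ = (b ^ n * a * (b ^ n)⁻¹) ^ k := by
        intro k
        rw [conj_pow]
      rw [h3, hab, h4, ih, ← pow_mul, ← pow_succ]
  have hbm : b ^ m * a = a * b ^ m := by
    have h3 := hconj m
    have h4 : a ^ (g ^ m) = a ^ 1 := by
      rw [pow_eq_pow_iff_modEq, ha]
      exact hgm
    rw [h4, pow_one] at h3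
    exact mul_inv_eq_iff_eq_mul.1 h3
  -- the algebra
  obtain ⟨D, hD⟩ := RFam_D (F := ℚ_[p]) ψ
  have hψD : ∀ x, ψ x ∈ D := by
    intro x
    have h3 : ψ x ∈ Subalgebra.toSubmodule D := by
      rw [hD]
      exact Submodule.subset_span ⟨x, rfl⟩
    exact h3
  obtain ⟨n, hn⟩ : ∃ n, p = n + 1 := ⟨p - 1, by omega⟩
  have hn' : p - 1 = n := by omega
  have hpsi : ∀ j k : ℕ, ψ (b ^ j * a ^ k) = C ^ j * A ^ k := by
    intro j k
    rw [map_mul, map_pow, map_pow, hψa, hψb]
  have hspanS : ∀ y ∈ D, y ∈ Submodule.span ℚ_[p]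
      (Set.range fun ik : Fin m × Fin n => C ^ (ik.1 : ℕ) * A ^ (ik.2 : ℕ)) := by
    intro y hy
    have h3 : y ∈ Subalgebra.toSubmodule D := hy
    rw [hD] at h3
    refine (Submodule.span_le.2 ?_) h3
    rintro _ ⟨x, rfl⟩
    obtain ⟨j, k, _, _, rfl⟩ := hrep x
    rw [hpsi]
    apply RFam_span hm (ω : ℚ_[p]) A C hCm
    · rw [← hn]; exact hA
    · rw [← hn]; exact hAsum
  have hdet : ∀ c : Fin m × Fin n → ℚ_[p], c ≠ 0 →
      (∑ ik, c ik • (C ^ (ik.1 : ℕ) * A ^ (ik.2 : ℕ))).det ≠ 0 := by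
    intro c hc
    have h3 := det_ne_zero p hm ω hirr hζ hh (fun i k => c (i, Fin.cast hn' k)) (by
      intro h4
      apply hc
      funext ik
      have h5 := congrFun (congrFun h4 ik.1) (Fin.cast hn'.symm ik.2)
      exact h5)
    have h4 : (∑ ik, c ik • (C ^ (ik.1 : ℕ) * A ^ (ik.2 : ℕ))) =
        ∑ i, ∑ k : Fin (p - 1), c (i, Fin.cast hn' k) • (C ^ (i : ℕ) * A ^ (k : ℕ)) := by
      rw [Fintype.sum_prod_type]
      apply Finset.sum_congr rfl
      intro i _
      exact (Fintype.sum_equiv (finCongr hn') _ _ (fun k => rfl)).symm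
    rw [h4]
    exact h3
  have hli : LinearIndependent ℚ_[p]
      (fun ik : Fin m × Fin n => C ^ (ik.1 : ℕ) * A ^ (ik.2 : ℕ)) := by
    rw [Fintype.linearIndependent_iff]
    intro c hc
    by_contra hcon
    push Not at hcon
    obtain ⟨i, hi⟩ := hcon
    have h3 : c ≠ 0 := by
      intro h4
      rw [h4] at hi
      exact hi rfl
    have h4 := hdet c h3
    rw [hc] at h4
    have : Nonempty (Fin m) := ⟨⟨0, hm⟩⟩
    exact h4 (Matrix.det_zero)
  have hDdet : ∀ y ∈ D, y ≠ 0 → y.det ≠ 0 := by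
    intro y hy hy0
    obtain ⟨c, hc⟩ := (Submodule.mem_span_range_iff_exists_fun _).1 (hspanS y hy)
    rw [← hc]
    apply hdet
    intro h3
    apply hy0
    rw [← hc, h3]
    simp
  have : Nonempty (Fin m) := ⟨⟨0, hm⟩⟩
  have : Nontrivial D := inferInstance
  have hnzd : NoZeroDivisors D := by
    constructor
    intro x y hxy
    by_contra hcon
    push Not at hcon
    have h3 : (x : Matrix (Fin m) (Fin m) (PadicAlgCl p)) ≠ 0 := fun h => hcon.1 (Subtype.ext h)
    have h4 : (y : Matrix (Fin m) (Fin m) (PadicAlgCl p)) ≠ 0 := fun h => hcon.2 (Subtype.ext h)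
    have h5 : (x : Matrix (Fin m) (Fin m) (PadicAlgCl p)) * y = 0 := congrArg Subtype.val hxy
    have h6 := congrArg Matrix.det h5
    rw [Matrix.det_mul, Matrix.det_zero, mul_eq_zero] at h6
    rcases h6 with h6 | h6
    · exact hDdet _ x.2 h3 h6
    · exact hDdet _ y.2 h4 h6
  have hfd : FiniteDimensional ℚ_[p] D := by
    have h3 : (Subalgebra.toSubmodule D).FG := by
      rw [hD]
      exact Submodule.fg_span (Set.finite_range ψ)
    exact Module.Finite.iff_fg.2 h3
  let ψ' : (K ≃ₐ[ℚ] K) →* D := ψ.codRestrict D hψD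
  have hψ' : ∀ x, ((ψ' x : D) : Matrix (Fin m) (Fin m) (PadicAlgCl p)) = ψ x := fun x => rfl
  have hspan : Submodule.span ℚ_[p] (Set.range ψ') = ⊤ := by
    rw [eq_top_iff]
    rintro ⟨y, hy⟩ _
    have h3 : y ∈ Submodule.span ℚ_[p] (Set.range ψ) := by
      rw [← hD]
      exact hy
    have h4 : ∀ (z : Matrix (Fin m) (Fin m) (PadicAlgCl p))
        (hz : z ∈ Submodule.span ℚ_[p] (Set.range ψ)) (hz' : z ∈ D),
        (⟨z, hz'⟩ : D) ∈ Submodule.span ℚ_[p] (Set.range ψ') := by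
      intro z hz
      induction hz using Submodule.span_induction with
      | mem z hz =>
        intro hz'
        obtain ⟨x, rfl⟩ := hz
        exact Submodule.subset_span ⟨x, rfl⟩
      | zero =>
        intro hz'
        exact Submodule.zero_mem _
      | add x y hx hy ihx ihy =>
        intro hz'
        have hx' : x ∈ D := by
          have : x ∈ Subalgebra.toSubmodule D := by rw [hD]; exact hx
          exact this
        have hy' : y ∈ D := by
          have : y ∈ Subalgebra.toSubmodule D := by rw [hD]; exact hy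
          exact this
        exact Submodule.add_mem _ (ihx hx') (ihy hy')
      | smul r x hx ihx =>
        intro hz'
        have hx' : x ∈ D := by
          have : x ∈ Subalgebra.toSubmodule D := by rw [hD]; exact hx
          exact this
        exact Submodule.smul_mem _ r (ihx hx')
    exact h4 y h3 hy
  -- the embeddings
  obtain ⟨σ₀⟩ : Nonempty (Emb p K) := by
    have h3 : 0 < Fintype.card (K →+* PadicAlgCl p) := by
      rw [NumberField.Embeddings.card K (PadicAlgCl p)]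
      exact Module.finrank_pos
    exact Fintype.card_pos_iff.1 h3
  have hcomp : ∀ x y : K ≃ₐ[ℚ] K, (σ₀.comp (x : K →+* K)).comp (y : K →+* K) =
      σ₀.comp ((x * y : K ≃ₐ[ℚ] K) : K →+* K) := fun x y => rfl
  -- the functional
  obtain ⟨ℓ, hℓ⟩ := RFam_functional _ hli
    (fun ik => f (σ₀.comp ((b ^ (ik.1 : ℕ) * a ^ (ik.2 : ℕ) : K ≃ₐ[ℚ] K) : K →+* K)))
  have hagree : ∀ x : K ≃ₐ[ℚ] K, f (σ₀.comp (x : K →+* K)) = ℓ (ψ x) := by
    apply RFam_agree (n := n) (N := m * t) hm a b hbm (fun x => by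
      obtain ⟨j, k, h3, h4, h5⟩ := hrep x
      exact ⟨j, k, h3, by omega, h5⟩) (ω : ℚ_[p])
      (fun x : K ≃ₐ[ℚ] K => f (σ₀.comp (x : K →+* K))) (fun x => ℓ (ψ x))
    · intro x
      exact h1 (σ₀.comp (x : K →+* K))
    · intro x
      show ℓ (ψ (x * b ^ m)) = (ω : ℚ_[p]) * ℓ (ψ x)
      rw [map_mul, map_pow, hψb, hCm, ← Algebra.commutes, ← Algebra.smul_def, map_smul, smul_eq_mul]
    · intro x
      have h3 := h2 (σ₀.comp (x : K →+* K))
      rw [← hn]
      exact h3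
    · intro x
      have h3 : ∀ k ∈ Finset.range (n + 1), ℓ (ψ (x * a ^ k)) = ℓ (ψ x * A ^ k) := by
        intro k _
        rw [map_mul, map_pow, hψa]
      rw [Finset.sum_congr rfl h3, ← map_sum, ← Finset.mul_sum, ← hn, hAsum, mul_zero, map_zero]
    · intro i k hi hk
      show f (σ₀.comp ((b ^ i * a ^ k : K ≃ₐ[ℚ] K) : K →+* K)) = ℓ (ψ (b ^ i * a ^ k))
      rw [hpsi]
      exact (hℓ (⟨i, hi⟩, ⟨k, hk⟩)).symm
  -- complex conjugation
  have hcc2 : ccAut K * ccAut K = 1 := by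
    ext x
    exact IsCMField.complexConj_apply_apply K x
  have hψc : ψ' (ccAut K) = 1 ∨ ψ' (ccAut K) = -1 := by
    have h3 : ψ' (ccAut K) * ψ' (ccAut K) = 1 := by
      rw [← map_mul, hcc2, map_one]
    have h4 : (ψ' (ccAut K) - 1) * (ψ' (ccAut K) + 1) = 0 := by
      exact RFam_sq _ h3
    rcases mul_eq_zero.1 h4 with h5 | h5
    · left; exact sub_eq_zero.1 h5
    · right; exact eq_neg_of_add_eq_zero_left h5
  rcases hψc with hc | hc
  · have h3 : f = 0 := by
      funext τ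
      obtain ⟨x, rfl⟩ := RFam_emb p K σ₀ τ
      have h4 := hf.2 (σ₀.comp (x : K →+* K))
      have h5 : (σ₀.comp (x : K →+* K)).comp (cc K) =
          σ₀.comp ((x * ccAut K : K ≃ₐ[ℚ] K) : K →+* K) := rfl
      rw [h5, hagree, hagree, map_mul] at h4
      have h6 : ψ (ccAut K) = 1 := congrArg Subtype.val hc
      rw [h6, mul_one] at h4
      rw [hagree]
      have h7 : (2 : ℚ_[p]) * ℓ (ψ x) = 0 := by linear_combination h4
      simpa using h7
    rw [h3]
    exact Submodule.zero_mem _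
  · obtain ⟨f', hf', hf'2⟩ := split_division p K hL hsplit ψ' hspan hc σ₀
      (ℓ ∘ₗ (Subalgebra.toSubmodule D).subtype)
    have h3 : f' = f := by
      funext τ
      obtain ⟨x, rfl⟩ := RFam_emb p K σ₀ τ
      rw [hf'2 x, hagree]
      rfl
    rw [← h3]
    exact hf'

end GR95
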