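import Pool.Agent.LibGR95.RRegEq
import Pool.Agent.LibGR95.RFam

/-! The part of `Y⁻` of the family `C_p ⋊ C_(m t)`. -/

namespace GR95

open NumberField Bru95

variable (p : ℕ) [Fact p.Prime] (K : Type*) [Field K] [NumberField K] [IsCMField K]

/-- The vectors `v ∈ Y⁻` with `b^m v = ω v` and `∑_{k<p} a^k v = 0`, for automorphisms `a, b` of `K`. -/
noncomputable def famPart (a b : K ≃ₐ[ℚ] K) (m : ℕ) (ω : ℤ_[p]) : Submodule ℚ_[p] (Ym p K) where
  carrier := {v | (∀ σ : Emb p K, (v : Emb p K → ℚ_[p]) (σ.comp ((b ^ m : K ≃ₐ[ℚ] K) : K →+* K)) =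
      (ω : ℚ_[p]) * (v : Emb p K → ℚ_[p]) σ) ∧
    ∀ σ : Emb p K, ∑ k ∈ Finset.range p,
      (v : Emb p K → ℚ_[p]) (σ.comp ((a ^ k : K ≃ₐ[ℚ] K) : K →+* K)) = 0}
  add_mem' := by
    rintro v w ⟨hv, hv'⟩ ⟨hw, hw'⟩
    refine ⟨fun σ => ?_, fun σ => ?_⟩
    · simp only [Submodule.coe_add, Pi.add_apply, hv, hw]; ring
    · simp only [Submodule.coe_add, Pi.add_apply, Finset.sum_add_distrib, hv', hw', add_zero]
  zero_mem' := by simp
  smul_mem' := by
    rintro c v ⟨hv, hv'⟩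
    refine ⟨fun σ => ?_, fun σ => ?_⟩
    · simp only [Submodule.coe_smul, Pi.smul_apply, hv, smul_eq_mul]; ring
    · simp only [Submodule.coe_smul, Pi.smul_apply, smul_eq_mul, ← Finset.mul_sum, hv', mul_zero]

end GR95
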