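import Pool.Agent.LibGR95.RFamDef

/-! Row G34. The regulator map is bijective on the part of the family. `family` gives `famPart ≤ LogImage ≤ range Λ`
(`logImage_le_range`). `Λ` commutes with `rep ⊤` (`regulator_comm` with `G = ⊤`). The operator
`ε = (1/t) ∑_{i<t} ω^((t-1) i) b^(m i) ∘ (1 - (1/p) ∑_{k<p} a^k)` on `Y⁻` (acting by `rep`) commutes with `Λ`, has image in `famPart`
(`b^(m t) = 1`, `ω^t = 1`, `b^m` commutes with `a` because `g^m ≡ 1 mod p`) and is the identity on `famPart`. So `v = Λ x` gives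
`v = ε v = Λ (ε x)`; and `Λ famPart ≤ famPart` as `Λ` commutes with the action. -/

namespace GR95

open NumberField Bru95

private theorem RFamReg_abs {k V : Type*} [Field k] [CharZero k] [AddCommGroup V] [Module k V]
    (A B Λ : Module.End k V) {p t : ℕ} (hp : 0 < p) (ht : 0 < t) (w : k) (hw : w ^ t = 1)
    (hA : A ^ p = 1) (hB : B ^ t = 1) (hAB : Commute A B) (hΛA : Commute Λ A)
    (hΛB : Commute Λ B) (W : Submodule k V)
    (hW : ∀ v, v ∈ W ↔ B v = w • v ∧ (∑ i ∈ Finset.range p, A ^ i) v = 0)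
    (hr : ∀ v ∈ W, ∃ x, Λ x = v) : W.map Λ = W := by
  obtain ⟨D, hD⟩ : ∃ D : Module.End k V, D = w ^ (t - 1) • B := ⟨_, rfl⟩
  obtain ⟨N, hN⟩ : ∃ N : Module.End k V, N = ∑ i ∈ Finset.range p, A ^ i := ⟨_, rfl⟩
  obtain ⟨P, hP⟩ : ∃ P : Module.End k V, P = ∑ i ∈ Finset.range t, D ^ i := ⟨_, rfl⟩
  rw [← hN] at hW
  have hwt : w * w ^ (t - 1) = 1 := by
    rw [← pow_succ', Nat.sub_add_cancel ht, hw]
  have hDt : D ^ t = 1 := by
    rw [hD, smul_pow, hB, ← pow_mul, mul_comm, pow_mul, hw, one_pow, one_smul]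
  have hBD : B = w • D := by
    rw [hD, smul_smul, hwt, one_smul]
  have hDP : D * P = P := by
    have h1 : (D - 1) * P = 0 := by
      rw [hP, mul_geom_sum, hDt, sub_self]
    rw [sub_mul, one_mul, sub_eq_zero] at h1
    exact h1
  have hAN : A * N = N := by
    have h1 : (A - 1) * N = 0 := by
      rw [hN, mul_geom_sum, hA, sub_self]
    rw [sub_mul, one_mul, sub_eq_zero] at h1
    exact h1
  have hAiN : ∀ i : ℕ, A ^ i * N = N := by
    intro i
    induction i with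
    | zero => rw [pow_zero, one_mul]
    | succ j ih => rw [pow_succ, mul_assoc, hAN, ih]
  have hNN : N * N = (p : k) • N := by
    have h1 : N * N = ∑ i ∈ Finset.range p, A ^ i * N := by
      rw [← Finset.sum_mul, ← hN]
    rw [h1, Finset.sum_congr rfl (fun i _ => hAiN i), Finset.sum_const, Finset.card_range,
      ← Nat.cast_smul_eq_nsmul k]
  have cAD : Commute A D := by
    rw [hD]
    exact hAB.smul_right _
  have cΛD : Commute Λ D := by
    rw [hD]
    exact hΛB.smul_right _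
  have cΛN : Commute Λ N := by
    rw [hN]
    exact Commute.sum_right _ _ _ (fun i _ => hΛA.pow_right i)
  have cΛP : Commute Λ P := by
    rw [hP]
    exact Commute.sum_right _ _ _ (fun i _ => cΛD.pow_right i)
  have cND : Commute N D := by
    rw [hN]
    exact Commute.sum_left _ _ _ (fun i _ => cAD.pow_left i)
  have cNP : Commute N P := by
    rw [hP]
    exact Commute.sum_right _ _ _ (fun i _ => cND.pow_right i)
  have eΛN : ∀ v, Λ (N v) = N (Λ v) := fun v => LinearMap.congr_fun cΛN v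
  have eΛP : ∀ v, Λ (P v) = P (Λ v) := fun v => LinearMap.congr_fun cΛP v
  have eΛB : ∀ v, Λ (B v) = B (Λ v) := fun v => LinearMap.congr_fun hΛB v
  have eNP : ∀ v, N (P v) = P (N v) := fun v => LinearMap.congr_fun cNP v
  have eDP : ∀ v, D (P v) = P v := fun v => LinearMap.congr_fun hDP v
  have eNN : ∀ v, N (N v) = (p : k) • N v := fun v => LinearMap.congr_fun hNN v
  have hp0 : (p : k) ≠ 0 := by
    exact_mod_cast hp.ne'
  have ht0 : (t : k) ≠ 0 := by
    exact_mod_cast ht.ne'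
  apply le_antisymm
  · rintro _ ⟨v, hv, rfl⟩
    obtain ⟨h1, h2⟩ := (hW v).mp hv
    refine (hW _).mpr ⟨?_, ?_⟩
    · rw [← eΛB, h1, map_smul]
    · rw [← eΛN, h2, map_zero]
  · intro v hv
    obtain ⟨h1, h2⟩ := (hW v).mp hv
    obtain ⟨x, hx⟩ := hr v hv
    have hDv : D v = v := by
      rw [hD, LinearMap.smul_apply, h1, smul_smul, mul_comm, hwt, one_smul]
    have hDiv : ∀ i : ℕ, (D ^ i) v = v := by
      intro i
      induction i with
      | zero => rfl
      | succ j ih => rw [pow_succ, Module.End.mul_apply, hDv, ih]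
    have hPv : P v = (t : k) • v := by
      rw [hP, LinearMap.sum_apply, Finset.sum_congr rfl (fun i _ => hDiv i), Finset.sum_const,
        Finset.card_range, ← Nat.cast_smul_eq_nsmul k]
    refine ⟨(t : k)⁻¹ • P (x - (p : k)⁻¹ • N x), ?_, ?_⟩
    · refine (hW _).mpr ⟨?_, ?_⟩
      · rw [hBD, LinearMap.smul_apply, map_smul, eDP]
      · rw [map_smul, eNP, map_sub, map_smul, eNN, smul_smul, inv_mul_cancel₀ hp0, one_smul,
          sub_self, map_zero, smul_zero]
    · rw [map_smul, eΛP, map_sub, map_smul, eΛN, hx, h2, smul_zero, sub_zero, hPv, smul_smul,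
        inv_mul_cancel₀ ht0, one_smul]

variable (p : ℕ) [Fact p.Prime] (K : Type*) [Field K] [NumberField K] [IsCMField K]

theorem family_regulator {L : ℚ_[p] → ℚ_[p]} (hL : IsPadicLog p L) [IsGalois ℚ K]
    (hsplit : ∀ (σ : Emb p K) (x : K), ∃ y : ℚ_[p], σ x = algebraMap ℚ_[p] (PadicAlgCl p) y)
    {m t g : ℕ} (hm : 0 < m) (ht : 0 < t) (hmt : ¬ p ∣ m * t) (a b : K ≃ₐ[ℚ] K)
    (ha : orderOf a = p) (hb : orderOf b = m * t) (hgen : Subgroup.closure {a, b} = ⊤)
    (hab : b * a * b⁻¹ = a ^ g) (hgm : g ^ m ≡ 1 [MOD p]) (ω : ℤ_[p]) (hω : ω ^ t = 1)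
    (hirr : Irreducible (Polynomial.X ^ m - Polynomial.C (PadicInt.toZMod ω) : Polynomial (ZMod p)))
    (Λ : Ym p K →ₗ[ℚ_[p]] Ym p K) (hΛ : IsRegulatorMap p K L Λ) :
    (famPart p K a b m ω).map Λ = famPart p K a b m ω := by
  have hp : p.Prime := Fact.out
  obtain ⟨a', ha'⟩ : ∃ a' : (⊤ : Subgroup (K ≃ₐ[ℚ] K)), a' = ⟨a, Subgroup.mem_top a⟩ := ⟨_, rfl⟩
  obtain ⟨b', hb'⟩ : ∃ b' : (⊤ : Subgroup (K ≃ₐ[ℚ] K)), b' = ⟨b, Subgroup.mem_top b⟩ := ⟨_, rfl⟩
  have hac : (a' : K ≃ₐ[ℚ] K) = a := by rw [ha']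
  have hbc : (b' : K ≃ₐ[ℚ] K) = b := by rw [hb']
  have hap : a ^ p = 1 := by rw [← ha]; exact pow_orderOf_eq_one a
  have hbm : b ^ (m * t) = 1 := by rw [← hb]; exact pow_orderOf_eq_one b
  have ha'p : a' ^ p = 1 := by
    apply Subtype.ext
    rw [Subgroup.coe_pow, hac, hap, Subgroup.coe_one]
  have hb'm : (b' ^ m) ^ t = 1 := by
    rw [← pow_mul]
    apply Subtype.ext
    rw [Subgroup.coe_pow, hbc, hbm, Subgroup.coe_one]
  have hconj : ∀ i : ℕ, b ^ i * a * (b ^ i)⁻¹ = a ^ (g ^ i) := by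
    intro i
    induction i with
    | zero => simp
    | succ j ih =>
      have e1 : b ^ (j + 1) * a * (b ^ (j + 1))⁻¹ = b * (b ^ j * a * (b ^ j)⁻¹) * b⁻¹ := by
        rw [pow_succ']
        group
      rw [e1, ih, ← conj_pow, hab, ← pow_mul, pow_succ, mul_comm]
  have hcomm : Commute a (b ^ m) := by
    have e1 := hconj m
    have e2 : a ^ (g ^ m) = a := by
      have e3 : a ^ (g ^ m) = a ^ 1 := pow_eq_pow_iff_modEq.mpr (by rw [ha]; exact hgm)
      rw [e3, pow_one]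
    rw [e2] at e1
    have e4 : b ^ m * a = a * b ^ m := by
      rw [mul_inv_eq_iff_eq_mul] at e1
      exact e1
    exact e4.symm
  have hcomm' : Commute a' (b' ^ m) := by
    apply Subtype.ext
    rw [Subgroup.coe_mul, Subgroup.coe_mul, Subgroup.coe_pow, hac, hbc]
    exact hcomm
  have hwt : (ω : ℚ_[p]) ^ t = 1 := by
    rw [← PadicInt.coe_pow, hω, PadicInt.coe_one]
  refine RFamReg_abs (rep p K ⊤ a') (rep p K ⊤ (b' ^ m)) Λ hp.pos ht (ω : ℚ_[p]) hwt ?_ ?_ ?_ ?_ ?_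
    (famPart p K a b m ω) ?_ ?_
  · rw [← map_pow, ha'p, map_one]
  · rw [← map_pow, hb'm, map_one]
  · exact hcomm'.map (rep p K ⊤)
  · exact regulator_comm p K hΛ ⊤ a'
  · exact regulator_comm p K hΛ ⊤ (b' ^ m)
  · intro v
    have key1 : (rep p K ⊤ (b' ^ m) v = (ω : ℚ_[p]) • v) ↔
        ∀ σ : Emb p K, (v : Emb p K → ℚ_[p]) (σ.comp ((b ^ m : K ≃ₐ[ℚ] K) : K →+* K)) =
          (ω : ℚ_[p]) * (v : Emb p K → ℚ_[p]) σ := by
      constructor
      · intro h σ
        have h1 := congrFun (congrArg (fun x : Ym p K => (x : Emb p K → ℚ_[p])) h) σ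
        have h2 := rep_apply p K ⊤ (b' ^ m) v σ
        rw [Subgroup.coe_pow, hbc] at h2
        rw [← h2]
        exact h1
      · intro h
        apply Subtype.ext
        funext σ
        have h2 := rep_apply p K ⊤ (b' ^ m) v σ
        rw [Subgroup.coe_pow, hbc] at h2
        rw [h2]
        exact h σ
    have key2 : ∀ σ : Emb p K, ((((∑ i ∈ Finset.range p, (rep p K ⊤ a') ^ i) v : Ym p K) :
        Emb p K → ℚ_[p]) σ) = ∑ i ∈ Finset.range p,
          (v : Emb p K → ℚ_[p]) (σ.comp ((a ^ i : K ≃ₐ[ℚ] K) : K →+* K)) := by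
      intro σ
      rw [LinearMap.sum_apply, Submodule.coe_sum, Finset.sum_apply]
      refine Finset.sum_congr rfl (fun i _ => ?_)
      rw [← map_pow]
      have h2 := rep_apply p K ⊤ (a' ^ i) v σ
      rw [Subgroup.coe_pow, hac] at h2
      exact h2
    rw [key1]
    constructor
    · rintro ⟨h1, h2⟩
      refine ⟨h1, ?_⟩
      apply Subtype.ext
      funext σ
      rw [key2 σ]
      exact h2 σ
    · rintro ⟨h1, h2⟩
      refine ⟨h1, fun σ => ?_⟩
      rw [← key2 σ, h2]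
      rfl
  · intro v hv
    have h1 := family p K hL hsplit hm ht hmt a b ha hb hgen hab hgm ω hω hirr
      (v : Emb p K → ℚ_[p]) v.2 hv.1 hv.2
    obtain ⟨w, ⟨x, hx⟩, hw⟩ := logImage_le_range p K hΛ h1
    exact ⟨x, by rw [hx]; exact Subtype.ext hw⟩

end GR95
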