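import Pool.Agent.LibGR95.RNorm2
import Pool.Agent.LibGR95.RCC

/-! Row G16. The representation of `G` on `Y⁻` and the stability of the log image. -/

namespace GR95

open NumberField Bru95

variable (p : ℕ) [Fact p.Prime] (K : Type*) [Field K] [NumberField K] [IsCMField K]

theorem act_mem_Ym (g : K ≃ₐ[ℚ] K) {f : Emb p K → ℚ_[p]} (hf : f ∈ Ym p K) :
    act p K ℚ_[p] (g : K →+* K) f ∈ Ym p K := by
  refine ⟨fun σ τ h => ?_, fun σ => ?_⟩
  · exact hf.1 _ _ (samePlace_comp p K (g : K →+* K) h)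
  · have h1 : (σ.comp (cc K)).comp (g : K →+* K) = (σ.comp (g : K →+* K)).comp (cc K) := by
      rw [RingHom.comp_assoc, cc_comm K g, ← RingHom.comp_assoc]
    have h2 := hf.2 (σ.comp (g : K →+* K))
    rw [← h1] at h2
    exact h2

/-- The representation of a group `G` of automorphisms of `K` on `Y⁻`. -/
noncomputable def rep (G : Subgroup (K ≃ₐ[ℚ] K)) : G →* (Ym p K →ₗ[ℚ_[p]] Ym p K) where
  toFun g := (act p K ℚ_[p] ((g : K ≃ₐ[ℚ] K) : K →+* K)).restrict
    (fun _ hf => act_mem_Ym p K (g : K ≃ₐ[ℚ] K) hf)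
  map_one' := by
    ext f σ
    rfl
  map_mul' := by
    intro g h
    ext f σ
    rfl

theorem rep_apply (G : Subgroup (K ≃ₐ[ℚ] K)) (g : G) (f : Ym p K) (σ : Emb p K) :
    (rep p K G g f : Emb p K → ℚ_[p]) σ = (f : Emb p K → ℚ_[p]) (σ.comp ((g : K ≃ₐ[ℚ] K) : K →+* K)) :=
  rfl

private theorem RRep_log_inv {L : ℚ_[p] → ℚ_[p]} (hL : IsPadicLog p L) {x : ℚ_[p]} (hx : x ≠ 0) :
    L x⁻¹ = - L x := by
  have h1 := hL.map_mul 1 1 one_ne_zero one_ne_zero
  rw [mul_one] at h1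
  have h2 := hL.map_mul x x⁻¹ hx (inv_ne_zero hx)
  rw [mul_inv_cancel₀ hx] at h2
  linear_combination -h1 - h2

/-- the log vectors are in `Y⁻`: `locNorm_samePlace`, `locNorm_comp` (`cc` bijective), `L (x⁻¹) = - L x` -/
theorem logImage_le_Ym {L : ℚ_[p] → ℚ_[p]} (hL : IsPadicLog p L) : LogImage p K L ≤ Ym p K := by
  unfold LogImage
  rw [Submodule.span_le]
  rintro f ⟨u, hu, huc, rfl⟩
  refine ⟨fun σ τ h => ?_, fun σ => ?_⟩
  · show L (locNorm p K σ u) = L (locNorm p K τ u)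
    rw [locNorm_samePlace p K h]
  · show L (locNorm p K (σ.comp (cc K)) u) = - L (locNorm p K σ u)
    have h1 : cc K u = u⁻¹ := eq_inv_of_mul_eq_one_right huc
    rw [locNorm_comp p K σ (cc K) (cc_bijective K), h1, locNorm_inv p K σ hu.1,
      RRep_log_inv p hL (locNorm_ne_zero p K σ hu.1)]

private theorem RRep_punit (g : K ≃ₐ[ℚ] K) {u : K} (hu : IsPUnit p K u) : IsPUnit p K (g u) := by
  obtain ⟨hu0, n, h1, h2⟩ := hu
  refine ⟨(map_ne_zero g).2 hu0, n, ?_, ?_⟩
  · have h3 := map_isIntegral_int (g : K →+* K) h1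
    rw [map_mul, map_pow, map_natCast] at h3
    exact h3
  · have h3 := map_isIntegral_int (g : K →+* K) h2
    rw [map_mul, map_pow, map_natCast, map_inv₀] at h3
    exact h3

private theorem RRep_anti (g : K ≃ₐ[ℚ] K) {u : K} (huc : u * cc K u = 1) : g u * cc K (g u) = 1 := by
  have h1 : (cc K) ((g : K →+* K) u) = (g : K →+* K) (cc K u) := by
    have h0 := RingHom.congr_fun (cc_comm K g) u
    exact h0
  have h2 : cc K (g u) = g (cc K u) := h1
  rw [h2, ← map_mul, huc, map_one]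

private theorem RRep_act {L : ℚ_[p] → ℚ_[p]} (g : K ≃ₐ[ℚ] K) (u : K) :
    act p K ℚ_[p] (g : K →+* K) (fun σ => L (locNorm p K σ u)) =
      fun σ => L (locNorm p K σ (g u)) := by
  funext σ
  have h1 : act p K ℚ_[p] (g : K →+* K) (fun σ => L (locNorm p K σ u)) σ =
      L (locNorm p K (σ.comp (g : K →+* K)) u) := by
    unfold act
    rw [LinearMap.funLeft_apply]
  have h2 : (g : K →+* K) u = g u := rfl
  rw [h1, locNorm_comp p K σ (g : K →+* K) g.bijective, h2]

/-- `g · L(N u) = L (N (g u))` (`locNorm_comp`) and `g u` is again a minus `p`-unit (`cc_comm`) -/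
theorem act_mem_logImage {L : ℚ_[p] → ℚ_[p]} (g : K ≃ₐ[ℚ] K) {f : Emb p K → ℚ_[p]}
    (hf : f ∈ LogImage p K L) : act p K ℚ_[p] (g : K →+* K) f ∈ LogImage p K L := by
  unfold LogImage at hf
  induction hf using Submodule.span_induction with
  | mem f hf =>
    obtain ⟨u, hu, huc, rfl⟩ := hf
    rw [RRep_act p K g u]
    unfold LogImage
    exact Submodule.subset_span ⟨g u, RRep_punit p K g hu, RRep_anti K g huc, rfl⟩
  | zero =>
    rw [map_zero]
    exact zero_mem _
  | add f g' _ _ hf hg =>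
    rw [map_add]
    exact add_mem hf hg
  | smul c f _ hf =>
    rw [map_smul]
    exact Submodule.smul_mem _ c hf

end GR95
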