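import Pool.Agent.LibGR95.RSpan
import Pool.Agent.LibGR95.RRep
import Pool.Agent.LibBru95.RLogZero

/-! Row G32. Gross's regulator map exists. If `u` is a minus `p`-unit with all valuations zero (`valVec u = 0`), then `‖τ u‖ = 1` for all
`τ : Emb p K` (`norm_locNorm`), so `u` and `u⁻¹` are integral (`u` is a `p`-unit: `p^n u` integral and all `‖τ u‖ ≤ 1`; `exists_integral_of_norm_le_one`
gives `N u` integral with `p ∤ N`, and `gcd(N, p^n) = 1`), and all complex absolute values are 1 (`conj_cc`), so `u` is a root of unity (Kronecker: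
`NumberField.Embeddings.pow_eq_one_of_norm_eq_one`), so `L (N_τ u) = 0` (`logVec u = 0`). More generally for minus `p`-units `u_j` and `c_j ∈ ℚ_[p]`,
`∑ c_j valVec u_j = 0` implies `∑ c_j logVec u_j = 0`: the `valVec` are integral vectors, so the `ℚ_[p]`-relations between finitely many of them are spanned
by the integral relations `n`, and for those `∏ u_j^(n_j)` is a minus `p`-unit with `valVec = 0` (`valVec`, `logVec` are additive:
`locNorm_mul`, `locNorm_inv`). So choose a basis of `Y⁻` among the `valVec` (`Ym_le_span`) and define `Λ` on it. -/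

namespace GR95

open NumberField Bru95

variable (p : ℕ) [Fact p.Prime] (K : Type*) [Field K] [NumberField K]

/-- The vector of valuations `(v_p(N_{K_σ/ℚ_p}(u)))_σ`. -/
noncomputable def valVec (u : K) : Emb p K → ℚ_[p] :=
  fun σ => ((locNorm p K σ u).valuation : ℚ_[p])

/-- The vector of logarithms `(L(N_{K_σ/ℚ_p}(u)))_σ`. -/
noncomputable def logVec (L : ℚ_[p] → ℚ_[p]) (u : K) : Emb p K → ℚ_[p] :=
  fun σ => L (locNorm p K σ u)

variable [IsCMField K]

/-- `Λ` is Gross's regulator map on `Y⁻`: it maps the valuation vector of every minus `p`-unit to its vector of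
logarithms. -/
def IsRegulatorMap (L : ℚ_[p] → ℚ_[p]) (Λ : Ym p K →ₗ[ℚ_[p]] Ym p K) : Prop :=
  ∀ u : K, IsPUnit p K u → u * cc K u = 1 → ∀ v : Ym p K,
    (v : Emb p K → ℚ_[p]) = valVec p K u → (Λ v : Emb p K → ℚ_[p]) = logVec p K L u

private theorem RReg_cc {u : K} (h : u * cc K u = 1) : cc K u = u⁻¹ :=
  (inv_eq_of_mul_eq_one_right h).symm

theorem valVec_mem_Ym {u : K} (h : u * cc K u = 1) : valVec p K u ∈ Ym p K := by
  refine ⟨fun σ τ hστ => ?_, fun σ => ?_⟩
  · change ((locNorm p K σ u).valuation : ℚ_[p]) = ((locNorm p K τ u).valuation : ℚ_[p])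
    rw [locNorm_samePlace p K hστ]
  · have hu0 : u ≠ 0 := left_ne_zero_of_mul (by rw [h]; exact one_ne_zero)
    change ((locNorm p K (σ.comp (cc K)) u).valuation : ℚ_[p]) = -((locNorm p K σ u).valuation : ℚ_[p])
    rw [locNorm_comp p K σ (cc K) (cc_bijective K), RReg_cc K h, locNorm_inv p K σ hu0, Padic.valuation_inv]
    push_cast
    rfl

/-- Kronecker: a minus `p`-unit with all valuations zero is a root of unity -/
private theorem RReg_kron {L : ℚ_[p] → ℚ_[p]} (hL : IsPadicLog p L) {u : K} (hu : IsPUnit p K u)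
    (h1 : u * cc K u = 1) (hv : valVec p K u = 0) : logVec p K L u = 0 := by
  have hu0 : u ≠ 0 := hu.1
  have hnorm : ∀ σ : Emb p K, ‖σ u‖ = 1 := by
    intro σ
    have h2 : (locNorm p K σ u).valuation = 0 := by
      have h3 := congrFun hv σ
      change ((locNorm p K σ u).valuation : ℚ_[p]) = 0 at h3
      exact_mod_cast h3
    have h3 : ‖locNorm p K σ u‖ = 1 := by
      rw [Padic.norm_eq_zpow_neg_valuation (locNorm_ne_zero p K σ hu0), h2, neg_zero, zpow_zero]
    obtain ⟨e, he, h⟩ := norm_locNorm p K σ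
    rw [h] at h3
    exact (pow_eq_one_iff_of_nonneg (norm_nonneg _) (by omega)).1 h3
  have hint : IsIntegral ℤ u := by
    obtain ⟨N, hN, hpN, hNi⟩ := exists_integral_of_norm_le_one p K u (fun ρ => (hnorm ρ).le)
    obtain ⟨n, hn1, hn2⟩ := hu.2
    have hcop : IsCoprime (N : ℤ) ((p : ℤ) ^ n) := by
      refine IsCoprime.pow_right ?_
      rw [Nat.isCoprime_iff_coprime]
      exact ((Nat.Prime.coprime_iff_not_dvd (Fact.out : p.Prime)).2 hpN).symm
    obtain ⟨a, b, hab⟩ := hcop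
    have h2 : u = (algebraMap ℤ K a) * ((N : K) * u) + (algebraMap ℤ K b) * ((p : K) ^ n * u) := by
      have h3 := congrArg (fun t : ℤ => (t : K)) hab
      push_cast at h3
      rw [eq_intCast, eq_intCast]
      linear_combination (-u) * h3
    rw [h2]
    exact (isIntegral_algebraMap.mul hNi).add (isIntegral_algebraMap.mul hn1)
  have habs : ∀ θ : K →+* ℂ, ‖θ u‖ = 1 := by
    intro θ
    have h2 : θ u * starRingEnd ℂ (θ u) = 1 := by rw [← conj_cc, ← map_mul, h1, map_one]
    rw [Complex.mul_conj] at h2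
    have h3 : Complex.normSq (θ u) = 1 := by exact_mod_cast h2
    rw [Complex.normSq_eq_norm_sq] at h3
    exact (pow_eq_one_iff_of_nonneg (norm_nonneg _) (by norm_num)).1 h3
  obtain ⟨n, hn, hun⟩ := Embeddings.pow_eq_one_of_norm_eq_one K ℂ hint habs
  funext σ
  change L (locNorm p K σ u) = 0
  have hpow : ∀ e : ℕ, locNorm p K σ (u ^ e) = locNorm p K σ u ^ e := by
    intro e
    induction e with
    | zero => rw [pow_zero, pow_zero, locNorm_one]
    | succ e ih => rw [pow_succ, pow_succ, locNorm_mul, ih]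
  have h3 : locNorm p K σ u ^ (n : ℤ) = 1 := by
    rw [zpow_natCast, ← hpow, hun, locNorm_one]
  have h4 := hL.map_zpow (locNorm_ne_zero p K σ hu0) (n : ℤ)
  rw [h3, hL.map_one] at h4
  have h5 : ((n : ℤ) : ℚ_[p]) ≠ 0 := by exact_mod_cast hn.ne'
  exact (mul_eq_zero.1 h4.symm).resolve_left h5

/-- the valuation vector as a homomorphism -/
private noncomputable def RReg_val : Additive Kˣ →+ (Emb p K → ℚ_[p]) :=
  AddMonoidHom.mk' (fun u => valVec p K ((Additive.toMul u : Kˣ) : K)) (by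
    intro u v
    funext σ
    change ((locNorm p K σ (((Additive.toMul (u + v)) : Kˣ) : K)).valuation : ℚ_[p]) =
      ((locNorm p K σ ((Additive.toMul u : Kˣ) : K)).valuation : ℚ_[p]) +
      ((locNorm p K σ ((Additive.toMul v : Kˣ) : K)).valuation : ℚ_[p])
    rw [toMul_add, Units.val_mul, locNorm_mul, Padic.valuation_mul (locNorm_ne_zero p K σ (Units.ne_zero _))
      (locNorm_ne_zero p K σ (Units.ne_zero _))]
    push_cast
    rfl)

/-- the vector of logarithms as a homomorphism -/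
private noncomputable def RReg_log {L : ℚ_[p] → ℚ_[p]} (hL : IsPadicLog p L) : Additive Kˣ →+ (Emb p K → ℚ_[p]) :=
  AddMonoidHom.mk' (fun u => logVec p K L ((Additive.toMul u : Kˣ) : K)) (by
    intro u v
    funext σ
    change L (locNorm p K σ (((Additive.toMul (u + v)) : Kˣ) : K)) =
      L (locNorm p K σ ((Additive.toMul u : Kˣ) : K)) + L (locNorm p K σ ((Additive.toMul v : Kˣ) : K))
    rw [toMul_add, Units.val_mul, locNorm_mul, hL.map_mul _ _ (locNorm_ne_zero p K σ (Units.ne_zero _))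
      (locNorm_ne_zero p K σ (Units.ne_zero _))])

private theorem RReg_one : IsPUnit p K 1 := by
  refine ⟨one_ne_zero, 0, ?_, ?_⟩
  · rw [pow_zero, one_mul]
    exact isIntegral_one
  · rw [pow_zero, one_mul, inv_one]
    exact isIntegral_one

/-- the group of the minus `p`-units -/
private noncomputable def RReg_MS : AddSubgroup (Additive Kˣ) where
  carrier := {u | IsPUnit p K ((Additive.toMul u : Kˣ) : K) ∧
    ((Additive.toMul u : Kˣ) : K) * cc K ((Additive.toMul u : Kˣ) : K) = 1}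
  zero_mem' := by
    refine ⟨RReg_one p K, ?_⟩
    change (1 : K) * cc K 1 = 1
    rw [map_one, one_mul]
  add_mem' := by
    rintro u v ⟨hu, hu'⟩ ⟨hv, hv'⟩
    refine ⟨?_, ?_⟩
    · have h1 := isPUnit_div K p hu (isPUnit_div K p (RReg_one p K) hv)
      rw [one_div, div_inv_eq_mul] at h1
      exact h1
    · change ((Additive.toMul u : Kˣ) : K) * ((Additive.toMul v : Kˣ) : K) *
        cc K (((Additive.toMul u : Kˣ) : K) * ((Additive.toMul v : Kˣ) : K)) = 1
      rw [map_mul]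
      linear_combination (((Additive.toMul v : Kˣ) : K) * cc K ((Additive.toMul v : Kˣ) : K)) * hu' + hv'
  neg_mem' := by
    rintro u ⟨hu, hu'⟩
    refine ⟨?_, ?_⟩
    · have h1 := isPUnit_div K p (RReg_one p K) hu
      rw [one_div] at h1
      have h2 : ((Additive.toMul (-u) : Kˣ) : K) = ((Additive.toMul u : Kˣ) : K)⁻¹ := by
        rw [toMul_neg, Units.val_inv_eq_inv_val]
      rw [h2]
      exact h1
    · have h2 : ((Additive.toMul (-u) : Kˣ) : K) = ((Additive.toMul u : Kˣ) : K)⁻¹ := by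
        rw [toMul_neg, Units.val_inv_eq_inv_val]
      rw [h2, map_inv₀, ← mul_inv, hu', inv_one]

/-- a `ℚ`-linear functional with `π 1 = 1` -/
private theorem RReg_pi : ∃ π : ℚ_[p] →ₗ[ℚ] ℚ, ∀ q : ℚ, π (q : ℚ_[p]) = q := by
  obtain ⟨π, hπ⟩ := LinearMap.exists_leftInverse_of_injective (Algebra.linearMap ℚ ℚ_[p]) (by
    rw [LinearMap.ker_eq_bot]
    exact (algebraMap ℚ ℚ_[p]).injective)
  refine ⟨π, fun q => ?_⟩
  have h1 := LinearMap.congr_fun hπ q
  simpa using h1

/-- a relation between valuation vectors can be taken rational -/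
private theorem RReg_rat {κ : Type*} [Fintype κ] (u : K) (a : κ → K) (c : κ → ℚ_[p])
    (h : valVec p K u = ∑ i, c i • valVec p K (a i)) :
    ∃ q : κ → ℚ, valVec p K u = ∑ i, (q i : ℚ_[p]) • valVec p K (a i) := by
  obtain ⟨π, hπ⟩ := RReg_pi p
  refine ⟨fun i => π (c i), ?_⟩
  funext σ
  have h1 := congrArg π (congrFun h σ)
  rw [Finset.sum_apply] at h1
  change π (((locNorm p K σ u).valuation : ℤ) : ℚ_[p]) =
    π (∑ i, c i * (((locNorm p K σ (a i)).valuation : ℤ) : ℚ_[p])) at h1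
  have h2 : ∀ i, π (c i * (((locNorm p K σ (a i)).valuation : ℤ) : ℚ_[p])) =
      π (c i) * ((locNorm p K σ (a i)).valuation : ℚ) := by
    intro i
    rw [mul_comm, ← zsmul_eq_mul, map_zsmul, zsmul_eq_mul, mul_comm]
  have h3 : π (((locNorm p K σ u).valuation : ℤ) : ℚ_[p]) = ((locNorm p K σ u).valuation : ℚ) := by
    have h4 := hπ ((locNorm p K σ u).valuation : ℚ)
    push_cast at h4
    exact h4
  rw [map_sum, Finset.sum_congr rfl fun i _ => h2 i, h3] at h1
  rw [Finset.sum_apply]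
  change (((locNorm p K σ u).valuation : ℤ) : ℚ_[p]) =
    ∑ i, (π (c i) : ℚ_[p]) * (((locNorm p K σ (a i)).valuation : ℤ) : ℚ_[p])
  have h5 := congrArg (fun t : ℚ => (t : ℚ_[p])) h1
  push_cast at h5
  exact h5

/-- a common denominator -/
private theorem RReg_den {κ : Type*} [Fintype κ] (q : κ → ℚ) :
    ∃ (n : ℕ) (m : κ → ℤ), n ≠ 0 ∧ ∀ i, (m i : ℚ) = n * q i := by
  classical
  refine ⟨∏ i, (q i).den, fun i => (q i).num * ∏ j ∈ Finset.univ.erase i, ((q j).den : ℤ), ?_, fun i => ?_⟩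
  · exact Finset.prod_ne_zero_iff.2 fun i _ => (q i).den_nz
  · push_cast
    rw [← Finset.mul_prod_erase Finset.univ (fun j => ((q j).den : ℚ)) (Finset.mem_univ i)]
    have h1 : (q i).den * q i = (q i).num := Rat.den_mul_eq_num (q i)
    linear_combination (-(∏ j ∈ Finset.univ.erase i, ((q j).den : ℚ))) * h1

/-- relations between valuation vectors hold for the vectors of logarithms -/
private theorem RReg_rel {L : ℚ_[p] → ℚ_[p]} (hL : IsPadicLog p L) {κ : Type*} [Fintype κ] (u : Additive Kˣ)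
    (hu : u ∈ RReg_MS p K) (a : κ → Additive Kˣ) (ha : ∀ i, a i ∈ RReg_MS p K) (q : κ → ℚ)
    (h : RReg_val p K u = ∑ i, (q i : ℚ_[p]) • RReg_val p K (a i)) :
    RReg_log p K hL u = ∑ i, (q i : ℚ_[p]) • RReg_log p K hL (a i) := by
  obtain ⟨n, m, hn, hm⟩ := RReg_den q
  have hn0 : (n : ℚ_[p]) ≠ 0 := by exact_mod_cast hn
  have hmq : ∀ i, (m i : ℚ_[p]) = n * (q i : ℚ_[p]) := by
    intro i
    have h1 := congrArg (fun t : ℚ => (t : ℚ_[p])) (hm i)
    push_cast at h1
    exact h1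
  have key : ∀ f : Additive Kˣ →+ (Emb p K → ℚ_[p]), f (n • u - ∑ i, m i • a i) =
      (n : ℚ_[p]) • (f u - ∑ i, (q i : ℚ_[p]) • f (a i)) := by
    intro f
    rw [map_sub, map_sum, map_nsmul, smul_sub, Finset.smul_sum, Nat.cast_smul_eq_nsmul]
    congr 1
    refine Finset.sum_congr rfl fun i _ => ?_
    rw [map_zsmul, smul_smul, ← hmq, Int.cast_smul_eq_zsmul]
  have hmem : n • u - ∑ i, m i • a i ∈ RReg_MS p K :=
    sub_mem (nsmul_mem hu n) (sum_mem fun i _ => zsmul_mem (ha i) (m i))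
  have h0 : RReg_val p K (n • u - ∑ i, m i • a i) = 0 := by
    rw [key, h, sub_self, smul_zero]
  have h1 : RReg_log p K hL (n • u - ∑ i, m i • a i) = 0 := RReg_kron p K hL hmem.1 hmem.2 h0
  rw [key] at h1
  exact sub_eq_zero.1 ((smul_eq_zero.1 h1).resolve_left hn0)

theorem exists_regulatorMap {L : ℚ_[p] → ℚ_[p]} (hL : IsPadicLog p L) :
    ∃ Λ : Ym p K →ₗ[ℚ_[p]] Ym p K, IsRegulatorMap p K L Λ := by
  obtain ⟨κ, a, -, hspan, hind⟩ := exists_linearIndependent' ℚ_[p] (fun u : RReg_MS p K => RReg_val p K (u : Additive Kˣ))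
  have hfin : Finite κ := hind.finite
  let _ := Fintype.ofFinite κ
  have hle : Ym p K ≤ Submodule.span ℚ_[p]
      (Set.range ((fun u : RReg_MS p K => RReg_val p K (u : Additive Kˣ)) ∘ a)) := by
    rw [hspan]
    refine (Ym_le_span p K).trans (Submodule.span_mono ?_)
    rintro _ ⟨u, hu, hu', rfl⟩
    exact ⟨⟨Additive.ofMul (Units.mk0 u hu.1), hu, hu'⟩, rfl⟩
  obtain ⟨f₀, hf₀⟩ : ∃ f₀ : Submodule.span ℚ_[p]
      (Set.range ((fun u : RReg_MS p K => RReg_val p K (u : Additive Kˣ)) ∘ a)) →ₗ[ℚ_[p]] (Emb p K → ℚ_[p]),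
      ∀ i, f₀ (Module.Basis.span hind i) = RReg_log p K hL (a i : Additive Kˣ) :=
    ⟨(Module.Basis.span hind).constr ℚ_[p] fun i => RReg_log p K hL (a i : Additive Kˣ),
      fun i => (Module.Basis.span hind).constr_basis ℚ_[p] _ i⟩
  have hlog : ∀ i, RReg_log p K hL (a i : Additive Kˣ) ∈ Ym p K := by
    intro i
    refine logImage_le_Ym p K hL (Submodule.subset_span ?_)
    exact ⟨_, (a i).2.1, (a i).2.2, rfl⟩
  have hmem : ∀ x, f₀ x ∈ Ym p K := by
    intro x
    rw [← (Module.Basis.span hind).sum_repr x, map_sum]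
    refine Submodule.sum_mem _ fun i _ => ?_
    rw [map_smul, hf₀]
    exact Submodule.smul_mem _ _ (hlog i)
  refine ⟨(f₀.comp (Submodule.inclusion hle)).codRestrict (Ym p K) fun x => hmem _, ?_⟩
  intro u hu hu' v hv
  change f₀ (Submodule.inclusion hle v) = logVec p K L u
  obtain ⟨U, hU⟩ : ∃ U : Additive Kˣ, U = Additive.ofMul (Units.mk0 u hu.1) := ⟨_, rfl⟩
  have hUm : U ∈ RReg_MS p K := by
    rw [hU]
    exact ⟨hu, hu'⟩
  have hUv : RReg_val p K U = (v : Emb p K → ℚ_[p]) := by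
    rw [hU, hv]
    rfl
  have hUl : RReg_log p K hL U = logVec p K L u := by
    rw [hU]
    rfl
  obtain ⟨c, hc⟩ := (Submodule.mem_span_range_iff_exists_fun ℚ_[p]).1 (hle v.2)
  obtain ⟨q, hq⟩ := RReg_rat p K u (fun i => ((Additive.toMul (a i : Additive Kˣ) : Kˣ) : K)) c (by
    rw [← hv, ← hc]
    rfl)
  have hq' : RReg_val p K U = ∑ i, (q i : ℚ_[p]) • RReg_val p K (a i : Additive Kˣ) := by
    rw [hUv, hv, hq]
    rfl
  have h1 := RReg_rel p K hL U hUm (fun i => (a i : Additive Kˣ)) (fun i => (a i).2) q hq'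
  have h2 : Submodule.inclusion hle v = ∑ i, (q i : ℚ_[p]) • Module.Basis.span hind i := by
    apply Subtype.ext
    rw [Submodule.coe_sum]
    change (v : Emb p K → ℚ_[p]) = _
    rw [← hUv, hq']
    refine Finset.sum_congr rfl fun i _ => ?_
    rw [Submodule.coe_smul, Module.Basis.span_apply]
    rfl
  rw [h2, map_sum, ← hUl, h1]
  refine Finset.sum_congr rfl fun i _ => ?_
  rw [map_smul, hf₀]

theorem regulatorMap_unique {L : ℚ_[p] → ℚ_[p]} {Λ Λ' : Ym p K →ₗ[ℚ_[p]] Ym p K}
    (h : IsRegulatorMap p K L Λ) (h' : IsRegulatorMap p K L Λ') : Λ = Λ' := by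
  have hle : Submodule.span ℚ_[p] {f | ∃ u : K, IsPUnit p K u ∧ u * cc K u = 1 ∧
      f = fun τ => ((locNorm p K τ u).valuation : ℚ_[p])} ≤ Ym p K := by
    rw [Submodule.span_le]
    rintro _ ⟨u, -, hu, rfl⟩
    exact valVec_mem_Ym p K hu
  apply LinearMap.ext
  rintro ⟨v, hv⟩
  have key : ∀ x (hx : x ∈ Submodule.span ℚ_[p] {f | ∃ u : K, IsPUnit p K u ∧ u * cc K u = 1 ∧
      f = fun τ => ((locNorm p K τ u).valuation : ℚ_[p])}), Λ ⟨x, hle hx⟩ = Λ' ⟨x, hle hx⟩ := by
    intro x hx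
    induction hx using Submodule.span_induction with
    | mem x hx =>
      obtain ⟨u, hu, hu', rfl⟩ := hx
      apply Subtype.ext
      rw [h u hu hu' _ rfl, h' u hu hu' _ rfl]
    | zero =>
      have h0 : (⟨0, hle (Submodule.zero_mem _)⟩ : Ym p K) = 0 := rfl
      rw [h0, map_zero, map_zero]
    | add x y hx hy ihx ihy =>
      have h0 : (⟨x + y, hle (Submodule.add_mem _ hx hy)⟩ : Ym p K) = ⟨x, hle hx⟩ + ⟨y, hle hy⟩ := rfl
      rw [h0, map_add, map_add, ihx, ihy]
    | smul c x hx ih =>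
      have h0 : (⟨c • x, hle (Submodule.smul_mem _ c hx)⟩ : Ym p K) = c • ⟨x, hle hx⟩ := rfl
      rw [h0, map_smul, map_smul, ih]
  exact key v (Ym_le_span p K hv)

end GR95
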