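import Pool.Agent.LibGR95.RFull
import Pool.Agent.LibGR95.RReg

/-! Final forms, for a group `Aut(K/R)`. -/

namespace GR95

open NumberField Bru95

section aut

variable {K : Type*} [Field K] [NumberField K]

/-- an `R`-automorphism as a `ℚ`-automorphism -/
noncomputable def toQ {R : Type*} [Field R] [Algebra R K] (g : K ≃ₐ[R] K) : K ≃ₐ[ℚ] K :=
  AlgEquiv.ofRingEquiv (f := (g : K ≃+* K)) (fun q => by
    simp only [eq_ratCast, map_ratCast])

variable (K) in
/-- the group `Aut(K/R)` inside `Aut(K/ℚ)` -/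
noncomputable def GR (R : Type*) [Field R] [Algebra R K] : Subgroup (K ≃ₐ[ℚ] K) where
  carrier := {g | ∀ r : R, g (algebraMap R K r) = algebraMap R K r}
  mul_mem' := by
    intro a b ha hb r
    show a (b (algebraMap R K r)) = _
    rw [hb r, ha r]
  one_mem' := fun r => rfl
  inv_mem' := by
    intro a ha r
    show a.symm (algebraMap R K r) = _
    rw [AlgEquiv.symm_apply_eq, ha r]

theorem toQ_mem {R : Type*} [Field R] [Algebra R K] (g : K ≃ₐ[R] K) : toQ g ∈ GR K R :=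
  fun r => g.commutes r

/-- from `GR` back to `R`-automorphisms -/
noncomputable def ofGR {R : Type*} [Field R] [Algebra R K] (g : GR K R) : K ≃ₐ[R] K :=
  AlgEquiv.ofRingEquiv (f := ((g : K ≃ₐ[ℚ] K) : K ≃+* K)) (fun r => g.2 r)

end aut

variable (p : ℕ) [Fact p.Prime] (K : Type*) [Field K] [NumberField K] [IsCMField K]

/-- The action of an `R`-automorphism `g` of `K` on `Y⁻`: `(g v)(σ) = v(σ ∘ g)`. -/
noncomputable def actY {R : Type*} [Field R] [Algebra R K] (g : K ≃ₐ[R] K) :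
    Ym p K →ₗ[ℚ_[p]] Ym p K :=
  (act p K ℚ_[p] (g : K →+* K)).restrict (fun _ hf => act_mem_Ym p K (toQ g) hf)

theorem actY_eq {R : Type*} [Field R] [Algebra R K] (g : GR K R) :
    rep p K (GR K R) g = actY p K (ofGR g) := rfl

theorem actY_eq' {R : Type*} [Field R] [Algebra R K] (g : K ≃ₐ[R] K) :
    actY p K g = rep p K (GR K R) ⟨toQ g, toQ_mem g⟩ := rfl

/-- `W` is a simple `ℚ_p[G]`-submodule of `Y⁻`, `G = Aut(K/R)`, which occurs in `Y⁻` with multiplicity one: every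
`G`-equivariant linear map from `W` to `Y⁻` has image in `W`. -/
structure SimpleMultOne (R : Type*) [Field R] [Algebra R K]
    (W : Submodule ℚ_[p] (Ym p K)) : Prop where
  stable : ∀ g : K ≃ₐ[R] K, ∀ w ∈ W, actY p K g w ∈ W
  simple : ∀ W' ≤ W, (∀ g : K ≃ₐ[R] K, ∀ w ∈ W', actY p K g w ∈ W') → W' = ⊥ ∨ W' = W
  mult : ∀ φ : W →ₗ[ℚ_[p]] Ym p K,
    (∀ (g : K ≃ₐ[R] K) (w : W), φ ⟨actY p K g w, stable g w w.2⟩ = actY p K g (φ w)) →
      ∀ w, φ w ∈ W

/-- `Y⁻` is multiplicity free over `ℚ_p[G]`, `G = Aut(K/R)`: no nonzero `G`-equivariant endomorphism of `Y⁻` has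
square zero. -/
def MultFree (R : Type*) [Field R] [Algebra R K] : Prop :=
  ∀ φ : Ym p K →ₗ[ℚ_[p]] Ym p K, (∀ g : K ≃ₐ[R] K, φ ∘ₗ actY p K g = actY p K g ∘ₗ φ) →
    φ ∘ₗ φ = 0 → φ = 0

theorem main_R {L : ℚ_[p] → ℚ_[p]} (hL : IsPadicLog p L) (R : Type*) [Field R] [Algebra R K]
    (W : Submodule ℚ_[p] (Ym p K)) (hW : SimpleMultOne p K R W) :
    W.map (Ym p K).subtype ≤ LogImage p K L :=
  main_subgroup p K hL (GR K R) W (fun g w hw => hW.stable (ofGR g) w hw)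
    (fun W' hW' hst => hW.simple W' hW' (fun g f hf => hst ⟨toQ g, toQ_mem g⟩ f hf))
    (fun φ hφ w => hW.mult φ (fun g w => hφ ⟨toQ g, toQ_mem g⟩ w) w)

theorem full_R {L : ℚ_[p] → ℚ_[p]} (hL : IsPadicLog p L) (R : Type*) [Field R] [Algebra R K]
    (h : MultFree p K R) : LogImage p K L = Ym p K :=
  full_of_reduced p K hL (GR K R) (fun φ hφ h0 => h φ (fun g => hφ ⟨toQ g, toQ_mem g⟩) h0)

end GR95
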