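import Pool.Agent.LibGR95.RIdem

/-! Row G19. If the commutant of `V` is reduced (`φ² = 0 → φ = 0`), every stable `I ≠ ⊤` misses a simple `W` of multiplicity one.
`U` a stable complement of `I`, `U ≠ ⊥`, `W ≤ U` a minimal nonzero stable subspace (finite dimension). `W ⊓ I = ⊥`. Multiplicity one:
let `φ : W → V` be equivariant with `φ w ∉ W` for some `w`. `ker φ` is stable, not `W`, so `φ` is injective; `φ(W) ⊓ W` is stable
in `W`: if it were `W` then `W ≤ φ(W)`, equal dimensions, `φ(W) = W`: contradiction; so it is `⊥`. Let `U'` be a stable complement of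
`W ⊔ φ(W)`, `π` the projection onto `W` along `φ(W) ⊔ U'` (equivariant). `ψ = φ ∘ π` is equivariant, `ψ ∘ ψ = 0`, `ψ ≠ 0`. -/

namespace GR95

theorem exists_mult_one {k V G : Type*} [Field k] [CharZero k] [AddCommGroup V] [Module k V]
    [FiniteDimensional k V] [Group G] [Finite G] (ρ : G →* (V →ₗ[k] V)) (I : Submodule k V)
    (hI : ∀ g, ∀ w ∈ I, ρ g w ∈ I) (hne : I ≠ ⊤)
    (hred : ∀ φ : V →ₗ[k] V, (∀ g, φ ∘ₗ ρ g = ρ g ∘ₗ φ) → φ ∘ₗ φ = 0 → φ = 0) :
    ∃ (W : Submodule k V) (hW : ∀ g, ∀ w ∈ W, ρ g w ∈ W),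
      (∀ W' : Submodule k V, W' ≤ W → (∀ g, ∀ w ∈ W', ρ g w ∈ W') → W' = ⊥ ∨ W' = W) ∧
      (∀ φ : W →ₗ[k] V, (∀ g (w : W), φ ⟨ρ g w, hW g w w.2⟩ = ρ g (φ w)) → ∀ w, φ w ∈ W) ∧
      ¬ W ≤ I := by
  classical
  obtain ⟨U, hU, hIU⟩ := exists_stable_compl ρ I hI
  have hU0 : U ≠ ⊥ := by
    rintro rfl
    apply hne
    have := hIU.sup_eq_top
    rwa [sup_bot_eq] at this
  obtain ⟨W, ⟨hWU, hWst, hW0⟩, hmin⟩ := (wellFounded_lt (α := Submodule k V)).has_min
    {W : Submodule k V | W ≤ U ∧ (∀ g, ∀ w ∈ W, ρ g w ∈ W) ∧ W ≠ ⊥} ⟨U, le_rfl, hU, hU0⟩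
  have hsimple : ∀ W' : Submodule k V, W' ≤ W → (∀ g, ∀ w ∈ W', ρ g w ∈ W') →
      W' = ⊥ ∨ W' = W := by
    intro W' h1 h2
    by_contra h3
    push Not at h3
    exact hmin W' ⟨h1.trans hWU, h2, h3.1⟩ (lt_of_le_of_ne h1 h3.2)
  refine ⟨W, hWst, hsimple, ?_, ?_⟩
  · intro φ hφ w
    by_contra hw
    -- the kernel of `φ` is zero
    have hker : (LinearMap.ker φ).map W.subtype = ⊥ := by
      have hle : (LinearMap.ker φ).map W.subtype ≤ W := by
        rintro _ ⟨x, -, rfl⟩
        exact x.2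
      rcases hsimple _ hle (by
        rintro g _ ⟨x, hx, rfl⟩
        refine ⟨⟨ρ g x, hWst g x x.2⟩, ?_, rfl⟩
        have hx' : φ x = 0 := hx
        change φ ⟨ρ g x, hWst g x x.2⟩ = 0
        rw [hφ g x, hx', map_zero]) with h | h
      · exact h
      · exfalso
        apply hw
        have h5 : (w : V) ∈ (LinearMap.ker φ).map W.subtype := by
          rw [h]
          exact w.2
        obtain ⟨x, hx, hxw⟩ := h5
        have hx' : φ x = 0 := hx
        have : x = w := Subtype.ext hxw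
        rw [← this, hx']
        exact W.zero_mem
    have hker' : LinearMap.ker φ = ⊥ := by
      rw [eq_bot_iff]
      intro x hx
      have h5 : (x : V) ∈ (LinearMap.ker φ).map W.subtype := ⟨x, hx, rfl⟩
      rw [hker, Submodule.mem_bot] at h5
      rw [Submodule.mem_bot]
      exact Subtype.ext h5
    have hinj : Function.Injective φ := LinearMap.ker_eq_bot.1 hker'
    set R := LinearMap.range φ with hR
    have hRst : ∀ g, ∀ v ∈ R, ρ g v ∈ R := by
      rintro g _ ⟨x, rfl⟩
      exact ⟨⟨ρ g x, hWst g x x.2⟩, hφ g x⟩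
    have hRW : R ⊓ W = ⊥ := by
      rcases hsimple (R ⊓ W) inf_le_right
        (fun g v hv => ⟨hRst g v hv.1, hWst g v hv.2⟩) with h | h
      · exact h
      · exfalso
        have h6 : W ≤ R := by
          rw [← h]
          exact inf_le_left
        have h7 : W = R := Submodule.eq_of_le_of_finrank_eq h6
          (LinearMap.finrank_range_of_inj hinj).symm
        apply hw
        exact h7.ge ⟨w, rfl⟩
    obtain ⟨U', hU', hc⟩ := exists_stable_compl ρ (W ⊔ R) (by
      intro g v hv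
      rw [Submodule.mem_sup] at hv ⊢
      obtain ⟨a, ha, b, hb, rfl⟩ := hv
      exact ⟨ρ g a, hWst g a ha, ρ g b, hRst g b hb, (map_add _ _ _).symm⟩)
    have hcompl : IsCompl W (R ⊔ U') := by
      constructor
      · apply Disjoint.disjoint_sup_right_of_disjoint_sup_left
        · rw [disjoint_iff, inf_comm]
          exact hRW
        · exact hc.disjoint
      · rw [codisjoint_iff, ← sup_assoc]
        exact hc.sup_eq_top
    have hW'st : ∀ g, ∀ v ∈ R ⊔ U', ρ g v ∈ R ⊔ U' := by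
      intro g v hv
      rw [Submodule.mem_sup] at hv ⊢
      obtain ⟨a, ha, b, hb, rfl⟩ := hv
      exact ⟨ρ g a, hRst g a ha, ρ g b, hU' g b hb, (map_add _ _ _).symm⟩
    set π := W.projectionOnto (R ⊔ U') hcompl with hπ
    have hπW : ∀ x : W, π x = x := fun x => Submodule.projectionOnto_apply_left hcompl x
    have hπ0 : ∀ v ∈ R ⊔ U', π v = 0 := fun v hv =>
      (Submodule.projectionOnto_apply_eq_zero_iff hcompl).2 hv
    have hπρ : ∀ g v, π (ρ g v) = ⟨ρ g (π v), hWst g _ (π v).2⟩ := by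
      intro g v
      have hv : v ∈ W ⊔ (R ⊔ U') := by
        rw [hcompl.sup_eq_top]
        trivial
      rw [Submodule.mem_sup] at hv
      obtain ⟨a, ha, b, hb, rfl⟩ := hv
      have e1 : π (a + b) = ⟨a, ha⟩ := by
        rw [map_add, hπ0 b hb, add_zero]
        exact hπW ⟨a, ha⟩
      have e2 : π (ρ g (a + b)) = ⟨ρ g a, hWst g a ha⟩ := by
        rw [map_add, map_add, hπ0 _ (hW'st g b hb), add_zero]
        exact hπW ⟨ρ g a, hWst g a ha⟩
      rw [e2]
      apply Subtype.ext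
      simp only [e1]
    have hψ := hred (φ ∘ₗ π) (by
      intro g
      ext v
      simp only [LinearMap.comp_apply]
      rw [hπρ, hφ]) (by
      ext v
      simp only [LinearMap.comp_apply, LinearMap.zero_apply]
      rw [hπ0 _ (Submodule.mem_sup_left ⟨π v, rfl⟩), map_zero])
    apply hw
    have h8 := LinearMap.congr_fun hψ (w : V)
    simp only [LinearMap.comp_apply, LinearMap.zero_apply] at h8
    rw [hπW] at h8
    rw [h8]
    exact W.zero_mem
  · intro hWI
    apply hW0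
    rw [eq_bot_iff, ← hIU.inf_eq_bot]
    exact le_inf hWI hWU

end GR95
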