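import Pool.Agent.LibGR95.RMain
import Pool.Agent.LibGR95.RMultOne

/-! Row G20. `exists_mult_one` for `V = Y⁻`, `I = LogImage` (comap of the inclusion), and `main_subgroup`; `logImage_le_Ym`. -/

namespace GR95

open NumberField Bru95

variable (p : ℕ) [Fact p.Prime] (K : Type*) [Field K] [NumberField K] [IsCMField K]

theorem full_of_reduced {L : ℚ_[p] → ℚ_[p]} (hL : IsPadicLog p L) (G : Subgroup (K ≃ₐ[ℚ] K))
    (hred : ∀ φ : Ym p K →ₗ[ℚ_[p]] Ym p K, (∀ g : G, φ ∘ₗ rep p K G g = rep p K G g ∘ₗ φ) →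
      φ ∘ₗ φ = 0 → φ = 0) :
    LogImage p K L = Ym p K := by
  classical
  by_contra hne
  have hle : LogImage p K L ≤ Ym p K := logImage_le_Ym p K hL
  have hI : ∀ g : G, ∀ w ∈ (LogImage p K L).comap (Ym p K).subtype,
      rep p K G g w ∈ (LogImage p K L).comap (Ym p K).subtype := by
    intro g w hw
    rw [Submodule.mem_comap] at hw ⊢
    exact act_mem_logImage p K (g : K ≃ₐ[ℚ] K) hw
  have hItop : (LogImage p K L).comap (Ym p K).subtype ≠ ⊤ := by
    intro h
    apply hne
    apply le_antisymm hle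
    intro f hf
    have : (⟨f, hf⟩ : Ym p K) ∈ (LogImage p K L).comap (Ym p K).subtype := by
      rw [h]; exact Submodule.mem_top
    exact this
  obtain ⟨W, hW, hsimple, hmult, hnot⟩ := exists_mult_one (rep p K G)
    ((LogImage p K L).comap (Ym p K).subtype) hI hItop hred
  apply hnot
  have := main_subgroup p K hL G W hW hsimple hmult
  exact Submodule.map_le_iff_le_comap.mp this

end GR95
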