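import Pool.Agent.LibGR95.RTrace

/-! Row G13. `B` a rational space of matrices stable under transposition, `e` an idempotent in its `k`-span commuting with `B`. Then the
entries of `e` are algebraic. Let `f_1..f_m` be a `ℚ`-basis of `B`, `e = ∑ e_i f_i`. The Gram matrix `tr(f_iᵀ f_j)` is positive
definite over `ℚ` (`tr(fᵀ f) = ∑ f_ij^2`), so invertible. `tr(f_iᵀ e) = ∑_j e_j tr(f_iᵀ f_j)`; `f = f_iᵀ ∈ B` commutes with `e`, and if
`q` is the minimal (or characteristic) polynomial of `f` over `ℚ`, then `(e f)^k = e f^k` for `k ≥ 1` so `X q` kills `e f`: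
`trace_algebraic`. Hence all `e_j` are algebraic (Cramer), and so are the entries of `e`. -/

namespace GR95

open Polynomial in
/-- `e p(a e) = e p(a)` for an idempotent `e` commuting with `a` -/
private theorem rGram_aeval {k : Type*} [Field k] [CharZero k] {X : Type*} [Fintype X] [DecidableEq X]
    (e a : Matrix X X k) (hidem : e * e = e) (hcomm : e * a = a * e) (q : ℚ[X]) :
    e * aeval (a * e) q = e * aeval a q := by
  have hpow : ∀ n : ℕ, e * (a * e) ^ n = e * a ^ n := by
    intro n
    have hc : Commute e a := hcomm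
    induction n with
    | zero => rw [pow_zero, pow_zero]
    | succ n ih =>
      have h1 : e * a ^ (n + 1) = a ^ (n + 1) * e := (hc.pow_right (n + 1)).eq
      calc e * (a * e) ^ (n + 1) = e * (a * e) ^ n * (a * e) := by rw [pow_succ, mul_assoc]
        _ = e * a ^ n * (a * e) := by rw [ih]
        _ = e * a ^ (n + 1) * e := by rw [pow_succ, mul_assoc, mul_assoc, mul_assoc]
        _ = e * a ^ (n + 1) := by rw [h1, mul_assoc, hidem]
  rw [aeval_eq_sum_range, aeval_eq_sum_range, Finset.mul_sum, Finset.mul_sum]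
  refine Finset.sum_congr rfl fun n _ => ?_
  rw [Algebra.mul_smul_comm, Algebra.mul_smul_comm, hpow]

open Polynomial in
/-- the trace of `a e` is algebraic -/
private theorem rGram_trace {k : Type*} [Field k] [CharZero k] {X : Type*} [Fintype X] [DecidableEq X]
    (e : Matrix X X k) (a : Matrix X X ℚ) (hidem : e * e = e)
    (hcomm : e * a.map (algebraMap ℚ k) = a.map (algebraMap ℚ k) * e) :
    IsAlgebraic ℚ (a.map (algebraMap ℚ k) * e).trace := by
  refine trace_algebraic _ (Polynomial.X * a.charpoly) (mul_ne_zero X_ne_zero a.charpoly_monic.ne_zero) ?_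
  rw [map_mul, aeval_X, mul_assoc, rGram_aeval e _ hidem hcomm]
  have h1 : aeval (a.map (algebraMap ℚ k)) a.charpoly = 0 := by
    have h2 := Matrix.aeval_self_charpoly a
    have h3 := congrArg (fun b : Matrix X X ℚ => (Algebra.ofId ℚ k).mapMatrix b) h2
    simp only [map_zero] at h3
    rw [← Polynomial.aeval_algHom_apply] at h3
    exact h3
  rw [h1, mul_zero, mul_zero]

/-- the Gram matrix is invertible -/
private theorem rGram_det {X : Type*} [Fintype X] [DecidableEq X] {m : ℕ} (f : Fin m → Matrix X X ℚ)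
    (hf : LinearIndependent ℚ f) : (Matrix.of fun i j => ((f i).transpose * f j).trace).det ≠ 0 := by
  intro h0
  obtain ⟨v, hv0, hv⟩ := Matrix.exists_mulVec_eq_zero_iff.2 h0
  obtain ⟨g, hg⟩ : ∃ g : Matrix X X ℚ, g = ∑ i, v i • f i := ⟨_, rfl⟩
  have h1 : (g.transpose * g).trace = 0 := by
    have h2 : (g.transpose * g).trace =
        ∑ i, v i * ((Matrix.of fun i j => ((f i).transpose * f j).trace).mulVec v) i := by
      rw [hg, Matrix.transpose_sum, Finset.sum_mul, Matrix.trace_sum]
      refine Finset.sum_congr rfl fun i _ => ?_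
      rw [Matrix.transpose_smul, Matrix.smul_mul, Matrix.trace_smul, smul_eq_mul, Matrix.mul_sum, Matrix.trace_sum]
      congr 1
      change _ = ∑ j, ((f i).transpose * f j).trace * v j
      refine Finset.sum_congr rfl fun j _ => ?_
      rw [Matrix.mul_smul, Matrix.trace_smul, smul_eq_mul, mul_comm]
    rw [h2, hv]
    simp
  have h3 : g = 0 := by
    rw [← Matrix.conjTranspose_eq_transpose_of_trivial] at h1
    exact Matrix.trace_conjTranspose_mul_self_eq_zero_iff.1 h1
  rw [hg] at h3
  exact hv0 (funext fun i => Fintype.linearIndependent_iff.1 hf v h3 i)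

theorem idem_entries_algebraic {k : Type*} [Field k] [CharZero k] {X : Type*} [Fintype X]
    [DecidableEq X] (B : Submodule ℚ (Matrix X X ℚ)) (htr : ∀ a ∈ B, a.transpose ∈ B)
    (e : Matrix X X k)
    (hspan : e ∈ Submodule.span k ((fun a : Matrix X X ℚ => a.map (algebraMap ℚ k)) '' B))
    (hidem : e * e = e)
    (hcomm : ∀ a ∈ B, e * a.map (algebraMap ℚ k) = a.map (algebraMap ℚ k) * e) (i j : X) :
    IsAlgebraic ℚ (e i j) := by
  obtain ⟨m, hm⟩ : ∃ m : ℕ, m = Module.finrank ℚ B := ⟨_, rfl⟩
  obtain ⟨b, hb⟩ : ∃ b : Module.Basis (Fin (Module.finrank ℚ B)) ℚ B, b = Module.finBasis ℚ B := ⟨_, rfl⟩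
  obtain ⟨f, hf⟩ : ∃ f : Fin (Module.finrank ℚ B) → Matrix X X ℚ, f = fun l => (b l : Matrix X X ℚ) := ⟨_, rfl⟩
  have hfB : ∀ l, f l ∈ B := by
    intro l
    rw [hf]
    exact (b l).2
  have hind : LinearIndependent ℚ f := by
    rw [hf]
    exact b.linearIndependent.map' B.subtype (Submodule.ker_subtype B)
  have hmap : ∀ (w : Fin (Module.finrank ℚ B) → ℚ), (∑ l, w l • f l).map (algebraMap ℚ k) =
      ∑ l, (algebraMap ℚ k (w l)) • (f l).map (algebraMap ℚ k) := by
    intro w
    ext x y
    rw [Matrix.map_apply, Matrix.sum_apply, Matrix.sum_apply, map_sum]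
    refine Finset.sum_congr rfl fun l _ => ?_
    rw [Matrix.smul_apply, Matrix.smul_apply, Matrix.map_apply, smul_eq_mul, smul_eq_mul, map_mul]
  have hle : Submodule.span k ((fun a : Matrix X X ℚ => a.map (algebraMap ℚ k)) '' B) ≤
      Submodule.span k (Set.range fun l => (f l).map (algebraMap ℚ k)) := by
    rw [Submodule.span_le]
    rintro _ ⟨a, ha, rfl⟩
    have h1 : a = ∑ l, b.repr ⟨a, ha⟩ l • f l := by
      have h2 := congrArg (fun t : B => (t : Matrix X X ℚ)) (b.sum_repr ⟨a, ha⟩)
      simp only [Submodule.coe_sum, Submodule.coe_smul] at h2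
      rw [hf]
      exact h2.symm
    change a.map (algebraMap ℚ k) ∈ _
    rw [h1, hmap]
    exact Submodule.sum_mem _ fun l _ => Submodule.smul_mem _ _ (Submodule.subset_span ⟨l, rfl⟩)
  obtain ⟨c, hc⟩ := (Submodule.mem_span_range_iff_exists_fun k).1 (hle hspan)
  obtain ⟨G, hG⟩ : ∃ G : Matrix (Fin (Module.finrank ℚ B)) (Fin (Module.finrank ℚ B)) ℚ,
      G = Matrix.of fun i j => ((f i).transpose * f j).trace := ⟨_, rfl⟩
  have hdet : G.det ≠ 0 := by
    rw [hG]
    exact rGram_det f hind
  obtain ⟨t, ht⟩ : ∃ t : Fin (Module.finrank ℚ B) → k,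
      t = fun l => ((f l).transpose.map (algebraMap ℚ k) * e).trace := ⟨_, rfl⟩
  have halg : ∀ l, IsAlgebraic ℚ (t l) := by
    intro l
    rw [ht]
    exact rGram_trace e _ hidem (hcomm _ (htr _ (hfB l)))
  have htG : t = (G.map (algebraMap ℚ k)).mulVec c := by
    funext l
    rw [ht, ← hc]
    change ((f l).transpose.map (algebraMap ℚ k) * ∑ i, c i • (f i).map (algebraMap ℚ k)).trace =
      ∑ i, (G.map (algebraMap ℚ k)) l i * c i
    rw [Matrix.mul_sum, Matrix.trace_sum]
    refine Finset.sum_congr rfl fun i _ => ?_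
    rw [Matrix.mul_smul, Matrix.trace_smul, smul_eq_mul, mul_comm]
    congr 1
    rw [← Matrix.map_mul, hG]
    change ((((f l).transpose * f i).map (algebraMap ℚ k))).trace = algebraMap ℚ k ((f l).transpose * f i).trace
    rw [Matrix.trace, Matrix.trace, map_sum]
    rfl
  have hGu : IsUnit G.det := isUnit_iff_ne_zero.2 hdet
  have hcG : c = ((G⁻¹).map (algebraMap ℚ k)).mulVec t := by
    rw [htG, Matrix.mulVec_mulVec, ← Matrix.map_mul, Matrix.nonsing_inv_mul _ hGu,
      Matrix.map_one _ (map_zero _) (map_one _), Matrix.one_mulVec]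
  have hcalg : ∀ l, c l ∈ algebraicClosure ℚ k := by
    intro l
    rw [hcG]
    change ∑ i, ((G⁻¹).map (algebraMap ℚ k)) l i * t i ∈ _
    refine sum_mem fun i _ => mul_mem ?_ (mem_algebraicClosure_iff.2 (halg i))
    exact (algebraicClosure ℚ k).algebraMap_mem _
  rw [← mem_algebraicClosure_iff, ← hc, Matrix.sum_apply]
  refine sum_mem fun l _ => ?_
  rw [Matrix.smul_apply, smul_eq_mul]
  exact mul_mem (hcalg l) ((algebraicClosure ℚ k).algebraMap_mem _)

end GR95
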