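import Mathlib

/-! Row G11. Abstract representation theory (Maschke). `k` of characteristic zero, `G` finite, `ρ : G →* End V`.
`W` simple stable, every equivariant map `W → V` has image in `W` (multiplicity one), `I` stable, `¬ W ≤ I`. Then `W ⊓ I = ⊥`
(simple). Choose a stable complement `W'` of `W` containing `I`: a stable complement `U` of `W ⊔ I` (Maschke: average a linear
projection over `G`, or `Representation`/`MonoidAlgebra` semisimplicity) and `W' = I ⊔ U`. `e` = projection on `W` along `W'`;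
it commutes with `ρ`. For an equivariant `φ : V → V`: `φ W ≤ W` by `hmult`. `φ W' ≤ W'`: otherwise `e ∘ φ` restricted to `W'` is
a nonzero equivariant map `W' → W`, onto since `W` is simple; a stable complement of its kernel in `W'` is then isomorphic to `W`, so
there is an injective equivariant `W → W' ≤ V`, whose image is in `W` by `hmult` and in `W'`, so zero: contradiction. Hence `e`
commutes with `φ`. -/

namespace GR95

private theorem RIdem_proj {k V G : Type*} [Field k] [CharZero k] [AddCommGroup V] [Module k V]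
    [Group G] [Finite G] (ρ : G →* (V →ₗ[k] V)) (W : Submodule k V)
    (hW : ∀ g, ∀ w ∈ W, ρ g w ∈ W) :
    ∃ P : V →ₗ[k] V, (∀ v, P v ∈ W) ∧ (∀ w ∈ W, P w = w) ∧
      (∀ g v, P (ρ g v) = ρ g (P v)) := by
  classical
  have := Fintype.ofFinite G
  obtain ⟨U, hU⟩ := Submodule.exists_isCompl W
  obtain ⟨π, hπ1, hπ2⟩ : ∃ π : V →ₗ[k] V, (∀ v, π v ∈ W) ∧ (∀ w ∈ W, π w = w) := by
    refine ⟨W.subtype ∘ₗ W.projectionOnto U hU, fun v => ?_, fun w hw => ?_⟩
    · exact (W.projectionOnto U hU v).2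
    · have h1 := Submodule.projectionOnto_apply_left hU ⟨w, hw⟩
      show ((W.projectionOnto U hU w : W) : V) = w
      rw [h1]
  have hmul : ∀ g h v, ρ g (ρ h v) = ρ (g * h) v := by
    intro g h v
    rw [map_mul, Module.End.mul_apply]
  have hone : ∀ v, ρ 1 v = v := by
    intro v
    rw [map_one, Module.End.one_apply]
  have hc : (Fintype.card G : k) ≠ 0 := by exact_mod_cast Fintype.card_ne_zero
  refine ⟨(Fintype.card G : k)⁻¹ • ∑ g, ρ g ∘ₗ π ∘ₗ ρ g⁻¹, ?_, ?_, ?_⟩
  · intro v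
    rw [LinearMap.smul_apply, LinearMap.sum_apply]
    exact W.smul_mem _ (W.sum_mem fun g _ => hW g _ (hπ1 _))
  · intro w hw
    rw [LinearMap.smul_apply, LinearMap.sum_apply]
    have h1 : ∀ g ∈ (Finset.univ : Finset G), (ρ g ∘ₗ π ∘ₗ ρ g⁻¹) w = w := by
      intro g _
      show ρ g (π (ρ g⁻¹ w)) = w
      rw [hπ2 _ (hW _ w hw), hmul, mul_inv_cancel, hone]
    rw [Finset.sum_congr rfl h1, Finset.sum_const, Finset.card_univ, ← Nat.cast_smul_eq_nsmul k,
      smul_smul, inv_mul_cancel₀ hc, one_smul]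
  · intro h v
    rw [LinearMap.smul_apply, LinearMap.smul_apply, map_smul, LinearMap.sum_apply,
      LinearMap.sum_apply, map_sum]
    congr 1
    refine Fintype.sum_equiv (Equiv.mulLeft h⁻¹) _ _ ?_
    intro g
    show ρ g (π (ρ g⁻¹ (ρ h v))) = ρ h (ρ (h⁻¹ * g) (π (ρ (h⁻¹ * g)⁻¹ v)))
    rw [hmul, hmul, mul_inv_cancel_left, mul_inv_rev, inv_inv]

/-- Maschke: a stable subspace has a stable complement -/
theorem exists_stable_compl {k V G : Type*} [Field k] [CharZero k] [AddCommGroup V] [Module k V]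
    [Group G] [Finite G] (ρ : G →* (V →ₗ[k] V)) (W : Submodule k V)
    (hW : ∀ g, ∀ w ∈ W, ρ g w ∈ W) :
    ∃ U : Submodule k V, (∀ g, ∀ w ∈ U, ρ g w ∈ U) ∧ IsCompl W U := by
  obtain ⟨P, h1, h2, h3⟩ := RIdem_proj ρ W hW
  refine ⟨LinearMap.ker P, ?_, ?_⟩
  · intro g w hw
    rw [LinearMap.mem_ker] at hw ⊢
    rw [h3, hw, map_zero]
  · constructor
    · rw [Submodule.disjoint_def]
      intro w hw hw'
      rw [LinearMap.mem_ker] at hw'
      rw [← h2 w hw, hw']
    · rw [codisjoint_iff_le_sup]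
      intro v _
      have : v = P v + (v - P v) := by abel
      rw [this]
      apply Submodule.add_mem_sup (h1 v)
      rw [LinearMap.mem_ker, map_sub, h2 _ (h1 v), sub_self]

theorem exists_central_idem {k V G : Type*} [Field k] [CharZero k] [AddCommGroup V] [Module k V]
    [FiniteDimensional k V] [Group G] [Finite G] (ρ : G →* (V →ₗ[k] V)) (W I : Submodule k V)
    (hW : ∀ g, ∀ w ∈ W, ρ g w ∈ W) (hI : ∀ g, ∀ w ∈ I, ρ g w ∈ I)
    (hsimple : ∀ W' : Submodule k V, W' ≤ W → (∀ g, ∀ w ∈ W', ρ g w ∈ W') → W' = ⊥ ∨ W' = W)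
    (hmult : ∀ φ : W →ₗ[k] V, (∀ g (w : W), φ ⟨ρ g w, hW g w w.2⟩ = ρ g (φ w)) → ∀ w, φ w ∈ W)
    (hnot : ¬ W ≤ I) :
    ∃ e : V →ₗ[k] V, e ∘ₗ e = e ∧ LinearMap.range e = W ∧ (∀ v ∈ I, e v = 0) ∧
      (∀ g, e ∘ₗ ρ g = ρ g ∘ₗ e) ∧
      (∀ φ : V →ₗ[k] V, (∀ g, φ ∘ₗ ρ g = ρ g ∘ₗ φ) → e ∘ₗ φ = φ ∘ₗ e) := by
  have hWI : Disjoint W I := by
    rw [disjoint_iff]
    rcases hsimple (W ⊓ I) inf_le_left (fun g w hw => ⟨hW g w hw.1, hI g w hw.2⟩) with h | h
    · exact h
    · exact absurd (inf_eq_left.1 h) hnot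
  obtain ⟨U, hU1, hU2⟩ := exists_stable_compl ρ (W ⊔ I) (by
    intro g w hw
    obtain ⟨a, ha, b, hb, rfl⟩ := Submodule.mem_sup.1 hw
    rw [map_add]
    exact Submodule.add_mem_sup (hW g a ha) (hI g b hb))
  set W' : Submodule k V := I ⊔ U with hW'
  have hcompl : IsCompl W W' := by
    constructor
    · exact hWI.disjoint_sup_right_of_disjoint_sup_left hU2.disjoint
    · rw [codisjoint_iff, hW', ← sup_assoc]
      exact hU2.sup_eq_top
  have hW's : ∀ g, ∀ w ∈ W', ρ g w ∈ W' := by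
    intro g w hw
    obtain ⟨a, ha, b, hb, rfl⟩ := Submodule.mem_sup.1 hw
    rw [map_add]
    exact Submodule.add_mem_sup (hI g a ha) (hU1 g b hb)
  obtain ⟨e, he1, he2, he3⟩ : ∃ e : V →ₗ[k] V, (∀ v, e v ∈ W) ∧ (∀ w ∈ W, e w = w) ∧
      (∀ w ∈ W', e w = 0) := by
    refine ⟨W.subtype ∘ₗ W.projectionOnto W' hcompl, fun v => ?_, fun w hw => ?_,
      fun w hw => ?_⟩
    · exact (W.projectionOnto W' hcompl v).2
    · have h1 := Submodule.projectionOnto_apply_left hcompl ⟨w, hw⟩
      show ((W.projectionOnto W' hcompl w : W) : V) = w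
      rw [h1]
    · have h1 := (Submodule.projectionOnto_apply_eq_zero_iff hcompl).2 hw
      show ((W.projectionOnto W' hcompl w : W) : V) = 0
      rw [h1]
      rfl
  have hdec : ∀ v : V, ∃ a ∈ W, ∃ b ∈ W', a + b = v := by
    intro v
    have h1 : v ∈ W ⊔ W' := by rw [hcompl.sup_eq_top]; trivial
    exact Submodule.mem_sup.1 h1
  have hker : ∀ v, e v = 0 → v ∈ W' := by
    intro v hv
    obtain ⟨a, ha, b, hb, rfl⟩ := hdec v
    rw [map_add, he2 a ha, he3 b hb, add_zero] at hv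
    rw [hv, zero_add]
    exact hb
  have heρ : ∀ g v, e (ρ g v) = ρ g (e v) := by
    intro g v
    obtain ⟨a, ha, b, hb, rfl⟩ := hdec v
    rw [map_add, map_add, map_add, he2 _ (hW g a ha), he3 _ (hW's g b hb), he2 a ha, he3 b hb,
      add_zero, add_zero]
  refine ⟨e, ?_, ?_, ?_, ?_, ?_⟩
  · ext v
    exact he2 _ (he1 v)
  · apply le_antisymm
    · rintro _ ⟨v, rfl⟩
      exact he1 v
    · intro w hw
      exact ⟨w, he2 w hw⟩
  · intro v hv
    exact he3 v (Submodule.mem_sup_left hv)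
  · intro g
    ext v
    exact heρ g v
  · intro φ hφ
    have hφ' : ∀ g v, φ (ρ g v) = ρ g (φ v) := fun g v => LinearMap.congr_fun (hφ g) v
    have hφW : ∀ w ∈ W, φ w ∈ W := by
      intro w hw
      exact hmult (φ ∘ₗ W.subtype) (fun g w => hφ' g w) ⟨w, hw⟩
    have hφW' : ∀ w ∈ W', e (φ w) = 0 := by
      by_contra hcon
      push Not at hcon
      obtain ⟨w0, hw0, hne⟩ := hcon
      -- the kernel in W'
      set N : Submodule k V := LinearMap.ker (e ∘ₗ φ) ⊓ W' with hN
      obtain ⟨U', hU'1, hU'2⟩ := exists_stable_compl ρ N (by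
        intro g w hw
        refine ⟨?_, hW's g w hw.2⟩
        have h1 : e (φ w) = 0 := hw.1
        show e (φ (ρ g w)) = 0
        rw [hφ', heρ, h1, map_zero])
      -- the image of U' ⊓ W' is stable
      have himg : Submodule.map (e ∘ₗ φ) (U' ⊓ W') = W := by
        have h1 : Submodule.map (e ∘ₗ φ) (U' ⊓ W') ≤ W := by
          rintro _ ⟨v, _, rfl⟩
          exact he1 _
        rcases hsimple _ h1 (by
          rintro g _ ⟨v, hv, rfl⟩
          refine ⟨ρ g v, ⟨hU'1 g v hv.1, hW's g v hv.2⟩, ?_⟩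
          show e (φ (ρ g v)) = ρ g (e (φ v))
          rw [hφ', heρ]) with h2 | h2
        · exfalso
          apply hne
          have h3 : w0 ∈ N ⊔ U' := by rw [hU'2.sup_eq_top]; trivial
          obtain ⟨a, ha, b, hb, hab⟩ := Submodule.mem_sup.1 h3
          have hb' : b ∈ W' := by
            have : b = w0 - a := by rw [← hab]; abel
            rw [this]
            exact W'.sub_mem hw0 ha.2
          have h4 : (e ∘ₗ φ) b ∈ Submodule.map (e ∘ₗ φ) (U' ⊓ W') := ⟨b, ⟨hb, hb'⟩, rfl⟩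
          rw [h2, Submodule.mem_bot] at h4
          have h5 : e (φ b) = 0 := h4
          have h6 : e (φ a) = 0 := ha.1
          rw [← hab, map_add, map_add, h5, h6, add_zero]
        · exact h2
      -- the isomorphism
      let f : (U' ⊓ W' : Submodule k V) →ₗ[k] W :=
        LinearMap.codRestrict W ((e ∘ₗ φ) ∘ₗ (U' ⊓ W').subtype) (fun v => he1 _)
      have hf : Function.Bijective f := by
        constructor
        · rw [← LinearMap.ker_eq_bot, LinearMap.ker_eq_bot']
          intro x hx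
          have h1 : e (φ x) = 0 := congrArg Subtype.val hx
          have h2 : (x : V) ∈ N := ⟨h1, x.2.2⟩
          have h3 := (Submodule.disjoint_def.1 hU'2.disjoint) x h2 x.2.1
          exact Subtype.ext h3
        · intro w
          have h1 : (w : V) ∈ Submodule.map (e ∘ₗ φ) (U' ⊓ W') := by rw [himg]; exact w.2
          obtain ⟨v, hv, hvw⟩ := h1
          exact ⟨⟨v, hv⟩, Subtype.ext hvw⟩
      let F : (U' ⊓ W' : Submodule k V) ≃ₗ[k] W := LinearEquiv.ofBijective f hf
      let ψ : W →ₗ[k] V := (U' ⊓ W').subtype ∘ₗ F.symm.toLinearMap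
      have hψe : ∀ w : W, e (φ (ψ w)) = w := by
        intro w
        have h1 : f (F.symm w) = w := F.apply_symm_apply w
        exact congrArg Subtype.val h1
      have hψ1 : ∀ w : W, ψ w ∈ (U' ⊓ W' : Submodule k V) := fun w => (F.symm w).2
      have hψ : ∀ g (w : W), ψ ⟨ρ g w, hW g w w.2⟩ = ρ g (ψ w) := by
        intro g w
        have hstab : ρ g (ψ w) ∈ (U' ⊓ W' : Submodule k V) :=
          ⟨hU'1 g _ (hψ1 w).1, hW's g _ (hψ1 w).2⟩
        have h1 : F.symm ⟨ρ g w, hW g w w.2⟩ = ⟨ρ g (ψ w), hstab⟩ := by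
          rw [LinearEquiv.symm_apply_eq]
          apply Subtype.ext
          show ρ g w = e (φ (ρ g (ψ w)))
          rw [hφ', heρ, hψe]
        exact congrArg Subtype.val h1
      have hψ0 : ∀ w : W, ψ w = 0 := by
        intro w
        exact (Submodule.disjoint_def.1 hcompl.disjoint) _ (hmult ψ hψ w) (hψ1 w).2
      apply hnot
      intro w hw
      have h1 := hψe ⟨w, hw⟩
      rw [hψ0, map_zero, map_zero] at h1
      have h2 : w = 0 := h1.symm
      rw [h2]
      exact I.zero_mem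
    ext v
    show e (φ v) = φ (e v)
    obtain ⟨a, ha, b, hb, rfl⟩ := hdec v
    rw [map_add, map_add, map_add, hφW' b hb, he2 _ (hφW a ha), he2 a ha, he3 b hb, add_zero,
      add_zero]

end GR95
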