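import Pool.Agent.LibGR95.Defs

/-! Row G5. A `p`-integral element times an integer prime to `p` is integral. The minimal polynomial `f` of `x` over `ℚ`
splits over `PadicAlgCl p`, all its roots are of the form `ρ x` (every root of `f` is the image of `x` under some embedding of
`ℚ(x)`, extended to `K`), of norm at most 1, so its coefficients (symmetric functions; `Polynomial` coefficient bounds,
`spectralValue`/`Multiset.prod`... or induct on products of linear factors in an ultrametric field) have `p`-adic norm at most 1: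
their denominators are prime to `p`. With `N` the product of the denominators, `N x` is integral
(`IsLocalization.exists_..`/`IsIntegral` from a monic polynomial: `N^n f(X/N)`; see also
`exists_integral_multiple`, `scaleRoots`). -/

namespace GR95

open NumberField Bru95

variable (p : ℕ) [Fact p.Prime] (K : Type*) [Field K] [NumberField K]

/-- the elements of norm at most one. -/
private def oo : Subring (PadicAlgCl p) where
  carrier := {x | ‖x‖ ≤ 1}
  mul_mem' := fun {a b} ha hb => by
    change ‖a * b‖ ≤ 1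
    rw [norm_mul]
    exact mul_le_one₀ ha (norm_nonneg _) hb
  one_mem' := by
    change ‖(1 : PadicAlgCl p)‖ ≤ 1
    rw [norm_one]
  add_mem' := fun {a b} ha hb => (PadicAlgCl.isNonarchimedean p a b).trans (max_le ha hb)
  zero_mem' := by
    change ‖(0 : PadicAlgCl p)‖ ≤ 1
    rw [norm_zero]
    exact zero_le_one
  neg_mem' := fun {a} ha => by
    change ‖-a‖ ≤ 1
    rw [norm_neg]
    exact ha

/-- the coefficients of a monic polynomial with small roots are small. -/
private theorem coeff_small (f : Polynomial (PadicAlgCl p)) (hf : f.Monic)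
    (h : ∀ r ∈ f.roots, ‖r‖ ≤ 1) (n : ℕ) : ‖f.coeff n‖ ≤ 1 := by
  have h1 : f ∈ Polynomial.lifts (oo p).subtype := by
    rw [(IsAlgClosed.splits f).eq_prod_roots_of_monic hf]
    refine Subsemiring.multiset_prod_mem _ _ fun g hg => ?_
    obtain ⟨r, hr, rfl⟩ := Multiset.mem_map.1 hg
    rw [Polynomial.mem_lifts]
    exact ⟨Polynomial.X - Polynomial.C (⟨r, h r hr⟩ : oo p), by simp⟩
  rw [Polynomial.lifts_iff_coeff_lifts] at h1
  obtain ⟨y, hy⟩ := h1 n
  rw [← hy]
  exact y.2

/-- a rational number which is a p-adic integer. -/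
private theorem den_prime (q : ℚ) (h : ‖(q : ℚ_[p])‖ ≤ 1) : ¬ p ∣ q.den := by
  intro hd
  have h1 : (q : ℚ_[p]) * (q.den : ℚ_[p]) = (q.num : ℚ_[p]) := by
    exact_mod_cast congrArg (fun t : ℚ => (t : ℚ_[p])) (Rat.mul_den_eq_num q)
  have h2 : ‖(q.num : ℚ_[p])‖ < 1 := by
    rw [← h1, norm_mul]
    calc ‖(q : ℚ_[p])‖ * ‖(q.den : ℚ_[p])‖ ≤ 1 * ‖(q.den : ℚ_[p])‖ :=
          mul_le_mul_of_nonneg_right h (norm_nonneg _)
      _ < 1 := by
          rw [one_mul]
          exact Padic.norm_natCast_lt_one_iff.2 hd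
  have h3 : (p : ℤ) ∣ q.num := Padic.norm_intCast_lt_one_iff.1 h2
  have h4 : p ∣ q.num.natAbs := Int.natCast_dvd.1 h3
  have h5 := Nat.dvd_gcd h4 hd
  rw [q.reduced.gcd_eq_one] at h5
  exact (Fact.out : p.Prime).one_lt.ne' (Nat.dvd_one.1 h5)

theorem exists_integral_of_norm_le_one (x : K) (hx : ∀ ρ : Emb p K, ‖ρ x‖ ≤ 1) :
    ∃ N : ℕ, 1 ≤ N ∧ ¬ p ∣ N ∧ IsIntegral ℤ ((N : K) * x) := by
  classical
  have hpp : p.Prime := Fact.out
  have hint : IsIntegral ℚ x := Algebra.IsIntegral.isIntegral x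
  have hmon : (minpoly ℚ x).Monic := minpoly.monic hint
  -- the coefficients
  have hc : ∀ n, ‖(((minpoly ℚ x).coeff n : ℚ) : ℚ_[p])‖ ≤ 1 := by
    intro n
    have h1 := coeff_small p ((minpoly ℚ x).map (algebraMap ℚ (PadicAlgCl p))) (hmon.map _) (fun r hr => by
      have h2 : r ∈ (minpoly ℚ x).rootSet (PadicAlgCl p) := by
        rw [Polynomial.rootSet, Finset.mem_coe, Multiset.mem_toFinset]
        exact hr
      rw [← Algebra.IsAlgebraic.range_eval_eq_rootSet_minpoly] at h2
      obtain ⟨ψ, rfl⟩ := h2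
      exact hx ψ.toRingHom) n
    rw [Polynomial.coeff_map] at h1
    have h3 : algebraMap ℚ (PadicAlgCl p) ((minpoly ℚ x).coeff n) =
        algebraMap ℚ_[p] (PadicAlgCl p) (((minpoly ℚ x).coeff n : ℚ) : ℚ_[p]) := by
      rw [map_ratCast, eq_ratCast]
    rw [h3, PadicAlgCl.norm_extends] at h1
    exact h1
  obtain ⟨N, hN⟩ : ∃ N : ℕ, N = ∏ n ∈ Finset.range ((minpoly ℚ x).natDegree + 1),
    ((minpoly ℚ x).coeff n).den := ⟨_, rfl⟩
  have hN0 : N ≠ 0 := by
    rw [hN, Finset.prod_ne_zero_iff]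
    exact fun n _ => Rat.den_nz _
  have hNp : ¬ p ∣ N := by
    rw [hN]
    intro h
    obtain ⟨n, -, h'⟩ := (Nat.prime_iff.1 hpp).exists_mem_finset_dvd h
    exact den_prime p _ (hc n) h'
  have hl : Polynomial.C ((N : ℤ) : ℚ) * minpoly ℚ x ∈ Polynomial.lifts (Int.castRingHom ℚ) := by
    rw [Polynomial.lifts_iff_coeff_lifts]
    intro n
    rw [Polynomial.coeff_C_mul]
    by_cases hn : n < (minpoly ℚ x).natDegree + 1
    · obtain ⟨k, hk⟩ : ((minpoly ℚ x).coeff n).den ∣ N := by
        rw [hN]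
        exact Finset.dvd_prod_of_mem _ (Finset.mem_range.2 hn)
      refine ⟨(k : ℤ) * ((minpoly ℚ x).coeff n).num, ?_⟩
      rw [hk]
      have h4 := Rat.mul_den_eq_num ((minpoly ℚ x).coeff n)
      simp only [eq_intCast]
      push_cast
      rw [← h4]
      ring
    · refine ⟨0, ?_⟩
      rw [Polynomial.coeff_eq_zero_of_natDegree_lt (by omega)]
      simp
  rw [Polynomial.mem_lifts] at hl
  obtain ⟨g, hg⟩ := hl
  have hlc : g.leadingCoeff = (N : ℤ) := by
    have h5 := Polynomial.leadingCoeff_map_of_injective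
      (f := Int.castRingHom ℚ) (Int.cast_injective) g
    rw [hg, Polynomial.leadingCoeff_mul, Polynomial.leadingCoeff_C, hmon.leadingCoeff,
      mul_one] at h5
    have h6 : ((N : ℤ) : ℚ) = ((g.leadingCoeff : ℤ) : ℚ) := h5
    exact_mod_cast h6.symm
  have hev : Polynomial.aeval x g = 0 := by
    have h7 : Polynomial.aeval x (g.map (Int.castRingHom ℚ)) = Polynomial.aeval x g := by
      have := Polynomial.aeval_map_algebraMap ℚ x g
      exact this
    rw [← h7, hg, map_mul, minpoly.aeval, mul_zero]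
  refine ⟨N, Nat.one_le_iff_ne_zero.2 hN0, hNp, ?_⟩
  have h8 := isIntegral_leadingCoeff_smul g x hev
  rw [hlc, zsmul_eq_mul] at h8
  simpa using h8

end GR95
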