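import Mathlib

/-! Row G31. `X^(p-1) - ω̄` is irreducible over `ZMod p` for a primitive `(p-1)`-th root of unity `ω` of `ℤ_[p]`: `ω̄` is a generator of
`(ZMod p)ˣ` (the reduction is injective on roots of unity of order prime to `p`; or: `ω̄` has order exactly `p - 1` because
`∏_{i=1}^{d-1}(1 - ω^i)`-type products are prime to `p`...), and Mathlib has a criterion for `X^n - C a`
(`X_pow_sub_C_irreducible_iff_forall_prime_of_odd`, `X_pow_sub_C_irreducible_of_...`, Kummer: `X_pow_sub_C_irreducible_of_primitive...`);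
Direct proof: if `α^(p-1) = ω̄` in an extension, then `α^p = ω̄ α`, so the Frobenius orbit of `α` is `ω̄^i α`, which has `p - 1` elements: the
minimal polynomial of `α` over `ZMod p` has degree at least `p - 1`. -/

namespace GR95

private theorem RIrr_toZMod_primitive (p : ℕ) [Fact p.Prime] (ω : ℤ_[p]) (hω : IsPrimitiveRoot ω (p - 1)) :
    IsPrimitiveRoot (PadicInt.toZMod ω) (p - 1) := by
  have hp : 1 < p := (Fact.out : p.Prime).one_lt
  refine ⟨?_, ?_⟩
  · rw [← map_pow, hω.pow_eq_one, map_one]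
  · intro l hl
    apply hω.dvd_of_pow_eq_one
    have h1 : (ω ^ l) ^ (p - 1) = 1 := by
      rw [← pow_mul, mul_comm, pow_mul, hω.pow_eq_one, one_pow]
    have h2 := geom_sum_mul (ω ^ l) (p - 1)
    rw [h1, sub_self] at h2
    rcases mul_eq_zero.1 h2 with h3 | h3
    · exfalso
      have h4 := congrArg PadicInt.toZMod h3
      rw [map_zero, map_sum] at h4
      simp_rw [map_pow, hl, one_pow] at h4
      rw [Finset.sum_const, Finset.card_range, nsmul_eq_mul, mul_one, Nat.cast_sub hp.le, Nat.cast_one,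
        ZMod.natCast_self, zero_sub] at h4
      exact one_ne_zero (neg_eq_zero.1 h4)
    · exact sub_eq_zero.1 h3

theorem irreducible_X_pow_sub (p : ℕ) [Fact p.Prime] (ω : ℤ_[p]) (hω : IsPrimitiveRoot ω (p - 1)) :
    Irreducible (Polynomial.X ^ (p - 1) - Polynomial.C (PadicInt.toZMod ω) : Polynomial (ZMod p)) := by
  have hp : 1 < p := (Fact.out : p.Prime).one_lt
  have hp1 : 0 < p - 1 := by omega
  have ha := RIrr_toZMod_primitive p ω hω
  set a : ZMod p := PadicInt.toZMod ω with ha_def
  have ha0 : a ≠ 0 := by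
    intro h
    have h1 := ha.pow_eq_one
    rw [h, zero_pow hp1.ne'] at h1
    exact zero_ne_one h1
  have hdeg : (Polynomial.X ^ (p - 1) - Polynomial.C a : Polynomial (ZMod p)).natDegree = p - 1 :=
    Polynomial.natDegree_X_pow_sub_C
  have hf0 : (Polynomial.X ^ (p - 1) - Polynomial.C a : Polynomial (ZMod p)) ≠ 0 :=
    Polynomial.X_pow_sub_C_ne_zero hp1 a
  have hnu : ¬ IsUnit (Polynomial.X ^ (p - 1) - Polynomial.C a : Polynomial (ZMod p)) := by
    intro h
    have h1 := Polynomial.natDegree_eq_zero_of_isUnit h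
    rw [hdeg] at h1
    omega
  obtain ⟨g, hg, hgf⟩ := WfDvdMonoid.exists_irreducible_factor hnu hf0
  have : Fact (Irreducible g) := ⟨hg⟩
  have hg0 : g ≠ 0 := hg.ne_zero
  let α : AdjoinRoot g := AdjoinRoot.root g
  have hroot : α ^ (p - 1) = algebraMap (ZMod p) (AdjoinRoot g) a := by
    obtain ⟨h, hh⟩ := hgf
    have h1 : Polynomial.aeval α (Polynomial.X ^ (p - 1) - Polynomial.C a : Polynomial (ZMod p)) = 0 := by
      rw [hh, map_mul]
      have h2 : Polynomial.aeval α g = 0 := by
        simp only [α]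
        rw [AdjoinRoot.aeval_eq, AdjoinRoot.mk_self]
      rw [h2, zero_mul]
    rw [map_sub, map_pow, Polynomial.aeval_X, Polynomial.aeval_C, sub_eq_zero] at h1
    exact h1
  have hα0 : α ≠ 0 := by
    intro h
    rw [h, zero_pow hp1.ne'] at hroot
    have h1 := hroot.symm
    rw [map_eq_zero] at h1
    exact ha0 h1
  have hαp : α ^ p = algebraMap (ZMod p) (AdjoinRoot g) a * α := by
    have h1 : α ^ p = α ^ (p - 1 + 1) := by
      congr 1
      omega
    rw [h1, pow_succ, hroot]
  have hap : a ^ p = a := ZMod.pow_card a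
  have hfrob : ∀ j : ℕ, α ^ (p ^ j) = (algebraMap (ZMod p) (AdjoinRoot g) a) ^ j * α := by
    intro j
    induction j with
    | zero => simp
    | succ j ih =>
      rw [pow_succ, pow_mul, ih, mul_pow, hαp, ← pow_mul, mul_comm j p, pow_mul, ← map_pow, hap, pow_succ]
      ring
  have hfr : Module.finrank (ZMod p) (AdjoinRoot g) = g.natDegree := by
    rw [(AdjoinRoot.powerBasis hg0).finrank, AdjoinRoot.powerBasis_dim]
  have : Module.Finite (ZMod p) (AdjoinRoot g) := (AdjoinRoot.powerBasis hg0).finite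
  have : Finite (AdjoinRoot g) := Module.finite_of_finite (ZMod p)
  have : Fintype (AdjoinRoot g) := Fintype.ofFinite _
  have hcard : Fintype.card (AdjoinRoot g) = p ^ g.natDegree := by
    rw [Module.card_eq_pow_finrank (K := ZMod p), hfr, ZMod.card]
  have h1 : α ^ (p ^ g.natDegree) = α := by
    rw [← hcard]
    exact FiniteField.pow_card α
  rw [hfrob] at h1
  have h2 : (algebraMap (ZMod p) (AdjoinRoot g) a) ^ g.natDegree = 1 := by
    have h3 : ((algebraMap (ZMod p) (AdjoinRoot g) a) ^ g.natDegree - 1) * α = 0 := by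
      rw [sub_mul, h1, one_mul, sub_self]
    exact sub_eq_zero.1 ((mul_eq_zero.1 h3).resolve_right hα0)
  rw [← map_pow, ← map_one (algebraMap (ZMod p) (AdjoinRoot g))] at h2
  have h4 : a ^ g.natDegree = 1 := (algebraMap (ZMod p) (AdjoinRoot g)).injective h2
  have h5 : p - 1 ∣ g.natDegree := ha.dvd_of_pow_eq_one _ h4
  have h6 : p - 1 ≤ g.natDegree := Nat.le_of_dvd hg.natDegree_pos h5
  obtain ⟨h, hh⟩ := hgf
  have hh0 : h ≠ 0 := by
    intro h0
    rw [h0, mul_zero] at hh
    exact hf0 hh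
  have h7 : h.natDegree = 0 := by
    have h8 := congrArg Polynomial.natDegree hh
    rw [hdeg, Polynomial.natDegree_mul hg0 hh0] at h8
    omega
  have h9 : IsUnit h := by
    rw [Polynomial.eq_C_of_natDegree_eq_zero h7]
    refine Polynomial.isUnit_C.2 (IsUnit.mk0 _ ?_)
    intro h10
    apply hh0
    rw [Polynomial.eq_C_of_natDegree_eq_zero h7, h10, map_zero]
  rw [hh]
  exact (irreducible_mul_isUnit h9).2 hg

/-- Such an `ω` exists (Teichmüller). -/
theorem exists_primitive_root_padicInt (p : ℕ) [Fact p.Prime] :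
    ∃ ω : ℤ_[p], IsPrimitiveRoot ω (p - 1) := by
  have hp : 1 < p := (Fact.out : p.Prime).one_lt
  have hp1 : 0 < p - 1 := by omega
  obtain ⟨g, hg⟩ := IsCyclic.exists_generator (α := (ZMod p)ˣ)
  have hord : orderOf g = p - 1 := by
    rw [orderOf_eq_card_of_forall_mem_zpowers hg, Nat.card_eq_fintype_card, ZMod.card_units]
  obtain ⟨a₀, ha₀⟩ := ZMod.ringHom_surjective (PadicInt.toZMod (p := p)) (g : ZMod p)
  have hker : ∀ x : ℤ_[p], x ∈ IsLocalRing.maximalIdeal ℤ_[p] ↔ PadicInt.toZMod x = 0 := by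
    intro x
    rw [← PadicInt.ker_toZMod, RingHom.mem_ker]
  have hgp : (g : ZMod p) ^ (p - 1) = 1 := by
    rw [← hord, ← Units.val_pow_eq_pow_val, pow_orderOf_eq_one, Units.val_one]
  let f : Polynomial ℤ_[p] := Polynomial.X ^ (p - 1) - Polynomial.C 1
  have hf : f.Monic := Polynomial.monic_X_pow_sub_C 1 hp1.ne'
  have hev : f.eval a₀ ∈ IsLocalRing.maximalIdeal ℤ_[p] := by
    rw [hker]
    simp only [f]
    rw [Polynomial.eval_sub, Polynomial.eval_pow, Polynomial.eval_X, Polynomial.eval_C, map_sub, map_pow, ha₀,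
      map_one, hgp, sub_self]
  have hder : IsUnit (Ideal.Quotient.mk (IsLocalRing.maximalIdeal ℤ_[p]) (f.derivative.eval a₀)) := by
    apply IsUnit.map
    by_contra hnu
    have h1 : f.derivative.eval a₀ ∈ IsLocalRing.maximalIdeal ℤ_[p] := (IsLocalRing.mem_maximalIdeal _).2 hnu
    rw [hker] at h1
    simp only [f] at h1
    rw [Polynomial.derivative_sub, Polynomial.derivative_X_pow, Polynomial.derivative_C, sub_zero,
      Polynomial.eval_mul, Polynomial.eval_C, Polynomial.eval_pow, Polynomial.eval_X, map_mul, map_pow, ha₀,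
      map_natCast, Nat.cast_sub hp.le, Nat.cast_one, ZMod.natCast_self, zero_sub] at h1
    have h2 := mul_eq_zero.1 h1
    rcases h2 with h2 | h2
    · exact one_ne_zero (neg_eq_zero.1 h2)
    · exact g.ne_zero (eq_zero_of_pow_eq_zero h2)
  obtain ⟨a, ha, haa⟩ := HenselianRing.is_henselian f hf a₀ hev hder
  refine ⟨a, ?_, ?_⟩
  · have h1 : f.eval a = 0 := ha
    simp only [f] at h1
    rw [Polynomial.eval_sub, Polynomial.eval_pow, Polynomial.eval_X, Polynomial.eval_C, sub_eq_zero] at h1
    exact h1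
  · intro l hl
    rw [hker, map_sub, ha₀, sub_eq_zero] at haa
    have h1 : (g : ZMod p) ^ l = 1 := by
      rw [← haa, ← map_pow, hl, map_one]
    have h2 : g ^ l = 1 := by
      apply Units.ext
      rw [Units.val_pow_eq_pow_val, h1, Units.val_one]
    rw [← hord]
    exact orderOf_dvd_of_pow_eq_one h2

end GR95
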