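import Pool.Agent.LibGR95.RNorm2
import Pool.Agent.LibGR95.RCC

/-! Row G15. The projection on `Y⁻`: `P(σ,τ) = ([σ ~ τ] - [σ c ~ τ]) / (2 n_τ)`, `n_τ` the number of embeddings in the place of `τ`
(`n_(τ c) = n_τ`, `σ c ~ τ ↔ σ ~ τ c`, `n` constant on places, `n_(τ g) = n_τ`). -/

namespace GR95

open NumberField Bru95

variable (p : ℕ) [Fact p.Prime] (K : Type*) [Field K] [NumberField K] [IsCMField K]

open Classical in
private noncomputable def RProj_i (σ τ : Emb p K) : ℚ_[p] := if SamePlace p K σ τ then 1 else 0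

private noncomputable def RProj_n (τ : Emb p K) : ℚ_[p] := ∑ ρ : Emb p K, RProj_i p K ρ τ

private noncomputable def RProj_P (σ τ : Emb p K) : ℚ_[p] :=
  (RProj_i p K σ τ - RProj_i p K (σ.comp (cc K)) τ) / (2 * RProj_n p K τ)

private theorem RProj_ic {σ τ σ' τ' : Emb p K} (h : SamePlace p K σ τ ↔ SamePlace p K σ' τ') :
    RProj_i p K σ τ = RProj_i p K σ' τ' := by
  unfold RProj_i
  by_cases h1 : SamePlace p K σ τ
  · rw [if_pos h1, if_pos (h.1 h1)]
  · rw [if_neg h1, if_neg fun h2 => h1 (h.2 h2)]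

private theorem RProj_cc (σ : Emb p K) : (σ.comp (cc K)).comp (cc K) = σ := by
  rw [RingHom.comp_assoc, cc_comp_cc K, RingHom.comp_id]

private theorem RProj_comp_iff {g g' : K →+* K} (h : g.comp g' = RingHom.id K) {σ τ : Emb p K} :
    SamePlace p K (σ.comp g) (τ.comp g) ↔ SamePlace p K σ τ := by
  constructor
  · intro h1
    have h2 := samePlace_comp p K g' h1
    rwa [RingHom.comp_assoc, RingHom.comp_assoc, h, RingHom.comp_id, RingHom.comp_id] at h2
  · exact samePlace_comp p K g

private theorem RProj_n_same {τ τ' : Emb p K} (h : SamePlace p K τ τ') :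
    RProj_n p K τ = RProj_n p K τ' := by
  unfold RProj_n
  refine Finset.sum_congr rfl fun ρ _ => ?_
  have ha : SamePlace p K ρ τ ↔ SamePlace p K ρ τ' :=
    ⟨fun h' => samePlace_trans p K h' h, fun h' => samePlace_trans p K h' (samePlace_symm p K h)⟩
  exact RProj_ic p K ha

private theorem RProj_n_comp {g g' : K →+* K} (h : g.comp g' = RingHom.id K)
    (h' : g'.comp g = RingHom.id K) (τ : Emb p K) :
    RProj_n p K (τ.comp g) = RProj_n p K τ := by
  unfold RProj_n
  refine Finset.sum_nbij' (fun ρ => ρ.comp g') (fun ρ => ρ.comp g) ?_ ?_ ?_ ?_ ?_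
  · intro ρ _
    exact Finset.mem_univ _
  · intro ρ _
    exact Finset.mem_univ _
  · intro ρ _
    rw [RingHom.comp_assoc, h', RingHom.comp_id]
  · intro ρ _
    rw [RingHom.comp_assoc, h, RingHom.comp_id]
  · intro ρ _
    have h1 : ρ = (ρ.comp g').comp g := by rw [RingHom.comp_assoc, h', RingHom.comp_id]
    have h2 : SamePlace p K ρ (τ.comp g) ↔ SamePlace p K (ρ.comp g') τ := by
      conv_lhs => rw [h1]
      exact RProj_comp_iff p K h
    exact RProj_ic p K h2

private theorem RProj_n_ne (τ : Emb p K) : RProj_n p K τ ≠ 0 := by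
  classical
  have h1 : RProj_n p K τ =
      ((∑ ρ : Emb p K, if SamePlace p K ρ τ then 1 else 0 : ℕ) : ℚ_[p]) := by
    unfold RProj_n RProj_i
    push_cast
    rfl
  rw [h1, Nat.cast_ne_zero]
  intro h2
  have h3 := Finset.sum_eq_zero_iff.1 h2 τ (Finset.mem_univ _)
  rw [if_pos (samePlace_refl p K τ)] at h3
  exact one_ne_zero h3

theorem exists_proj : ∃ P : Matrix (Emb p K) (Emb p K) ℚ_[p],
    (∀ G : Subgroup (K ≃ₐ[ℚ] K), P ∈ Bm p K ℚ_[p] G) ∧
    (∀ v, P.mulVec v ∈ Ym p K) ∧ (∀ f ∈ Ym p K, P.mulVec f = f) ∧ P.transpose = P := by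
  have h3 : ∀ σ τ : Emb p K, RProj_P p K (σ.comp (cc K)) τ = - RProj_P p K σ τ := by
    intro σ τ
    unfold RProj_P
    rw [RProj_cc p K σ]
    ring
  have h1 : ∀ σ σ' τ : Emb p K, SamePlace p K σ σ' → RProj_P p K σ τ = RProj_P p K σ' τ := by
    intro σ σ' τ h
    unfold RProj_P
    have ha : SamePlace p K σ τ ↔ SamePlace p K σ' τ :=
      ⟨fun h' => samePlace_trans p K (samePlace_symm p K h) h', fun h' => samePlace_trans p K h h'⟩
    have hc := samePlace_comp p K (cc K) h
    have hb : SamePlace p K (σ.comp (cc K)) τ ↔ SamePlace p K (σ'.comp (cc K)) τ :=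
      ⟨fun h' => samePlace_trans p K (samePlace_symm p K hc) h', fun h' => samePlace_trans p K hc h'⟩
    rw [RProj_ic p K ha, RProj_ic p K hb]
  refine ⟨fun σ τ => RProj_P p K σ τ, ?_, ?_, ?_, ?_⟩
  · intro G
    refine ⟨?_, h1, ?_, h3, ?_⟩
    · intro g _ σ τ
      have hg1 : (g : K →+* K).comp ((g.symm : K ≃ₐ[ℚ] K) : K →+* K) = RingHom.id K := by
        ext x
        exact g.apply_symm_apply x
      have hg2 : ((g.symm : K ≃ₐ[ℚ] K) : K →+* K).comp (g : K →+* K) = RingHom.id K := by
        ext x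
        exact g.symm_apply_apply x
      have hcomm : (σ.comp (g : K →+* K)).comp (cc K) = (σ.comp (cc K)).comp (g : K →+* K) := by
        rw [RingHom.comp_assoc, RingHom.comp_assoc, cc_comm K g]
      change RProj_P p K (σ.comp (g : K →+* K)) (τ.comp (g : K →+* K)) = RProj_P p K σ τ
      unfold RProj_P
      rw [hcomm, RProj_n_comp p K hg1 hg2 τ, RProj_ic p K (RProj_comp_iff p K hg1 (σ := σ) (τ := τ)),
        RProj_ic p K (RProj_comp_iff p K hg1 (σ := σ.comp (cc K)) (τ := τ))]
    · intro σ τ τ' h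
      change RProj_P p K σ τ = RProj_P p K σ τ'
      unfold RProj_P
      have ha : ∀ σ : Emb p K, SamePlace p K σ τ ↔ SamePlace p K σ τ' := fun σ =>
        ⟨fun h' => samePlace_trans p K h' h, fun h' => samePlace_trans p K h' (samePlace_symm p K h)⟩
      rw [RProj_n_same p K h, RProj_ic p K (ha σ), RProj_ic p K (ha (σ.comp (cc K)))]
    · intro σ τ
      have hcc := cc_comp_cc K
      change RProj_P p K σ (τ.comp (cc K)) = - RProj_P p K σ τ
      unfold RProj_P
      have ha : SamePlace p K σ (τ.comp (cc K)) ↔ SamePlace p K (σ.comp (cc K)) τ := by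
        rw [← RProj_comp_iff p K hcc (σ := σ), RProj_cc p K τ]
      have hb : SamePlace p K (σ.comp (cc K)) (τ.comp (cc K)) ↔ SamePlace p K σ τ :=
        RProj_comp_iff p K hcc
      rw [RProj_n_comp p K hcc hcc τ, RProj_ic p K ha, RProj_ic p K hb]
      ring
  · intro v
    refine ⟨?_, ?_⟩
    · intro σ τ h
      change ∑ ρ, RProj_P p K σ ρ * v ρ = ∑ ρ, RProj_P p K τ ρ * v ρ
      exact Finset.sum_congr rfl fun ρ _ => by rw [h1 σ τ ρ h]
    · intro σ
      change ∑ ρ, RProj_P p K (σ.comp (cc K)) ρ * v ρ = - ∑ ρ, RProj_P p K σ ρ * v ρ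
      rw [← Finset.sum_neg_distrib]
      exact Finset.sum_congr rfl fun ρ _ => by rw [h3 σ ρ, neg_mul]
  · intro f hf
    funext σ
    have hs : ∀ ρ : Emb p K, ∑ τ, RProj_i p K ρ τ / (2 * RProj_n p K τ) * f τ = f ρ / 2 := by
      intro ρ
      have h4 : ∀ τ : Emb p K, RProj_i p K ρ τ / (2 * RProj_n p K τ) * f τ =
          RProj_i p K τ ρ * (f ρ / (2 * RProj_n p K ρ)) := by
        intro τ
        by_cases h : SamePlace p K ρ τ
        · have h' := samePlace_symm p K h
          simp only [RProj_i, if_pos h, if_pos h', hf.1 ρ τ h, RProj_n_same p K h]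
          ring
        · have h' : ¬ SamePlace p K τ ρ := fun h' => h (samePlace_symm p K h')
          simp only [RProj_i, if_neg h, if_neg h', zero_div, zero_mul]
      rw [Finset.sum_congr rfl fun τ _ => h4 τ, ← Finset.sum_mul]
      have h5 : ∑ τ, RProj_i p K τ ρ = RProj_n p K ρ := rfl
      have h6 := RProj_n_ne p K ρ
      rw [h5]
      field_simp
    have h7 : ∀ τ : Emb p K, RProj_P p K σ τ * f τ = RProj_i p K σ τ / (2 * RProj_n p K τ) * f τ -
        RProj_i p K (σ.comp (cc K)) τ / (2 * RProj_n p K τ) * f τ := by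
      intro τ
      unfold RProj_P
      ring
    change ∑ τ, RProj_P p K σ τ * f τ = f σ
    rw [Finset.sum_congr rfl fun τ _ => h7 τ, Finset.sum_sub_distrib, hs σ, hs (σ.comp (cc K)),
      hf.2 σ]
    ring
  · funext σ τ
    have hcc := cc_comp_cc K
    have ha : SamePlace p K (τ.comp (cc K)) σ ↔ SamePlace p K (σ.comp (cc K)) τ := by
      rw [← RProj_comp_iff p K hcc (σ := τ.comp (cc K)), RProj_cc p K τ]
      exact ⟨fun h => samePlace_symm p K h, fun h => samePlace_symm p K h⟩
    have hb : SamePlace p K τ σ ↔ SamePlace p K σ τ :=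
      ⟨fun h => samePlace_symm p K h, fun h => samePlace_symm p K h⟩
    change RProj_P p K τ σ = RProj_P p K σ τ
    unfold RProj_P
    rw [RProj_ic p K ha, RProj_ic p K hb]
    by_cases h : SamePlace p K σ τ
    · rw [RProj_n_same p K h]
    · by_cases h' : SamePlace p K (σ.comp (cc K)) τ
      · have h5 : RProj_n p K σ = RProj_n p K τ := by
          rw [← RProj_n_comp p K hcc hcc σ]
          exact RProj_n_same p K h'
        rw [h5]
      · simp only [RProj_i, if_neg h, if_neg h', sub_zero, zero_div]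

end GR95
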