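import Pool.Agent.LibGR95.RRep
import Pool.Agent.LibGR95.RProj

/-! Row G17. The matrix of `e ∘ P`. `M(σ,τ) = (e (P δ_τ))(σ)`, so `M.mulVec v = e (P v)`. `M ∈ Bm`: it is constant on places and
anti-invariant in `σ` because `e(..) ∈ Y⁻`, and in `τ` because `P δ_τ` (the `τ`-th column of `P ∈ Bm`) is; `G`-invariance: the
`(τ g)`-th column of `P`, moved by `g`, is the `τ`-th column (`P ∈ Bm`), and `e` commutes with `rep`. `M M = M` as `P = id` on `Y⁻` and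
`e e = e`. For `a ∈ Bm ℚ G` (mapped to `ℚ_[p]`): the columns of `a` are in `Y⁻`, so `a` maps everything into `Y⁻` and induces an equivariant
endomorphism `φ_a` of `Y⁻`; the rows of `a` are in `Y⁻` and `P` is symmetric, so `a P = a`
(`(a P)(σ, .) = P (a(σ, .)) = a(σ, .)`). Hence `M a = e φ_a` and `a M = φ_a e P`, `M a v = e (a v) = e (a P v) = e φ_a (P v) = φ_a e (P v) = a M v`. -/

namespace GR95

open NumberField Bru95

variable (p : ℕ) [Fact p.Prime] (K : Type*) [Field K] [NumberField K] [IsCMField K]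

private theorem RMat_bij (g : K ≃ₐ[ℚ] K) :
    Function.Bijective (fun τ : Emb p K => τ.comp (g : K →+* K)) := by
  constructor
  · intro τ τ' h
    ext x
    have h1 := congrArg (fun u : Emb p K => u (g.symm x)) h
    simpa using h1
  · intro τ
    refine ⟨τ.comp (g.symm : K →+* K), ?_⟩
    ext x
    simp

private theorem RMat_equi {k : Type*} [CommRing k] {G : Subgroup (K ≃ₐ[ℚ] K)}
    {A : Matrix (Emb p K) (Emb p K) k} (hA : A ∈ Bm p K k G) (g : K ≃ₐ[ℚ] K) (hg : g ∈ G)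
    (v : Emb p K → k) :
    act p K k (g : K →+* K) (A.mulVec v) = A.mulVec (act p K k (g : K →+* K) v) := by
  funext σ
  change ∑ τ, A (σ.comp (g : K →+* K)) τ * v τ = ∑ τ, A σ τ * v (τ.comp (g : K →+* K))
  rw [← (RMat_bij p K g).sum_comp (fun τ => A (σ.comp (g : K →+* K)) τ * v τ)]
  refine Finset.sum_congr rfl fun τ _ => ?_
  rw [hA.1 g hg σ τ]

private theorem RMat_range {G : Subgroup (K ≃ₐ[ℚ] K)}
    {A : Matrix (Emb p K) (Emb p K) ℚ_[p]} (hA : A ∈ Bm p K ℚ_[p] G) (v : Emb p K → ℚ_[p]) :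
    A.mulVec v ∈ Ym p K := by
  refine ⟨fun σ τ h => ?_, fun σ => ?_⟩
  · change ∑ ρ, A σ ρ * v ρ = ∑ ρ, A τ ρ * v ρ
    exact Finset.sum_congr rfl fun ρ _ => by rw [hA.2.1 σ τ ρ h]
  · change ∑ ρ, A (σ.comp (cc K)) ρ * v ρ = -∑ ρ, A σ ρ * v ρ
    rw [← Finset.sum_neg_distrib]
    exact Finset.sum_congr rfl fun ρ _ => by rw [hA.2.2.2.1 σ ρ]; ring

private theorem RMat_map {G : Subgroup (K ≃ₐ[ℚ] K)}
    {a : Matrix (Emb p K) (Emb p K) ℚ} (ha : a ∈ Bm p K ℚ G) :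
    a.map (algebraMap ℚ ℚ_[p]) ∈ Bm p K ℚ_[p] G := by
  refine ⟨fun g hg σ τ => ?_, fun σ σ' τ h => ?_, fun σ τ τ' h => ?_, fun σ τ => ?_,
    fun σ τ => ?_⟩
  · rw [Matrix.map_apply, Matrix.map_apply, ha.1 g hg]
  · rw [Matrix.map_apply, Matrix.map_apply, ha.2.1 σ σ' τ h]
  · rw [Matrix.map_apply, Matrix.map_apply, ha.2.2.1 σ τ τ' h]
  · rw [Matrix.map_apply, Matrix.map_apply, ha.2.2.2.1 σ τ, map_neg]
  · rw [Matrix.map_apply, Matrix.map_apply, ha.2.2.2.2 σ τ, map_neg]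

theorem exists_matrix (G : Subgroup (K ≃ₐ[ℚ] K)) (e : Ym p K →ₗ[ℚ_[p]] Ym p K)
    (hidem : e ∘ₗ e = e) (hG : ∀ g : G, e ∘ₗ rep p K G g = rep p K G g ∘ₗ e)
    (hcent : ∀ φ : Ym p K →ₗ[ℚ_[p]] Ym p K, (∀ g : G, φ ∘ₗ rep p K G g = rep p K G g ∘ₗ φ) →
      e ∘ₗ φ = φ ∘ₗ e) :
    ∃ M : Matrix (Emb p K) (Emb p K) ℚ_[p], M ∈ Bm p K ℚ_[p] G ∧ M * M = M ∧
      (∀ a ∈ Bm p K ℚ G, M * a.map (algebraMap ℚ ℚ_[p]) = a.map (algebraMap ℚ ℚ_[p]) * M) ∧
      ∀ f : Ym p K, M.mulVec (f : Emb p K → ℚ_[p]) = (e f : Emb p K → ℚ_[p]) := by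
  classical
  obtain ⟨P, hPB, hPY, hPid, hPt⟩ := exists_proj p K
  obtain ⟨PL, hPL⟩ : ∃ PL : (Emb p K → ℚ_[p]) →ₗ[ℚ_[p]] Ym p K,
      ∀ v, (PL v : Emb p K → ℚ_[p]) = P.mulVec v :=
    ⟨(Matrix.mulVecLin P).codRestrict (Ym p K) (fun v => hPY v), fun v => rfl⟩
  have hPLf : ∀ f : Ym p K, PL (f : Emb p K → ℚ_[p]) = f := fun f =>
    Subtype.ext (by rw [hPL]; exact hPid f f.2)
  obtain ⟨E, hE⟩ : ∃ E : (Emb p K → ℚ_[p]) →ₗ[ℚ_[p]] (Emb p K → ℚ_[p]),
      ∀ v, E v = (e (PL v) : Emb p K → ℚ_[p]) :=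
    ⟨(Ym p K).subtype ∘ₗ e ∘ₗ PL, fun v => rfl⟩
  obtain ⟨M, hM⟩ : ∃ M : Matrix (Emb p K) (Emb p K) ℚ_[p], ∀ v, M.mulVec v = E v :=
    ⟨LinearMap.toMatrix' E, fun v => LinearMap.toMatrix'_mulVec E v⟩
  have hentry : ∀ σ τ, M σ τ = E (Pi.single τ 1) σ := by
    intro σ τ
    rw [← hM, Matrix.mulVec_single_one]
    rfl
  have hext : ∀ A B : Matrix (Emb p K) (Emb p K) ℚ_[p], (∀ v, A.mulVec v = B.mulVec v) →
      A = B := by
    intro A B h
    ext σ τ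
    have h1 := congrFun (h (Pi.single τ 1)) σ
    rw [Matrix.mulVec_single_one, Matrix.mulVec_single_one] at h1
    exact h1
  have hPsingle : ∀ τ, P.mulVec (Pi.single τ 1) = fun σ => P σ τ := by
    intro τ
    rw [Matrix.mulVec_single_one]
    rfl
  have hPLequi : ∀ (g : G) (v : Emb p K → ℚ_[p]),
      rep p K G g (PL v) = PL (act p K ℚ_[p] ((g : K ≃ₐ[ℚ] K) : K →+* K) v) := by
    intro g v
    apply Subtype.ext
    rw [hPL]
    rw [← RMat_equi p K (hPB G) (g : K ≃ₐ[ℚ] K) g.2 v, ← hPL]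
    rfl
  have hEequi : ∀ (g : G) (v : Emb p K → ℚ_[p]),
      act p K ℚ_[p] ((g : K ≃ₐ[ℚ] K) : K →+* K) (E v) =
        E (act p K ℚ_[p] ((g : K ≃ₐ[ℚ] K) : K →+* K) v) := by
    intro g v
    rw [hE, hE, ← hPLequi]
    have h1 := LinearMap.congr_fun (hG g) (PL v)
    rw [LinearMap.comp_apply, LinearMap.comp_apply] at h1
    rw [h1]
    rfl
  refine ⟨M, ⟨?_, ?_, ?_, ?_, ?_⟩, ?_, ?_, ?_⟩
  · intro g hg σ τ
    rw [hentry, hentry]
    have h1 : act p K ℚ_[p] (g : K →+* K) (Pi.single (τ.comp (g : K →+* K)) 1) =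
        Pi.single τ 1 := by
      funext ρ
      change (Pi.single (τ.comp (g : K →+* K)) (1 : ℚ_[p]) : Emb p K → ℚ_[p])
        (ρ.comp (g : K →+* K)) = _
      by_cases h : ρ = τ
      · rw [h, Pi.single_eq_same, Pi.single_eq_same]
      · rw [Pi.single_eq_of_ne h, Pi.single_eq_of_ne]
        exact fun h2 => h ((RMat_bij p K g).1 h2)
    have h2 := congrFun (hEequi ⟨g, hg⟩ (Pi.single (τ.comp (g : K →+* K)) 1)) σ
    change E (Pi.single (τ.comp (g : K →+* K)) 1) (σ.comp (g : K →+* K)) = E _ σ at h2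
    rw [h2]
    exact congrArg (fun u => E u σ) h1
  · intro σ σ' τ h
    rw [hentry, hentry, hE]
    exact (e (PL (Pi.single τ 1))).2.1 σ σ' h
  · intro σ τ τ' h
    rw [hentry, hentry, hE, hE]
    have h1 : PL (Pi.single τ 1) = PL (Pi.single τ' 1) := by
      apply Subtype.ext
      rw [hPL, hPL, hPsingle, hPsingle]
      funext ρ
      exact (hPB G).2.2.1 ρ τ τ' h
    rw [h1]
  · intro σ τ
    rw [hentry, hentry, hE]
    exact (e (PL (Pi.single τ 1))).2.2 σ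
  · intro σ τ
    rw [hentry, hentry, hE, hE]
    have h1 : PL (Pi.single (τ.comp (cc K)) 1) = - PL (Pi.single τ 1) := by
      apply Subtype.ext
      rw [hPL, Submodule.coe_neg, hPL, hPsingle, hPsingle]
      funext ρ
      exact (hPB G).2.2.2.2 ρ τ
    rw [h1, map_neg]
    rfl
  · apply hext
    intro v
    rw [← Matrix.mulVec_mulVec, hM, hM, hE (E v), hE v, hPLf]
    have h1 := LinearMap.congr_fun hidem (PL v)
    rw [LinearMap.comp_apply] at h1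
    rw [h1]
  · intro a ha
    have hA := RMat_map p K ha
    obtain ⟨A, hAdef⟩ : ∃ A, A = a.map (algebraMap ℚ ℚ_[p]) := ⟨_, rfl⟩
    rw [← hAdef] at hA ⊢
    obtain ⟨φ, hφ⟩ : ∃ φ : Ym p K →ₗ[ℚ_[p]] Ym p K,
        ∀ f, (φ f : Emb p K → ℚ_[p]) = A.mulVec (f : Emb p K → ℚ_[p]) :=
      ⟨((Matrix.mulVecLin A).codRestrict (Ym p K) (fun v => RMat_range p K hA v)) ∘ₗ
        (Ym p K).subtype, fun f => rfl⟩
    have hφG : ∀ g : G, φ ∘ₗ rep p K G g = rep p K G g ∘ₗ φ := by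
      intro g
      apply LinearMap.ext
      intro f
      apply Subtype.ext
      rw [LinearMap.comp_apply, LinearMap.comp_apply, hφ]
      have h1 := RMat_equi p K hA (g : K ≃ₐ[ℚ] K) g.2 (f : Emb p K → ℚ_[p])
      rw [← hφ] at h1
      exact h1.symm
    have hcomm := hcent φ hφG
    -- `a P = a`
    have hAP : ∀ v, A.mulVec (P.mulVec v) = A.mulVec v := by
      intro v
      rw [Matrix.mulVec_mulVec]
      congr 1
      ext σ τ
      rw [Matrix.mul_apply]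
      have h1 : (fun ρ => A σ ρ) ∈ Ym p K :=
        ⟨fun ρ ρ' h => hA.2.2.1 σ ρ ρ' h, fun ρ => hA.2.2.2.2 σ ρ⟩
      have h2 := congrFun (hPid _ h1) τ
      change ∑ ρ, P τ ρ * A σ ρ = A σ τ at h2
      rw [← h2]
      refine Finset.sum_congr rfl fun ρ _ => ?_
      have h3 : P ρ τ = P τ ρ := by
        have h4 := congrFun (congrFun hPt τ) ρ
        exact h4
      rw [h3]
      ring
    apply hext
    intro v
    rw [← Matrix.mulVec_mulVec, ← Matrix.mulVec_mulVec, hM, hM, hE v]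
    have h1 : A.mulVec v = (φ (PL v) : Emb p K → ℚ_[p]) := by
      rw [hφ, hPL, hAP]
    rw [h1, hE, hPLf]
    have h2 := LinearMap.congr_fun hcomm (PL v)
    rw [LinearMap.comp_apply, LinearMap.comp_apply] at h2
    rw [h2, hφ]
  · intro f
    rw [hM, hE, hPLf]

end GR95
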