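import Mathlib

/-! Row G14. Rational subspaces. If all `ℚ`-linear projections of the matrix `e` lie in the rational space `B`, then `e` is in the
`k`-span of `B`: expand the finitely many entries in a `ℚ`-basis `(u_t)` of `k`: `e = ∑_t u_t e_t` (finite sum) with
`e_t = e.map (coordinate t) ∈ B`. -/

namespace GR95

theorem mem_span_of_proj {k : Type*} [Field k] [CharZero k] {X : Type*} [Finite X]
    (B : Submodule ℚ (Matrix X X ℚ)) (e : Matrix X X k)
    (h : ∀ π : k →ₗ[ℚ] ℚ, e.map π ∈ B) :
    e ∈ Submodule.span k ((fun a : Matrix X X ℚ => a.map (algebraMap ℚ k)) '' B) := by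
  classical
  haveI := Fintype.ofFinite X
  set b := Module.Basis.ofVectorSpace ℚ k with hb
  set T : Finset (Module.Basis.ofVectorSpaceIndex ℚ k) :=
    Finset.univ.biUnion fun i : X => Finset.univ.biUnion fun j : X => (b.repr (e i j)).support with hT
  have he : e = ∑ t ∈ T, b t • (e.map (b.coord t)).map (algebraMap ℚ k) := by
    ext i j
    rw [Matrix.sum_apply]
    have h1 : (b.repr (e i j)).sum (fun t c => c • b t) = e i j := b.linearCombination_repr (e i j)
    conv_lhs => rw [← h1]
    rw [Finsupp.sum]
    refine Finset.sum_subset_zero_on_sdiff ?_ ?_ ?_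
    · intro t ht
      rw [hT, Finset.mem_biUnion]
      exact ⟨i, Finset.mem_univ _, Finset.mem_biUnion.2 ⟨j, Finset.mem_univ _, ht⟩⟩
    · intro t ht
      have h2 : b.repr (e i j) t = 0 := Finsupp.notMem_support_iff.1 (Finset.mem_sdiff.1 ht).2
      rw [Matrix.smul_apply, Matrix.map_apply, Matrix.map_apply, Module.Basis.coord_apply, h2, map_zero,
        smul_zero]
    · intro t _
      rw [Matrix.smul_apply, Matrix.map_apply, Matrix.map_apply, Module.Basis.coord_apply, smul_eq_mul,
        Algebra.smul_def, mul_comm]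
  rw [he]
  refine Submodule.sum_mem _ fun t _ => Submodule.smul_mem _ _ (Submodule.subset_span ?_)
  exact ⟨e.map (b.coord t), h (b.coord t), rfl⟩

end GR95
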