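import Pool.Agent.LibGR95.RAbs
import Pool.Agent.LibBru95.RBrV

/-! Row G10. A relation with algebraic coefficients between the logarithms of the local norms of `u` (`u cc u = 1`) is also a
relation between their valuations: `brumer_val` with `y τ = locNorm τ u`; hypothesis `h`: if `L x = 0`, `x = ∏ y^m ≠ 0`, then
`pow_eq_of_log_eq_zero` and `abs_one` with `N = p^2 (p-1)`, `b = N v(x)` give `v(x) = 0`, and `v(x) = ∑ m_τ v(y_τ)`
(`Padic.valuation_mul`, ...). -/

namespace GR95

open NumberField Bru95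

variable (p : ℕ) [Fact p.Prime] (K : Type*) [Field K] [NumberField K] [IsCMField K]

private theorem valuation_prod' {ι : Type*} (S : Finset ι) (y : ι → ℚ_[p]) (hy : ∀ k, y k ≠ 0)
    (m : ι → ℤ) : (∏ k ∈ S, y k ^ m k).valuation = ∑ k ∈ S, m k * (y k).valuation := by
  classical
  induction S using Finset.induction_on with
  | empty => simp
  | insert a S ha ih =>
    rw [Finset.prod_insert ha, Finset.sum_insert ha, Padic.valuation_mul (zpow_ne_zero _ (hy a))
      (Finset.prod_ne_zero_iff.mpr fun k _ => zpow_ne_zero _ (hy k)), ih, Padic.valuation_zpow]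

theorem val_relation {L : ℚ_[p] → ℚ_[p]} (hL : IsPadicLog p L) {u : K} (hu : u * cc K u = 1)
    (e : Emb p K → ℚ_[p]) (he : ∀ τ, IsAlgebraic ℚ (e τ))
    (hrel : ∑ τ, e τ * L (locNorm p K τ u) = 0) :
    ∑ τ, e τ * ((locNorm p K τ u).valuation : ℚ_[p]) = 0 := by
  have hu0 : u ≠ 0 := left_ne_zero_of_mul_eq_one hu
  refine brumer_val hL (fun τ => locNorm p K τ u) (fun τ => locNorm_ne_zero p K τ hu0)
    (fun τ => locNorm_algebraic p K τ u) e he hrel ?_
  intro m hm
  have hx : (∏ τ, locNorm p K τ u ^ m τ) ≠ 0 :=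
    Finset.prod_ne_zero_iff.mpr fun τ _ => zpow_ne_zero _ (locNorm_ne_zero p K τ hu0)
  have h1 := hL.pow_eq_of_log_eq_zero hx hm
  have hN : 0 < p ^ 2 * (p - 1) :=
    Nat.mul_pos (pow_pos (Fact.out (p := p.Prime)).pos 2)
      (Nat.sub_pos_of_lt (Fact.out (p := p.Prime)).one_lt)
  have h2 := abs_one p K hu m hN h1
  have h3 : (∏ τ, locNorm p K τ u ^ m τ).valuation = 0 := by
    rcases mul_eq_zero.mp h2 with h | h
    · exfalso
      have : (p ^ 2 * (p - 1) : ℕ) = 0 := by exact_mod_cast h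
      omega
    · exact h
  rw [← h3, valuation_prod' p Finset.univ (fun τ => locNorm p K τ u)
    (fun τ => locNorm_ne_zero p K τ hu0) m]

end GR95
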