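import Pool.Agent.LibGR95.RPi
import Pool.Agent.LibGR95.RCC

/-! Row G8. The valuation vectors of the minus `p`-units span `Y⁻`. For `σ` take `π` from `exists_pi`, `u = π / cc π`.
`V_u(τ) = v(N_τ π) - v(N_τ (cc π)) = v(N_τ π) - v(N_(τ c) π)` (`locNorm_comp`), and `v(N_τ π) = a` (some `a > 0`, the same on the whole
place by `locNorm_samePlace`) if `SamePlace σ τ`, `0` otherwise (`valuation_locNorm_*`). So `V_u = a (1_[σ] - 1_[σ c])`. Every
`f ∈ Y⁻` is `∑_σ f(σ) / (2 n_σ) (1_[σ] - 1_[σ c])`, `n_σ` the size of the place (`n_(σ c) = n_σ`). -/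

namespace GR95

open NumberField Bru95

variable (p : ℕ) [Fact p.Prime] (K : Type*) [Field K] [NumberField K] [IsCMField K]

open Classical in
/-- The vector `τ ↦ 1_[σ](τ) - 1_[σ](τ ∘ c)` is in the span. -/
private theorem RSpan_mem (σ : Emb p K) :
    (fun τ : Emb p K => (if SamePlace p K σ τ then (1 : ℚ_[p]) else 0) -
      (if SamePlace p K σ (τ.comp (cc K)) then (1 : ℚ_[p]) else 0)) ∈
    Submodule.span ℚ_[p] {f : Emb p K → ℚ_[p] | ∃ u : K, IsPUnit p K u ∧ u * cc K u = 1 ∧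
      f = fun τ => ((locNorm p K τ u).valuation : ℚ_[p])} := by
  obtain ⟨π, hπ, hπ1, hπ2⟩ := exists_pi p K σ
  obtain ⟨a, ha⟩ : ∃ a : ℤ, a = (locNorm p K σ π).valuation := ⟨_, rfl⟩
  have ha0 : 0 < a := ha ▸ valuation_locNorm_pos p K σ hπ.1 hπ1
  have ha0' : (a : ℚ_[p]) ≠ 0 := by exact_mod_cast ha0.ne'
  have hval : ∀ τ : Emb p K, ((locNorm p K τ π).valuation : ℚ_[p]) =
      a * (if SamePlace p K σ τ then 1 else 0) := by
    intro τ
    split_ifs with h
    · rw [mul_one, ← locNorm_samePlace p K h, ha]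
    · rw [valuation_locNorm_eq_zero p K τ (hπ2 τ h), Int.cast_zero, mul_zero]
  have hcc : cc K π ≠ 0 := (map_ne_zero (cc K)).2 hπ.1
  have hu1 : π / cc K π * cc K (π / cc K π) = 1 := by
    rw [map_div₀, cc_cc]
    field_simp [hπ.1]
  have hV : (fun τ : Emb p K => ((locNorm p K τ (π / cc K π)).valuation : ℚ_[p])) =
      (a : ℚ_[p]) • (fun τ : Emb p K => (if SamePlace p K σ τ then (1 : ℚ_[p]) else 0) -
      (if SamePlace p K σ (τ.comp (cc K)) then (1 : ℚ_[p]) else 0)) := by
    funext τ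
    rw [div_eq_mul_inv, locNorm_mul, locNorm_inv p K τ hcc,
      Padic.valuation_mul (locNorm_ne_zero p K τ hπ.1) (inv_ne_zero (locNorm_ne_zero p K τ hcc)),
      Padic.valuation_inv, ← locNorm_comp p K τ (cc K) (cc_bijective K) π]
    push_cast
    rw [hval, hval, Pi.smul_apply, smul_eq_mul]
    ring
  have hfin : (fun τ : Emb p K => (if SamePlace p K σ τ then (1 : ℚ_[p]) else 0) -
      (if SamePlace p K σ (τ.comp (cc K)) then (1 : ℚ_[p]) else 0)) =
      (a : ℚ_[p])⁻¹ • (fun τ : Emb p K => ((locNorm p K τ (π / cc K π)).valuation : ℚ_[p])) := by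
    rw [hV, smul_smul, inv_mul_cancel₀ ha0', one_smul]
  rw [hfin]
  exact Submodule.smul_mem _ _ (Submodule.subset_span
    ⟨π / cc K π, isPUnit_div K p hπ (isPUnit_cc K p hπ), hu1, rfl⟩)

theorem Ym_le_span : Ym p K ≤ Submodule.span ℚ_[p] {f | ∃ u : K, IsPUnit p K u ∧ u * cc K u = 1 ∧
    f = fun τ => ((locNorm p K τ u).valuation : ℚ_[p])} := by
  classical
  intro f hf
  obtain ⟨hf1, hf2⟩ := hf
  have hn : ∀ σ : Emb p K,
      ((Finset.univ.filter (fun τ : Emb p K => SamePlace p K τ σ)).card : ℚ_[p]) ≠ 0 := by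
    intro σ
    have : 0 < (Finset.univ.filter (fun τ : Emb p K => SamePlace p K τ σ)).card :=
      Finset.card_pos.2 ⟨σ, by simpa using samePlace_refl p K σ⟩
    exact_mod_cast this.ne'
  have hnc : ∀ σ τ : Emb p K, SamePlace p K σ τ →
      Finset.univ.filter (fun ρ : Emb p K => SamePlace p K ρ σ) =
      Finset.univ.filter (fun ρ : Emb p K => SamePlace p K ρ τ) := by
    intro σ τ h
    ext ρ
    simp only [Finset.mem_filter, Finset.mem_univ, true_and]
    exact ⟨fun h' => samePlace_trans p K h' h, fun h' => samePlace_trans p K h' (samePlace_symm p K h)⟩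
  have h1 : ∀ ρ : Emb p K, ∑ σ : Emb p K,
      f σ / (2 * ((Finset.univ.filter (fun τ : Emb p K => SamePlace p K τ σ)).card : ℚ_[p])) *
        (if SamePlace p K σ ρ then (1 : ℚ_[p]) else 0) = f ρ / 2 := by
    intro ρ
    have h2 : ∀ σ : Emb p K,
        f σ / (2 * ((Finset.univ.filter (fun τ : Emb p K => SamePlace p K τ σ)).card : ℚ_[p])) *
        (if SamePlace p K σ ρ then (1 : ℚ_[p]) else 0) =
        if SamePlace p K σ ρ then
          f ρ / (2 * ((Finset.univ.filter (fun τ : Emb p K => SamePlace p K τ ρ)).card : ℚ_[p]))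
        else 0 := by
      intro σ
      split_ifs with h
      · rw [mul_one, hf1 σ ρ h, hnc σ ρ h]
      · rw [mul_zero]
    rw [Finset.sum_congr rfl fun σ _ => h2 σ, ← Finset.sum_filter, Finset.sum_const, nsmul_eq_mul]
    have := hn ρ
    field_simp
  have key : f = ∑ σ : Emb p K,
      (f σ / (2 * ((Finset.univ.filter (fun τ : Emb p K => SamePlace p K τ σ)).card : ℚ_[p]))) •
      (fun τ : Emb p K => (if SamePlace p K σ τ then (1 : ℚ_[p]) else 0) -
      (if SamePlace p K σ (τ.comp (cc K)) then (1 : ℚ_[p]) else 0)) := by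
    funext τ
    rw [Finset.sum_apply]
    simp only [Pi.smul_apply, smul_eq_mul, mul_sub, Finset.sum_sub_distrib]
    rw [h1 τ, h1 (τ.comp (cc K)), hf2]
    ring
  rw [key]
  exact Submodule.sum_mem _ fun σ _ => Submodule.smul_mem _ _ (RSpan_mem p K σ)

end GR95
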