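import Pool.Agent.LibGR95.RIdem
import Pool.Agent.LibGR95.RGram
import Pool.Agent.LibGR95.RRat
import Pool.Agent.LibGR95.RMat
import Pool.Agent.LibGR95.RSpan
import Pool.Agent.LibGR95.RRel

/-! Row G18. Assembly. Suppose `¬ W ≤ LogImage`. `exists_central_idem` for `V = Y⁻` (pull back `W` and `LogImage` to `Ym`),
`exists_matrix` gives `M`; its entries are algebraic (`idem_entries_algebraic` with `B = Bm ℚ G`, `mem_span_of_proj`: `M.map π ∈ Bm ℚ G` for
every `ℚ`-linear `π`, `Bm` is stable under transposes). For a minus `p`-unit `u`, `M (L N u) = e(L N u) = 0`, so `val_relation` for each row of `M`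
gives `M V_u = 0`, `V_u = (v(N_τ u))_τ`; by `Ym_le_span` `M` kills `Y⁻`, so `e = 0`, `W = range e = ⊥ ≤ LogImage`. -/

namespace GR95

open NumberField Bru95

variable (p : ℕ) [Fact p.Prime] (K : Type*) [Field K] [NumberField K] [IsCMField K]

private theorem RMain_transpose (G : Subgroup (K ≃ₐ[ℚ] K)) :
    ∀ a ∈ Bm p K ℚ G, a.transpose ∈ Bm p K ℚ G := by
  rintro a ⟨h1, h2, h3, h4, h5⟩
  exact ⟨fun g hg σ τ => h1 g hg τ σ, fun σ σ' τ h => h3 τ σ σ' h, fun σ τ τ' h => h2 τ τ' σ h,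
    fun σ τ => h5 τ σ, fun σ τ => h4 τ σ⟩

private theorem RMain_map (G : Subgroup (K ≃ₐ[ℚ] K)) {M : Matrix (Emb p K) (Emb p K) ℚ_[p]}
    (hM : M ∈ Bm p K ℚ_[p] G) (π : ℚ_[p] →ₗ[ℚ] ℚ) : M.map π ∈ Bm p K ℚ G := by
  obtain ⟨h1, h2, h3, h4, h5⟩ := hM
  refine ⟨fun g hg σ τ => ?_, fun σ σ' τ h => ?_, fun σ τ τ' h => ?_, fun σ τ => ?_, fun σ τ => ?_⟩
  · simp only [Matrix.map_apply, h1 g hg σ τ]
  · simp only [Matrix.map_apply, h2 σ σ' τ h]
  · simp only [Matrix.map_apply, h3 σ τ τ' h]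
  · simp only [Matrix.map_apply, h4 σ τ, map_neg]
  · simp only [Matrix.map_apply, h5 σ τ, map_neg]

theorem main_subgroup {L : ℚ_[p] → ℚ_[p]} (hL : IsPadicLog p L) (G : Subgroup (K ≃ₐ[ℚ] K))
    (W : Submodule ℚ_[p] (Ym p K)) (hW : ∀ g : G, ∀ w ∈ W, rep p K G g w ∈ W)
    (hsimple : ∀ W' : Submodule ℚ_[p] (Ym p K), W' ≤ W →
      (∀ g : G, ∀ w ∈ W', rep p K G g w ∈ W') → W' = ⊥ ∨ W' = W)
    (hmult : ∀ φ : W →ₗ[ℚ_[p]] Ym p K,
      (∀ (g : G) (w : W), φ ⟨rep p K G g w, hW g w w.2⟩ = rep p K G g (φ w)) → ∀ w, φ w ∈ W) :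
    W.map (Ym p K).subtype ≤ LogImage p K L := by
  classical
  rw [Submodule.map_le_iff_le_comap]
  by_contra hnot
  have hfin : Finite G := inferInstance
  have hI : ∀ g : G, ∀ w ∈ (LogImage p K L).comap (Ym p K).subtype,
      rep p K G g w ∈ (LogImage p K L).comap (Ym p K).subtype := by
    intro g w hw
    exact act_mem_logImage p K (g : K ≃ₐ[ℚ] K) hw
  obtain ⟨e, hidem, hrange, hker, hG, hcent⟩ := exists_central_idem (rep p K G) W
    ((LogImage p K L).comap (Ym p K).subtype) hW hI hsimple hmult hnot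
  obtain ⟨M, hMB, hMM, hMc, hMe⟩ := exists_matrix p K G e hidem hG hcent
  have halg : ∀ i j, IsAlgebraic ℚ (M i j) := fun i j =>
    idem_entries_algebraic (Bm p K ℚ G) (RMain_transpose p K G) M
      (mem_span_of_proj (Bm p K ℚ G) M (RMain_map p K G hMB)) hMM hMc i j
  have hker' : ∀ f ∈ Submodule.span ℚ_[p] {f | ∃ u : K, IsPUnit p K u ∧ u * cc K u = 1 ∧
      f = fun τ => ((locNorm p K τ u).valuation : ℚ_[p])}, M.mulVec f = 0 := by
    intro f hf
    refine Submodule.span_induction ?_ ?_ ?_ ?_ hf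
    · rintro _ ⟨u, hu, hu1, rfl⟩
      have h1 : (fun σ => L (locNorm p K σ u)) ∈ LogImage p K L :=
        Submodule.subset_span ⟨u, hu, hu1, rfl⟩
      have h2 : (fun σ => L (locNorm p K σ u)) ∈ Ym p K := logImage_le_Ym p K hL h1
      have h3 := hker ⟨_, h2⟩ h1
      have h4 := hMe ⟨_, h2⟩
      rw [h3] at h4
      funext σ
      have h5 : ∑ τ, M σ τ * L (locNorm p K τ u) = 0 := congrFun h4 σ
      exact val_relation p K hL hu1 (M σ) (halg σ) h5
    · exact Matrix.mulVec_zero M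
    · intro x y _ _ hx hy
      rw [Matrix.mulVec_add, hx, hy, add_zero]
    · intro a x _ hx
      rw [Matrix.mulVec_smul, hx, smul_zero]
  have he : e = 0 := by
    ext1 f
    have h1 := hMe f
    rw [hker' _ (Ym_le_span p K f.2)] at h1
    exact Subtype.ext h1.symm
  apply hnot
  rw [← hrange, he, LinearMap.range_zero]
  exact bot_le

end GR95
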