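import Pool.Agent.LibGR95.Defs

/-! Row G1. The local norm is the product over the place. `Algebra.norm_eq_prod_embeddings` for
`Kv p K σ / ℚ_[p]` and the algebraic closure `PadicAlgCl p`; the map `ψ ↦ ψ ∘ σ` from `Kv →ₐ[ℚ_[p]] PadicAlgCl p` to the
embeddings `τ` with `SamePlace σ τ` is a bijection: injective because `σ K` generates `Kv` (`IntermediateField.adjoin`
induction / `AlgHom.ext_of_adjoin`...), into because every `ψ` extends to an automorphism of `PadicAlgCl p`
(`Algebra.IsAlgebraic.lift`/`AlgHom.liftNormal`, `IntermediateField.exists_algHom...`; an endomorphism of an algebraic extension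
is bijective: `Algebra.IsAlgebraic.algHom_bijective`), onto by restriction of `γ`.
First prove `Kv p K σ` finite dimensional over `ℚ_[p]`: `K/ℚ` is finite, `K = ℚ(α)`, `Kv = ℚ_p(σ α)`. -/

namespace GR95

open NumberField Bru95

variable (p : ℕ) [Fact p.Prime] (K : Type*) [Field K] [NumberField K]

private theorem RNorm_range (σ : Emb p K) : ∃ α : K, Kv p K σ =
    IntermediateField.adjoin ℚ_[p] {σ α} := by
  obtain ⟨α, hα⟩ := Field.exists_primitive_element ℚ K
  refine ⟨α, le_antisymm ?_ ?_⟩
  · unfold Kv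
    rw [IntermediateField.adjoin_le_iff]
    rintro _ ⟨x, rfl⟩
    have hx : x ∈ IntermediateField.adjoin ℚ ({α} : Set K) := by rw [hα]; trivial
    induction hx using IntermediateField.adjoin_induction with
    | mem x hx =>
      rw [Set.mem_singleton_iff] at hx
      subst hx
      exact IntermediateField.subset_adjoin _ _ rfl
    | algebraMap x =>
      have : σ (algebraMap ℚ K x) = algebraMap ℚ_[p] (PadicAlgCl p) (x : ℚ_[p]) := by
        simp
      rw [this]
      exact IntermediateField.algebraMap_mem _ _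
    | add x y hx hy h1 h2 =>
      rw [map_add]
      exact add_mem h1 h2
    | inv x hx h1 =>
      rw [map_inv₀]
      exact inv_mem h1
    | mul x y hx hy h1 h2 =>
      rw [map_mul]
      exact mul_mem h1 h2
  · rw [IntermediateField.adjoin_le_iff]
    rintro _ rfl
    exact IntermediateField.subset_adjoin _ _ ⟨α, rfl⟩

instance finiteDimensional_Kv (σ : Emb p K) : FiniteDimensional ℚ_[p] (Kv p K σ) := by
  obtain ⟨α, hα⟩ := RNorm_range p K σ
  rw [hα]
  exact IntermediateField.adjoin.finiteDimensional (Algebra.IsIntegral.isIntegral _)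

open Classical in
theorem algebraMap_locNorm (σ : Emb p K) (x : K) :
    algebraMap ℚ_[p] (PadicAlgCl p) (locNorm p K σ x) =
      ∏ τ ∈ Finset.univ.filter (fun τ : Emb p K => SamePlace p K σ τ), τ x := by
  unfold locNorm
  rw [Algebra.norm_eq_prod_embeddings]
  refine Finset.prod_bij
    (fun ψ _ => (ψ : Kv p K σ →+* PadicAlgCl p).comp
      (RingHom.codRestrict σ (Kv p K σ) (fun y => IntermediateField.subset_adjoin _ _ ⟨y, rfl⟩)))
    ?_ ?_ ?_ ?_
  · intro ψ _
    rw [Finset.mem_filter]
    refine ⟨Finset.mem_univ _, ?_⟩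
    obtain ⟨φ, hφ⟩ := IsAlgClosed.surjective_domRestrict_of_isAlgebraic
      (K := ℚ_[p]) (L := Kv p K σ) (M := PadicAlgCl p) (E := PadicAlgCl p) ψ
    refine ⟨AlgEquiv.ofBijective φ (Algebra.IsAlgebraic.algHom_bijective φ), ?_⟩
    ext y
    have := DFunLike.congr_fun hφ
      (⟨σ y, IntermediateField.subset_adjoin _ _ ⟨y, rfl⟩⟩ : Kv p K σ)
    exact this
  · intro ψ₁ _ ψ₂ _ h
    refine IntermediateField.algHom_ext_of_eq_adjoin _ (rfl : Kv p K σ = IntermediateField.adjoin ℚ_[p] (Set.range σ)) ?_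
    rintro _ ⟨y, rfl⟩
    exact RingHom.congr_fun h y
  · intro τ hτ
    rw [Finset.mem_filter] at hτ
    obtain ⟨_, γ, hγ⟩ := hτ
    refine ⟨(γ : PadicAlgCl p →ₐ[ℚ_[p]] PadicAlgCl p).comp (Kv p K σ).val, Finset.mem_univ _, ?_⟩
    ext y
    exact RingHom.congr_fun hγ y
  · intro ψ _
    rfl

end GR95
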