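import Pool.Agent.LibGR95.RNorm

/-! Row G2. Consequences of `algebraMap_locNorm`. `SamePlace` is an equivalence relation, compatible with
composition `σ ↦ σ.comp g`; `locNorm_comp`: the place of `σ ∘ g` is `{τ ∘ g : τ in the place of σ}` for `g` bijective. -/

namespace GR95

open NumberField Bru95

variable (p : ℕ) [Fact p.Prime] (K : Type*) [Field K] [NumberField K]

theorem samePlace_refl (σ : Emb p K) : SamePlace p K σ σ :=
  ⟨AlgEquiv.refl, by ext x; rfl⟩

theorem samePlace_symm {σ τ : Emb p K} (h : SamePlace p K σ τ) : SamePlace p K τ σ := by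
  obtain ⟨γ, rfl⟩ := h
  exact ⟨γ.symm, by ext x; simp⟩

theorem samePlace_trans {σ τ ρ : Emb p K} (h : SamePlace p K σ τ) (h' : SamePlace p K τ ρ) :
    SamePlace p K σ ρ := by
  obtain ⟨γ, rfl⟩ := h
  obtain ⟨γ', rfl⟩ := h'
  exact ⟨γ.trans γ', by ext x; simp⟩

theorem samePlace_comp {σ τ : Emb p K} (g : K →+* K) (h : SamePlace p K σ τ) :
    SamePlace p K (σ.comp g) (τ.comp g) := by
  obtain ⟨γ, rfl⟩ := h
  exact ⟨γ, by ext x; simp⟩

private theorem RNorm2_inj {a b : ℚ_[p]}
    (h : algebraMap ℚ_[p] (PadicAlgCl p) a = algebraMap ℚ_[p] (PadicAlgCl p) b) : a = b :=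
  (algebraMap ℚ_[p] (PadicAlgCl p)).injective h

theorem locNorm_mul (σ : Emb p K) (x y : K) :
    locNorm p K σ (x * y) = locNorm p K σ x * locNorm p K σ y := by
  apply RNorm2_inj p
  rw [map_mul, algebraMap_locNorm, algebraMap_locNorm, algebraMap_locNorm,
    ← Finset.prod_mul_distrib]
  exact Finset.prod_congr rfl fun τ _ => map_mul τ x y

theorem locNorm_one (σ : Emb p K) : locNorm p K σ 1 = 1 := by
  apply RNorm2_inj p
  rw [map_one, algebraMap_locNorm]
  exact Finset.prod_eq_one fun τ _ => map_one τ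

theorem locNorm_ne_zero (σ : Emb p K) {x : K} (hx : x ≠ 0) : locNorm p K σ x ≠ 0 := by
  intro h
  have h1 := algebraMap_locNorm p K σ x
  rw [h, map_zero] at h1
  exact Finset.prod_ne_zero_iff.2 (fun τ _ => (map_ne_zero τ).2 hx) h1.symm

theorem locNorm_inv (σ : Emb p K) {x : K} (hx : x ≠ 0) :
    locNorm p K σ x⁻¹ = (locNorm p K σ x)⁻¹ := by
  have h1 := locNorm_mul p K σ x⁻¹ x
  rw [inv_mul_cancel₀ hx, locNorm_one] at h1
  exact eq_inv_of_mul_eq_one_left h1.symm

theorem locNorm_samePlace {σ τ : Emb p K} (h : SamePlace p K σ τ) (x : K) :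
    locNorm p K σ x = locNorm p K τ x := by
  apply RNorm2_inj p
  rw [algebraMap_locNorm, algebraMap_locNorm]
  refine Finset.prod_congr ?_ fun _ _ => rfl
  ext ρ
  simp only [Finset.mem_filter, Finset.mem_univ, true_and]
  exact ⟨fun h' => samePlace_trans p K (samePlace_symm p K h) h',
    fun h' => samePlace_trans p K h h'⟩

theorem locNorm_comp (σ : Emb p K) (g : K →+* K) (hg : Function.Bijective g) (x : K) :
    locNorm p K (σ.comp g) x = locNorm p K σ (g x) := by
  apply RNorm2_inj p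
  rw [algebraMap_locNorm, algebraMap_locNorm]
  symm
  refine Finset.prod_nbij (fun τ => τ.comp g) ?_ ?_ ?_ ?_
  · intro τ hτ
    simp only [Finset.mem_filter, Finset.mem_univ, true_and] at hτ ⊢
    exact samePlace_comp p K g hτ
  · intro τ _ τ' _ h
    exact (RingHom.cancel_right hg.2).1 h
  · intro τ hτ
    simp only [Finset.coe_filter, Finset.mem_univ, true_and, Set.mem_setOf_eq] at hτ
    obtain ⟨γ, hγ⟩ := hτ
    refine ⟨(γ : PadicAlgCl p →+* PadicAlgCl p).comp σ, ?_, ?_⟩
    · simp only [Finset.coe_filter, Finset.mem_univ, true_and, Set.mem_setOf_eq]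
      exact ⟨γ, rfl⟩
    · exact hγ
  · intro τ _
    rfl

theorem locNorm_algebraic (σ : Emb p K) (x : K) : IsAlgebraic ℚ (locNorm p K σ x) := by
  have hinj : Function.Injective (algebraMap ℚ_[p] (PadicAlgCl p)) :=
    (algebraMap ℚ_[p] (PadicAlgCl p)).injective
  rw [← isAlgebraic_algebraMap_iff hinj, algebraMap_locNorm, isAlgebraic_iff_isIntegral]
  refine IsIntegral.prod _ fun τ _ => ?_
  have h1 : IsIntegral ℚ x := (Algebra.IsAlgebraic.isAlgebraic (R := ℚ) x).isIntegral
  exact h1.map τ.toRatAlgHom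

end GR95
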