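import Pool.Agent.LibGR95.RSepA
import Pool.Agent.LibGR95.RInt
import Pool.Agent.LibBru95.RFact

/-! Row G6. A `p`-unit which generates a power of the prime of `σ`. `𝔭 = {y ∈ 𝓞 K : ‖σ y‖ < 1}` is a prime ideal (integral elements
have norm at most 1: `norm_integral_le_one`), `𝔭 ≠ ⊥` (`p ∈ 𝔭`), `h = classNumber K`: `𝔭^h = (π)` principal
(`ClassGroup.mk0`, `pow_card_eq_one`/ `orderOf`). `p^h ∈ 𝔭^h`, so `π ∣ p^h` and `π` is a `p`-unit. `π ∈ 𝔭`. If `τ` is another place,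
`exists_sep_K` and `exists_integral_of_norm_le_one` give `y = N x ∈ 𝓞 K` with `‖σ y‖ < 1`, `‖τ y‖ = 1` (`‖N‖ = 1` as `p ∤ N`); `y^h ∈ 𝔭^h = (π)`,
`y^h = π z`, so `1 = ‖τ π‖ ‖τ z‖` with both at most 1. -/

namespace GR95

open NumberField Bru95

variable (p : ℕ) [Fact p.Prime] (K : Type*) [Field K] [NumberField K]

theorem exists_pi (σ : Emb p K) : ∃ π : K, IsPUnit p K π ∧ ‖σ π‖ < 1 ∧
    ∀ τ : Emb p K, ¬ SamePlace p K σ τ → ‖τ π‖ = 1 := by
  classical
  have hpp : p.Prime := Fact.out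
  have hle : ∀ (τ : Emb p K) (y : 𝓞 K), ‖τ (y : K)‖ ≤ 1 := fun τ y =>
    norm_integral_le_one ((NumberField.RingOfIntegers.isIntegral_coe y).map τ.toIntAlgHom)
  have hnat : ∀ n : ℕ, ‖((n : ℕ) : PadicAlgCl p)‖ = ‖(n : ℚ_[p])‖ := fun n => by
    rw [← PadicAlgCl.norm_extends, map_natCast]
  -- the prime ideal of `σ`
  let P : Ideal (𝓞 K) :=
    { carrier := {y | ‖σ (y : K)‖ < 1}
      add_mem' := fun {a b} ha hb => by
        change ‖σ ((a + b : 𝓞 K) : K)‖ < 1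
        rw [NumberField.RingOfIntegers.coe_eq_algebraMap, map_add, map_add]
        exact (PadicAlgCl.isNonarchimedean p _ _).trans_lt (max_lt ha hb)
      zero_mem' := by
        change ‖σ ((0 : 𝓞 K) : K)‖ < 1
        rw [NumberField.RingOfIntegers.coe_eq_algebraMap, map_zero, map_zero, norm_zero]
        exact one_pos
      smul_mem' := fun a b hb => by
        change ‖σ ((a * b : 𝓞 K) : K)‖ < 1
        rw [NumberField.RingOfIntegers.coe_eq_algebraMap, map_mul, map_mul, norm_mul]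
        exact (mul_le_mul_of_nonneg_right (hle σ a) (norm_nonneg _)).trans_lt
          (by rw [one_mul]; exact hb) }
  have hPmem : ∀ y : 𝓞 K, y ∈ P ↔ ‖σ (y : K)‖ < 1 := fun _ => Iff.rfl
  have hpP : (p : 𝓞 K) ∈ P := by
    rw [hPmem]
    have h1 : σ (((p : ℕ) : 𝓞 K) : K) = (p : PadicAlgCl p) := by
      rw [NumberField.RingOfIntegers.coe_eq_algebraMap, map_natCast, map_natCast]
    rw [h1, hnat]
    exact Padic.norm_natCast_lt_one_iff.2 dvd_rfl
  have hp0 : (p : 𝓞 K) ≠ 0 := Nat.cast_ne_zero.2 hpp.ne_zero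
  have hP0 : P ≠ ⊥ := fun h => hp0 (by
    rw [h] at hpP
    exact hpP)
  obtain ⟨h, hh⟩ : ∃ h : ℕ, h = Fintype.card (ClassGroup (𝓞 K)) := ⟨_, rfl⟩
  have hhpos : h ≠ 0 := by
    rw [hh]
    exact Fintype.card_ne_zero
  have hPr : (P ^ h).IsPrincipal := by
    have h1 : (ClassGroup.mk0 ⟨P, mem_nonZeroDivisors_of_ne_zero hP0⟩) ^ h = 1 := by
      rw [hh]
      exact pow_card_eq_one
    rw [← map_pow] at h1
    exact (ClassGroup.mk0_eq_one_iff (I := P ^ h) _).1 h1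
  obtain ⟨π, hπ⟩ := hPr
  rw [Ideal.submodule_span_eq] at hπ
  have hdvd : π ∣ (p : 𝓞 K) ^ h := by
    rw [← Ideal.mem_span_singleton, ← hπ]
    exact Ideal.pow_mem_pow hpP h
  have hπ0 : π ≠ 0 := by
    rintro rfl
    rw [zero_dvd_iff] at hdvd
    exact pow_ne_zero h hp0 hdvd
  have hπK : (π : K) ≠ 0 := by
    rwa [Ne, NumberField.RingOfIntegers.coe_eq_zero_iff]
  have hπP : π ∈ P := by
    have h1 : π ∈ P ^ h := by
      rw [hπ]
      exact Ideal.mem_span_singleton_self π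
    exact Ideal.pow_le_self hhpos h1
  refine ⟨(π : K), ⟨hπK, h, ?_, ?_⟩, hπP, ?_⟩
  · have h2 : ((p : K) ^ h * (π : K)) = (((p : 𝓞 K) ^ h * π : 𝓞 K) : K) := by
      rw [NumberField.RingOfIntegers.coe_eq_algebraMap, NumberField.RingOfIntegers.coe_eq_algebraMap,
        map_mul, map_pow, map_natCast]
    rw [h2]
    exact NumberField.RingOfIntegers.isIntegral_coe _
  · obtain ⟨q, hq⟩ := hdvd
    have h2 : ((p : K) ^ h * (π : K)⁻¹) = (q : K) := by
      have h3 : (p : K) ^ h = (π : K) * (q : K) := by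
        have := congrArg (algebraMap (𝓞 K) K) hq
        rw [map_mul, map_pow, map_natCast] at this
        exact this
      rw [h3]
      field_simp
    rw [h2]
    exact NumberField.RingOfIntegers.isIntegral_coe _
  · intro τ hτ
    obtain ⟨x, hx1, hxσ, hxτ⟩ := exists_sep_K p K hτ
    obtain ⟨N, -, hNp, hNi⟩ := exists_integral_of_norm_le_one p K x hx1
    have hN1 : ‖((N : ℕ) : PadicAlgCl p)‖ = 1 := by
      rw [hnat, Padic.norm_natCast_eq_one_iff]
      exact (Nat.Prime.coprime_iff_not_dvd hpp).2 hNp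
    obtain ⟨y, hy⟩ : ∃ y : 𝓞 K, (y : K) = (N : K) * x := ⟨⟨_, hNi⟩, rfl⟩
    have hyτ : ‖τ (y : K)‖ = 1 := by
      rw [hy, map_mul, map_natCast, norm_mul, hN1, one_mul, hxτ]
    have hyP : y ∈ P := by
      rw [hPmem, hy, map_mul, map_natCast, norm_mul, hN1, one_mul]
      exact hxσ
    have hyπ : π ∣ y ^ h := by
      rw [← Ideal.mem_span_singleton, ← hπ]
      exact Ideal.pow_mem_pow hyP h
    obtain ⟨z, hz⟩ := hyπ
    have h3 : (y : K) ^ h = (π : K) * (z : K) := by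
      have := congrArg (algebraMap (𝓞 K) K) hz
      rw [map_mul, map_pow] at this
      exact this
    have h4 : ‖τ (π : K)‖ * ‖τ (z : K)‖ = 1 := by
      rw [← norm_mul, ← map_mul, ← h3, map_pow, norm_pow, hyτ, one_pow]
    refine le_antisymm (hle τ π) ?_
    calc 1 = ‖τ (π : K)‖ * ‖τ (z : K)‖ := h4.symm
      _ ≤ ‖τ (π : K)‖ * 1 := mul_le_mul_of_nonneg_left (hle τ z) (norm_nonneg _)
      _ = ‖τ (π : K)‖ := mul_one _

end GR95
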