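import Mathlib

/-! Row G23. The Hamilton quaternions over `ℚ_2` are a division algebra. If `x² + y² + z² + w² = 0` with `x, y, z, w ∈ ℚ_2` not all zero,
scale so that all are in `ℤ_2` and one is a unit; squares in `ℤ_2` modulo 8 are 0, 1, 4: a sum of four squares with an odd one is
`0 mod 8` only if all four are odd or ... (four odd squares sum to `4 mod 8`; two odd: `2 mod 4`; so never `0 mod 8`).
Then `a b = 0` in `ℍ[ℚ_[2]]` gives `normSq a * normSq b = 0`. Also the homomorphism from `QuaternionGroup 2`: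
`a ↦ i`, `x ↦ j` (`QuaternionGroup.a 1`, `QuaternionGroup.xa 0`), spanning. -/

namespace GR95

private theorem zmod_eight : ∀ y z w : ZMod 8, 1 + y ^ 2 + z ^ 2 + w ^ 2 ≠ 0 := by
  decide

private theorem one_add_ne (y z w : ℚ_[2]) (hy : ‖y‖ ≤ 1) (hz : ‖z‖ ≤ 1) (hw : ‖w‖ ≤ 1) :
    1 + y ^ 2 + z ^ 2 + w ^ 2 ≠ 0 := by
  intro h
  obtain ⟨y', rfl⟩ : ∃ y' : ℤ_[2], (y' : ℚ_[2]) = y := ⟨⟨y, hy⟩, rfl⟩
  obtain ⟨z', rfl⟩ : ∃ z' : ℤ_[2], (z' : ℚ_[2]) = z := ⟨⟨z, hz⟩, rfl⟩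
  obtain ⟨w', rfl⟩ : ∃ w' : ℤ_[2], (w' : ℚ_[2]) = w := ⟨⟨w, hw⟩, rfl⟩
  have h1 : 1 + y' ^ 2 + z' ^ 2 + w' ^ 2 = 0 := by
    apply PadicInt.ext
    push_cast
    exact h
  have h2 := congrArg (PadicInt.toZModPow (p := 2) 3) h1
  simp only [map_add, map_pow, map_one, map_zero] at h2
  exact zmod_eight _ _ _ h2

private theorem four_aux (x y z w : ℚ_[2]) (hx : x ≠ 0) (hy : ‖y‖ ≤ ‖x‖) (hz : ‖z‖ ≤ ‖x‖)
    (hw : ‖w‖ ≤ ‖x‖) : x ^ 2 + y ^ 2 + z ^ 2 + w ^ 2 ≠ 0 := by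
  intro h
  have hx' : 0 < ‖x‖ := norm_pos_iff.mpr hx
  apply one_add_ne (y / x) (z / x) (w / x)
    (by rw [norm_div]; exact (div_le_one hx').mpr hy)
    (by rw [norm_div]; exact (div_le_one hx').mpr hz)
    (by rw [norm_div]; exact (div_le_one hx').mpr hw)
  have h3 : x ^ 2 * (1 + (y / x) ^ 2 + (z / x) ^ 2 + (w / x) ^ 2)
      = x ^ 2 + y ^ 2 + z ^ 2 + w ^ 2 := by
    field_simp
  rw [h] at h3
  exact (mul_eq_zero.mp h3).resolve_left (pow_ne_zero 2 hx)

private theorem four_ne (x y z w : ℚ_[2]) (h : x ^ 2 + y ^ 2 + z ^ 2 + w ^ 2 = 0) :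
    x = 0 ∧ y = 0 ∧ z = 0 ∧ w = 0 := by
  have key : ∀ f : Fin 4 → ℚ_[2], f 0 ^ 2 + f 1 ^ 2 + f 2 ^ 2 + f 3 ^ 2 = 0 → ∀ i, f i = 0 := by
    intro f hf i
    obtain ⟨m, -, hm⟩ := Finset.exists_max_image (Finset.univ : Finset (Fin 4)) (fun j => ‖f j‖)
      ⟨0, Finset.mem_univ 0⟩
    have hm' : ∀ j, ‖f j‖ ≤ ‖f m‖ := fun j => hm j (Finset.mem_univ j)
    by_cases h0 : f m = 0
    · have h1 := hm' i
      rw [h0, norm_zero] at h1
      exact norm_le_zero_iff.mp h1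
    · exfalso
      have h4 : ∀ i j k l : Fin 4, f i ≠ 0 → (∀ j, ‖f j‖ ≤ ‖f i‖) →
          f i ^ 2 + f j ^ 2 + f k ^ 2 + f l ^ 2 ≠ 0 :=
        fun i j k l hi hj => four_aux _ _ _ _ hi (hj j) (hj k) (hj l)
      have h5 : m = 0 ∨ m = 1 ∨ m = 2 ∨ m = 3 := by omega
      rcases h5 with rfl | rfl | rfl | rfl
      · exact h4 0 1 2 3 h0 hm' hf
      · exact h4 1 0 2 3 h0 hm' (by linear_combination hf)
      · exact h4 2 0 1 3 h0 hm' (by linear_combination hf)
      · exact h4 3 0 1 2 h0 hm' (by linear_combination hf)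
  have h2 := key ![x, y, z, w] h
  exact ⟨h2 0, h2 1, h2 2, h2 3⟩

private theorem normSq_ne (q : Quaternion ℚ_[2]) (h : Quaternion.normSq q = 0) : q = 0 := by
  rw [Quaternion.normSq_def'] at h
  obtain ⟨h1, h2, h3, h4⟩ := four_ne _ _ _ _ h
  exact Quaternion.ext _ _ h1 h2 h3 h4

theorem noZeroDivisors_quat : NoZeroDivisors (Quaternion ℚ_[2]) := by
  refine ⟨?_⟩
  intro a b hab
  have h := congrArg Quaternion.normSq hab
  rw [map_mul, map_zero] at h
  rcases mul_eq_zero.mp h with h | h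
  · exact Or.inl (normSq_ne a h)
  · exact Or.inr (normSq_ne b h)

/-- the quaternion `i` -/
private noncomputable def qI : Quaternion ℚ_[2] := ⟨0, 1, 0, 0⟩

/-- the quaternion `j` -/
private noncomputable def qJ : Quaternion ℚ_[2] := ⟨0, 0, 1, 0⟩

private theorem qI_sq : qI ^ 2 = -1 := by
  rw [pow_two]
  ext <;> simp [qI] <;> rfl

private theorem qJ_sq : qJ * qJ = -1 := by
  ext <;> simp [qJ] <;> rfl

private theorem qI_four : qI ^ 4 = 1 := by
  have h : qI ^ 4 = (qI ^ 2) * (qI ^ 2) := by rw [← pow_add]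
  rw [h, qI_sq]
  exact (neg_mul_neg (1 : Quaternion ℚ_[2]) 1).trans (one_mul 1)

private theorem qI_three : qI ^ 3 = -qI := by
  rw [pow_succ, qI_sq]
  exact neg_one_mul qI

private theorem qI_qJ : qI * qJ = qJ * qI ^ 3 := by
  rw [qI_three]
  ext <;> simp [qI, qJ]

private theorem qI_pow_qJ (n : ℕ) : qI ^ n * qJ = qJ * qI ^ (3 * n) := by
  induction n with
  | zero => simp
  | succ n ih =>
    rw [pow_succ, mul_assoc, qI_qJ, ← mul_assoc, ih, mul_assoc, ← pow_add]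
    congr 1

private theorem val_neg4 : ∀ i : ZMod (2 * 2), (-i).val = (3 * i.val) % 4 := by decide

/-- powers of `i` -/
private noncomputable def pI (i : ZMod (2 * 2)) : Quaternion ℚ_[2] := qI ^ i.val

private theorem pI_add (i j : ZMod (2 * 2)) : pI (i + j) = pI i * pI j := by
  rw [pI, pI, pI, ← pow_add, ZMod.val_add, ← pow_eq_pow_mod _ qI_four]

private theorem pI_qJ (i : ZMod (2 * 2)) : pI i * qJ = qJ * pI (-i) := by
  rw [pI, pI, qI_pow_qJ, val_neg4, ← pow_eq_pow_mod _ qI_four]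

private theorem pI_two : pI 2 = -1 := by
  rw [pI]
  exact qI_sq

private theorem pI_zero : pI 0 = 1 := by
  rw [pI]
  exact pow_zero _

private theorem pI_one : pI 1 = qI := by
  rw [pI]
  exact pow_one _

private theorem pI_three : pI (-1) = -qI := by
  rw [pI]
  exact qI_three

/-- the homomorphism from the quaternion group -/
private noncomputable def psiFun : QuaternionGroup 2 → Quaternion ℚ_[2]
  | .a i => pI i
  | .xa i => qJ * pI i

private theorem psi_mul (g h : QuaternionGroup 2) : psiFun (g * h) = psiFun g * psiFun h := by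
  rcases g with i | i <;> rcases h with j | j
  · rw [QuaternionGroup.a_mul_a]
    exact pI_add i j
  · rw [QuaternionGroup.a_mul_xa]
    change qJ * pI (j - i) = pI i * (qJ * pI j)
    rw [← mul_assoc, pI_qJ, mul_assoc, ← pI_add, neg_add_eq_sub]
  · rw [QuaternionGroup.xa_mul_a]
    change qJ * pI (i + j) = qJ * pI i * pI j
    rw [pI_add, mul_assoc]
  · rw [QuaternionGroup.xa_mul_xa]
    change pI (2 + j - i) = qJ * pI i * (qJ * pI j)
    rw [show qJ * pI i * (qJ * pI j) = qJ * (pI i * qJ) * pI j by simp only [mul_assoc], pI_qJ,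
      ← mul_assoc, qJ_sq, mul_assoc, ← pI_add, ← pI_two, ← pI_add]
    congr 1
    ring

theorem exists_quat_hom : ∃ ψ : QuaternionGroup 2 →* Quaternion ℚ_[2],
    Submodule.span ℚ_[2] (Set.range ψ) = ⊤ ∧ ψ (QuaternionGroup.a 2) = -1 := by
  refine ⟨⟨⟨psiFun, pI_zero⟩, psi_mul⟩, ?_, pI_two⟩
  rw [eq_top_iff]
  rintro q -
  have hm : ∀ g : QuaternionGroup 2, psiFun g ∈ Submodule.span ℚ_[2]
      (Set.range (⟨⟨psiFun, pI_zero⟩, psi_mul⟩ : QuaternionGroup 2 →* Quaternion ℚ_[2])) :=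
    fun g => Submodule.subset_span ⟨g, rfl⟩
  have hq : q = q.re • psiFun (QuaternionGroup.a 0) + q.imI • psiFun (QuaternionGroup.a 1)
      + q.imJ • psiFun (QuaternionGroup.xa 0) + q.imK • psiFun (QuaternionGroup.xa (-1)) := by
    change q = q.re • pI 0 + q.imI • pI 1 + q.imJ • (qJ * pI 0) + q.imK • (qJ * pI (-1))
    rw [pI_zero, pI_one, pI_three]
    have e1 : (1 : Quaternion ℚ_[2]) = ⟨1, 0, 0, 0⟩ := rfl
    rw [e1]
    ext <;> simp [qI, qJ]
  rw [hq]
  exact Submodule.add_mem _ (Submodule.add_mem _ (Submodule.add_mem _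
    (Submodule.smul_mem _ _ (hm _)) (Submodule.smul_mem _ _ (hm _)))
    (Submodule.smul_mem _ _ (hm _))) (Submodule.smul_mem _ _ (hm _))

/-- the only element of order 2 of the quaternion group is `a^2` -/
theorem quat_order_two (g : QuaternionGroup 2) (h1 : g ≠ 1) (h2 : g * g = 1) :
    g = QuaternionGroup.a 2 := by
  revert g
  decide

end GR95
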