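import Pool.Agent.LibGR95.RSplitDim
import Pool.Agent.LibGR95.RQuat

/-! Row G24. The quaternion case, `p = 2`. `ccAut K` has order 2, so it is mapped to `a 2` by `quat_order_two`;
`split_full` with `D = Quaternion ℚ_[2]`, `2 * 4 = 8 = card (QuaternionGroup 2)`. -/

namespace GR95

open NumberField Bru95

private theorem RQ8_cc_sq (K : Type*) [Field K] [NumberField K] [IsCMField K] :
    ccAut K * ccAut K = 1 := by
  ext x
  exact IsCMField.complexConj_apply_apply K x

private theorem RQ8_cc_ne (K : Type*) [Field K] [NumberField K] [IsCMField K] :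
    ccAut K ≠ 1 := by
  intro h
  apply IsCMField.complexConj_ne_one K
  ext x
  exact DFunLike.congr_fun h x

theorem quaternion_case (K : Type*) [Field K] [NumberField K] [IsCMField K] [IsGalois ℚ K]
    {L : ℚ_[2] → ℚ_[2]} (hL : IsPadicLog 2 L) (e : (K ≃ₐ[ℚ] K) ≃* QuaternionGroup 2)
    (hsplit : ∀ (σ : Emb 2 K) (x : K), ∃ y : ℚ_[2], σ x = algebraMap ℚ_[2] (PadicAlgCl 2) y) :
    LogImage 2 K L = Ym 2 K := by
  obtain ⟨ψ, hψ, hψ2⟩ := exists_quat_hom
  have : NoZeroDivisors (Quaternion ℚ_[2]) := noZeroDivisors_quat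
  have hcc : e (ccAut K) = QuaternionGroup.a 2 := by
    apply quat_order_two
    · intro h
      apply RQ8_cc_ne K
      apply e.injective
      rw [h, map_one]
    · rw [← map_mul, RQ8_cc_sq, map_one]
  refine split_full 2 K hL hsplit (D := Quaternion ℚ_[2]) (ψ.comp e.toMonoidHom) ?_ ?_ ?_
  · rw [← hψ]
    congr 1
    ext d
    constructor
    · rintro ⟨g, rfl⟩
      exact ⟨e g, rfl⟩
    · rintro ⟨g, rfl⟩
      exact ⟨e.symm g, by simp⟩
  · show ψ (e (ccAut K)) = -1
    rw [hcc, hψ2]
  · rw [Quaternion.finrank_eq_four, Nat.card_congr e.toEquiv, Nat.card_eq_fintype_card,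
      QuaternionGroup.card]

end GR95
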