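import Pool.Agent.LibGR95.RFamDef

/-! Row G35. The dimension of the part of the family is `m (p - 1)`: same set-up as the proof of `family`: if `ω^(t/2) = -1`, `t` even and complex
conjugation is `b^(m t/2)`, then `ψ(c) = C^(m t/2) = ω^(t/2) = -1`, and `ℓ ↦ F_ℓ`, `F_ℓ(σ₀ x) = ℓ(ψ x)`, is a linear bijection from the
dual of `D` (dimension `m (p - 1)`, basis `C^i A^k`, `i < m`, `k < p - 1`, by `det_ne_zero`) onto `famPart`: `F_ℓ ∈ Y⁻` (all places have one embedding:
`SamePlace σ τ → σ = τ` by `hsplit`; `c` is central so `F_ℓ(σ₀ x c) = ℓ(ψ x ψ c) = - ℓ(ψ x)`), and every `v ∈ famPart` is such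
an `F_ℓ` (agreement on `b^j a^k`, `j < m`, `k < p - 1`, as in `family`; the private lemmas of RFam.lean may be copied with new
names). Alternatively: the restriction map `famPart → (Fin m × Fin (p-1) → ℚ_[p])`, `v ↦ v(σ₀ b^j a^k)`, is bijective, with an explicit
inverse. -/

namespace GR95

open NumberField Bru95

section RRank_alg

/-- all products `C^j A^k` are combinations of the small ones -/
private theorem RRank_span {F M : Type*} [Field F] [Ring M] [Algebra F M] {n m : ℕ}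
    (hm : 0 < m) (w : F) (A C : M) (hC : C ^ m = algebraMap F M w) (hA : A ^ (n + 1) = 1)
    (hs : ∑ k ∈ Finset.range (n + 1), A ^ k = 0) (j k : ℕ) :
    C ^ j * A ^ k ∈ Submodule.span F
      (Set.range fun ik : Fin m × Fin n => C ^ (ik.1 : ℕ) * A ^ (ik.2 : ℕ)) := by
  set S := Submodule.span F
      (Set.range fun ik : Fin m × Fin n => C ^ (ik.1 : ℕ) * A ^ (ik.2 : ℕ)) with hS
  have h1 : ∀ i k, i < m → k < n → C ^ i * A ^ k ∈ S := fun i k hi hk =>
    Submodule.subset_span ⟨(⟨i, hi⟩, ⟨k, hk⟩), rfl⟩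
  have h2 : ∀ i k, i < m → k < n + 1 → C ^ i * A ^ k ∈ S := by
    intro i k hi hk
    rcases lt_or_ge k n with h | h
    · exact h1 i k hi h
    · have hk' : k = n := by omega
      have h3 : A ^ k = - ∑ k ∈ Finset.range n, A ^ k := by
        rw [Finset.sum_range_succ] at hs
        rw [hk']
        exact (eq_neg_of_add_eq_zero_right hs)
      rw [h3, mul_neg, Finset.mul_sum]
      exact S.neg_mem (S.sum_mem fun k hk => h1 i k hi (Finset.mem_range.1 hk))
  have h5 : C ^ j * A ^ k = (w ^ (j / m)) • (C ^ (j % m) * A ^ (k % (n + 1))) := by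
    have h6 : A ^ k = A ^ (k % (n + 1)) := by
      conv_lhs => rw [← Nat.mod_add_div k (n + 1), pow_add, pow_mul, hA, one_pow, mul_one]
    have h7 : C ^ j = (w ^ (j / m)) • C ^ (j % m) := by
      conv_lhs => rw [← Nat.mod_add_div j m, pow_add, pow_mul, hC, ← map_pow, ← Algebra.commutes,
        ← Algebra.smul_def]
    rw [h6, h7, smul_mul_assoc]
  rw [h5]
  exact S.smul_mem _ (h2 _ _ (Nat.mod_lt _ hm) (Nat.mod_lt _ (by omega)))

/-- two functions with the same quasi-periods which agree on the small elements agree -/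
private theorem RRank_agree {G F : Type*} [Group G] [Field F] {n m N : ℕ} (hm : 0 < m)
    (a b : G) (hab : b ^ m * a = a * b ^ m)
    (hrep : ∀ x : G, ∃ j k : ℕ, j < N ∧ k < n + 1 ∧ x = b ^ j * a ^ k)
    (w : F) (F1 F2 : G → F)
    (h1 : ∀ x, F1 (x * b ^ m) = w * F1 x) (h2 : ∀ x, F2 (x * b ^ m) = w * F2 x)
    (k1 : ∀ x, ∑ k ∈ Finset.range (n + 1), F1 (x * a ^ k) = 0)
    (k2 : ∀ x, ∑ k ∈ Finset.range (n + 1), F2 (x * a ^ k) = 0)
    (hF : ∀ i k, i < m → k < n → F1 (b ^ i * a ^ k) = F2 (b ^ i * a ^ k)) :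
    ∀ x, F1 x = F2 x := by
  have e1 : ∀ i k, i < m → k < n + 1 → F1 (b ^ i * a ^ k) = F2 (b ^ i * a ^ k) := by
    intro i k hi hk
    rcases lt_or_ge k n with h | h
    · exact hF i k hi h
    · have hk' : k = n := by omega
      have u1 := k1 (b ^ i)
      have u2 := k2 (b ^ i)
      rw [Finset.sum_range_succ] at u1 u2
      have u3 : ∑ k ∈ Finset.range n, F1 (b ^ i * a ^ k) =
          ∑ k ∈ Finset.range n, F2 (b ^ i * a ^ k) :=
        Finset.sum_congr rfl fun k hk => hF i k hi (Finset.mem_range.1 hk)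
      rw [u3] at u1
      rw [hk']
      have u4 := u1.trans u2.symm
      exact add_left_cancel u4
  have hcomm : ∀ k : ℕ, b ^ m * a ^ k = a ^ k * b ^ m := fun k =>
    ((show Commute (b ^ m) a from hab).pow_right k)
  have e2 : ∀ (E : G → F), (∀ x, E (x * b ^ m) = w * E x) → ∀ i k s : ℕ,
      E (b ^ (i + m * s) * a ^ k) = w ^ s * E (b ^ i * a ^ k) := by
    intro E hE i k s
    induction s with
    | zero => simp
    | succ s ih =>
      have h3 : b ^ (i + m * (s + 1)) * a ^ k = (b ^ (i + m * s) * a ^ k) * b ^ m := by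
        rw [mul_assoc, ← hcomm k, ← mul_assoc, ← pow_add]
        congr 2
        ring
      rw [h3, hE, ih, pow_succ]
      ring
  intro x
  obtain ⟨j, k, _, hk, rfl⟩ := hrep x
  rw [← Nat.mod_add_div j m, e2 F1 h1, e2 F2 h2, e1 _ k (Nat.mod_lt _ hm) hk]

private theorem RRank_functional {F V ι : Type*} [Field F] [AddCommGroup V] [Module F V]
    (v : ι → V) (hv : LinearIndependent F v) (φ : ι → F) :
    ∃ ℓ : V →ₗ[F] F, ∀ i, ℓ (v i) = φ i := by
  obtain ⟨ℓ, hℓ⟩ := LinearMap.exists_extend ((Module.Basis.span hv).constr F φ)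
  refine ⟨ℓ, fun i => ?_⟩
  have h1 := LinearMap.congr_fun hℓ ((Module.Basis.span hv) i)
  rw [Module.Basis.constr_basis] at h1
  rw [← h1]
  show ℓ (v i) = ℓ (((Module.Basis.span hv) i : Submodule.span F (Set.range v)) : V)
  rw [Module.Basis.span_apply]

end RRank_alg

/-- in a Galois extension all embeddings are conjugate -/
private theorem RRank_emb (p : ℕ) [Fact p.Prime] (K : Type*) [Field K] [NumberField K]
    [IsGalois ℚ K] (σ₀ : Emb p K) :
    Function.Bijective (fun x : K ≃ₐ[ℚ] K => σ₀.comp (x : K →+* K)) := by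
  classical
  have hinj : Function.Injective (fun x : K ≃ₐ[ℚ] K => σ₀.comp (x : K →+* K)) := by
    intro x y hxy
    ext z
    have h1 : σ₀ (x z) = σ₀ (y z) := RingHom.congr_fun hxy z
    exact σ₀.injective h1
  have hcard : Fintype.card (K ≃ₐ[ℚ] K) = Fintype.card (Emb p K) := by
    have h1 : Fintype.card (K →+* PadicAlgCl p) = Module.finrank ℚ K :=
      NumberField.Embeddings.card K (PadicAlgCl p)
    have h2 := IsGalois.card_aut_eq_finrank ℚ K
    rw [Nat.card_eq_fintype_card] at h2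
    rw [h2]
    exact h1.symm
  exact (Fintype.bijective_iff_injective_and_card _).2 ⟨hinj, hcard⟩

variable (p : ℕ) [Fact p.Prime] (K : Type*) [Field K] [NumberField K] [IsCMField K]

theorem finrank_famPart [IsGalois ℚ K]
    (hsplit : ∀ (σ : Emb p K) (x : K), ∃ y : ℚ_[p], σ x = algebraMap ℚ_[p] (PadicAlgCl p) y)
    {m t g : ℕ} (hm : 0 < m) (ht : 0 < t) (hmt : ¬ p ∣ m * (2 * t)) (a b : K ≃ₐ[ℚ] K)
    (ha : orderOf a = p) (hb : orderOf b = m * (2 * t)) (hgen : Subgroup.closure {a, b} = ⊤)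
    (hab : b * a * b⁻¹ = a ^ g) (hgm : g ^ m ≡ 1 [MOD p]) (ω : ℤ_[p]) (hω : ω ^ t = -1)
    (hirr : Irreducible (Polynomial.X ^ m - Polynomial.C (PadicInt.toZMod ω) : Polynomial (ZMod p)))
    (hcc : ccAut K = b ^ (m * t)) :
    Module.finrank ℚ_[p] (famPart p K a b m ω) = m * (p - 1) := by
  classical
  have hp : p.Prime := Fact.out
  have hp2 : 2 ≤ p := hp.two_le
  have : NeZero (p : PadicAlgCl p) := ⟨Nat.cast_ne_zero.2 hp.ne_zero⟩
  obtain ⟨ζ, hζ⟩ := HasEnoughRootsOfUnity.exists_primitiveRoot (PadicAlgCl p) p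
  have hgh : g * g ^ (m - 1) ≡ 1 [MOD p] := by
    have : g * g ^ (m - 1) = g ^ m := by
      rw [← pow_succ']
      congr 1
      omega
    rw [this]
    exact hgm
  have hh : ¬ p ∣ g ^ (m - 1) := by
    intro hd
    have h3 : g * g ^ (m - 1) ≡ 0 [MOD p] := Nat.modEq_zero_iff_dvd.2 (Dvd.dvd.mul_left hd g)
    have h4 : 1 ≡ 0 [MOD p] := hgh.symm.trans h3
    rw [Nat.modEq_zero_iff_dvd] at h4
    have h5 := Nat.le_of_dvd one_pos h4
    omega
  set h := g ^ (m - 1) with hh_def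
  set w' : PadicAlgCl p := algebraMap ℚ_[p] (PadicAlgCl p) (ω : ℚ_[p]) with hw'
  set A : Matrix (Fin m) (Fin m) (PadicAlgCl p) := Am m ζ h with hA_def
  set C : Matrix (Fin m) (Fin m) (PadicAlgCl p) := Cm m w' with hC_def
  have hApow : ∀ k : ℕ, A ^ k = Matrix.diagonal fun j : Fin m => (ζ ^ (h ^ (j : ℕ))) ^ k := by
    intro k
    rw [hA_def, Am, Matrix.diagonal_pow]
    rfl
  have hprim : ∀ j : ℕ, IsPrimitiveRoot (ζ ^ (h ^ j)) p := by
    intro j
    apply hζ.pow_of_coprime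
    exact Nat.Coprime.pow_left _ ((Nat.coprime_comm.1 ((Nat.Prime.coprime_iff_not_dvd hp).2 hh)))
  have hA : A ^ p = 1 := by
    rw [hApow, ← Matrix.diagonal_one]
    congr 1
    funext j
    exact (hprim j).pow_eq_one
  have hAsum : ∑ k ∈ Finset.range p, A ^ k = 0 := by
    ext i j
    rw [Matrix.sum_apply]
    have h3 : ∀ k ∈ Finset.range p, (A ^ k) i j =
        if i = j then (ζ ^ (h ^ (i : ℕ))) ^ k else 0 := by
      intro k _
      rw [hApow, Matrix.diagonal_apply]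
    rw [Finset.sum_congr rfl h3]
    by_cases hij : i = j
    · simp only [hij, if_true]
      exact (hprim _).geom_sum_eq_zero hp.one_lt
    · simp [hij]
  have hCm : C ^ m = algebraMap ℚ_[p] (Matrix (Fin m) (Fin m) (PadicAlgCl p)) (ω : ℚ_[p]) := by
    rw [hC_def, Cm_pow, Algebra.algebraMap_eq_smul_one, hw', algebraMap_smul]
  have hωt : (ω : ℚ_[p]) ^ t = -1 := by
    rw [← PadicInt.coe_pow, hω, PadicInt.coe_neg, PadicInt.coe_one]
  have hCt : C ^ (m * t) = -1 := by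
    rw [pow_mul, hCm, ← map_pow, hωt, map_neg, map_one]
  have hCN : C ^ (m * (2 * t)) = 1 := by
    have h3 : m * (2 * t) = m * t * 2 := by ring
    rw [h3, pow_mul, hCt, neg_one_sq]
  have hCA : C * A = A ^ g * C := Cm_mul_Am hζ.pow_eq_one hgh hgm
  obtain ⟨⟨ψ, hψa, hψb⟩, hrep⟩ := exists_hom_ext hp (Nat.mul_pos hm (Nat.mul_pos two_pos ht)) hmt a b ha hb hgen hab
    A C hA hCN hCA
  -- the order relations
  have hconj : ∀ n : ℕ, b ^ n * a * (b ^ n)⁻¹ = a ^ (g ^ n) := by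
    intro n
    induction n with
    | zero => simp
    | succ n ih =>
      have h3 : b ^ (n + 1) * a * (b ^ (n + 1))⁻¹ = b ^ n * (b * a * b⁻¹) * (b ^ n)⁻¹ := by
        rw [pow_succ]
        group
      have h4 : ∀ k : ℕ, b ^ n * a ^ k * (b ^ n)⁻¹ = (b ^ n * a * (b ^ n)⁻¹) ^ k := by
        intro k
        rw [conj_pow]
      rw [h3, hab, h4, ih, ← pow_mul, ← pow_succ]
  have hbm : b ^ m * a = a * b ^ m := by
    have h3 := hconj m
    have h4 : a ^ (g ^ m) = a ^ 1 := by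
      rw [pow_eq_pow_iff_modEq, ha]
      exact hgm
    rw [h4, pow_one] at h3
    exact mul_inv_eq_iff_eq_mul.1 h3
  obtain ⟨n, hn⟩ : ∃ n, p = n + 1 := ⟨p - 1, by omega⟩
  have hn' : p - 1 = n := by omega
  have hpsi : ∀ j k : ℕ, ψ (b ^ j * a ^ k) = C ^ j * A ^ k := by
    intro j k
    rw [map_mul, map_pow, map_pow, hψa, hψb]
  have hdet : ∀ c : Fin m × Fin n → ℚ_[p], c ≠ 0 →
      (∑ ik, c ik • (C ^ (ik.1 : ℕ) * A ^ (ik.2 : ℕ))).det ≠ 0 := by
    intro c hc
    have h3 := det_ne_zero p hm ω hirr hζ hh (fun i k => c (i, Fin.cast hn' k)) (by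
      intro h4
      apply hc
      funext ik
      have h5 := congrFun (congrFun h4 ik.1) (Fin.cast hn'.symm ik.2)
      exact h5)
    have h4 : (∑ ik, c ik • (C ^ (ik.1 : ℕ) * A ^ (ik.2 : ℕ))) =
        ∑ i, ∑ k : Fin (p - 1), c (i, Fin.cast hn' k) • (C ^ (i : ℕ) * A ^ (k : ℕ)) := by
      rw [Fintype.sum_prod_type]
      apply Finset.sum_congr rfl
      intro i _
      exact (Fintype.sum_equiv (finCongr hn') _ _ (fun k => rfl)).symm
    rw [h4]
    exact h3
  have hli : LinearIndependent ℚ_[p]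
      (fun ik : Fin m × Fin n => C ^ (ik.1 : ℕ) * A ^ (ik.2 : ℕ)) := by
    rw [Fintype.linearIndependent_iff]
    intro c hc
    by_contra hcon
    push Not at hcon
    obtain ⟨i, hi⟩ := hcon
    have h3 : c ≠ 0 := by
      intro h4
      rw [h4] at hi
      exact hi rfl
    have h4 := hdet c h3
    rw [hc] at h4
    have : Nonempty (Fin m) := ⟨⟨0, hm⟩⟩
    exact h4 (Matrix.det_zero)
  -- the embeddings
  obtain ⟨σ₀⟩ : Nonempty (Emb p K) := by
    have h3 : 0 < Fintype.card (K →+* PadicAlgCl p) := by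
      rw [NumberField.Embeddings.card K (PadicAlgCl p)]
      exact Module.finrank_pos
    exact Fintype.card_pos_iff.1 h3
  have hcomp : ∀ x y : K ≃ₐ[ℚ] K, (σ₀.comp (x : K →+* K)).comp (y : K →+* K) =
      σ₀.comp ((x * y : K ≃ₐ[ℚ] K) : K →+* K) := fun x y => rfl
  -- complex conjugation
  have hψc : ψ (ccAut K) = -1 := by
    rw [hcc, map_pow, hψb, hCt]
  have hsame : ∀ σ τ : Emb p K, SamePlace p K σ τ → σ = τ := by
    rintro σ τ ⟨γ, hγ⟩
    ext x
    obtain ⟨y, hy⟩ := hsplit σ x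
    rw [← hγ]
    show σ x = γ (σ x)
    rw [hy]
    exact (γ.commutes y).symm
  let e : (K ≃ₐ[ℚ] K) ≃ Emb p K := Equiv.ofBijective _ (RRank_emb p K σ₀)
  have he : ∀ x : K ≃ₐ[ℚ] K, e x = σ₀.comp (x : K →+* K) := fun x => rfl
  have hes : ∀ x y : K ≃ₐ[ℚ] K, e.symm ((σ₀.comp (x : K →+* K)).comp (y : K →+* K)) = x * y := by
    intro x y
    rw [hcomp, ← he, Equiv.symm_apply_apply]
  have hrep' : ∀ x : K ≃ₐ[ℚ] K, ∃ j k : ℕ, j < m * (2 * t) ∧ k < n + 1 ∧ x = b ^ j * a ^ k := by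
    intro x
    obtain ⟨j, k, h3, h4, h5⟩ := hrep x
    exact ⟨j, k, h3, by omega, h5⟩
  let Φ : famPart p K a b m ω →ₗ[ℚ_[p]] (Fin m × Fin n → ℚ_[p]) :=
    { toFun := fun v ik => ((v : Ym p K) : Emb p K → ℚ_[p])
        (σ₀.comp ((b ^ (ik.1 : ℕ) * a ^ (ik.2 : ℕ) : K ≃ₐ[ℚ] K) : K →+* K))
      map_add' := fun v w => rfl
      map_smul' := fun c v => rfl }
  have hΦ : ∀ v ik, Φ v ik = ((v : Ym p K) : Emb p K → ℚ_[p])
        (σ₀.comp ((b ^ (ik.1 : ℕ) * a ^ (ik.2 : ℕ) : K ≃ₐ[ℚ] K) : K →+* K)) := fun v ik => rfl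
  have hinj : Function.Injective Φ := by
    rw [injective_iff_map_eq_zero]
    intro v hv
    obtain ⟨v, h1, h2⟩ := v
    have hagree : ∀ x : K ≃ₐ[ℚ] K, (v : Emb p K → ℚ_[p]) (σ₀.comp (x : K →+* K)) = 0 := by
      apply RRank_agree (n := n) (N := m * (2 * t)) hm a b hbm hrep' (ω : ℚ_[p])
        (fun x : K ≃ₐ[ℚ] K => (v : Emb p K → ℚ_[p]) (σ₀.comp (x : K →+* K))) (fun _ => 0)
      · intro x
        exact h1 (σ₀.comp (x : K →+* K))
      · intro x
        rw [mul_zero]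
      · intro x
        have h3 := h2 (σ₀.comp (x : K →+* K))
        rw [← hn]
        exact h3
      · intro x
        rw [Finset.sum_const_zero]
      · intro i k hi hk
        have h3 := congrFun hv (⟨i, hi⟩, ⟨k, hk⟩)
        rw [hΦ] at h3
        exact h3
    apply Subtype.ext
    apply Subtype.ext
    funext τ
    obtain ⟨x, rfl⟩ := (RRank_emb p K σ₀).2 τ
    exact hagree x
  have hsurj : Function.Surjective Φ := by
    intro φ
    obtain ⟨ℓ, hℓ⟩ := RRank_functional _ hli φ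
    have hF : ∀ x y : K ≃ₐ[ℚ] K, ℓ (ψ (e.symm ((σ₀.comp (x : K →+* K)).comp (y : K →+* K)))) =
        ℓ (ψ x * ψ y) := by
      intro x y
      rw [hes, map_mul]
    have hF0 : ∀ x : K ≃ₐ[ℚ] K, ℓ (ψ (e.symm (σ₀.comp (x : K →+* K)))) = ℓ (ψ x) := by
      intro x
      rw [← he, Equiv.symm_apply_apply]
    let F : Emb p K → ℚ_[p] := fun τ => ℓ (ψ (e.symm τ))
    have hFY : F ∈ Ym p K := by
      refine ⟨fun σ τ h => by rw [hsame σ τ h], fun σ => ?_⟩
      obtain ⟨x, rfl⟩ := (RRank_emb p K σ₀).2 σ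
      have h3 := hF x (ccAut K)
      rw [hψc, mul_neg, mul_one, map_neg] at h3
      show ℓ (ψ (e.symm ((σ₀.comp (x : K →+* K)).comp (cc K)))) = - ℓ (ψ (e.symm _))
      refine Eq.trans h3 ?_
      rw [hF0]
    have hFf : (⟨F, hFY⟩ : Ym p K) ∈ famPart p K a b m ω := by
      refine ⟨fun σ => ?_, fun σ => ?_⟩
      · obtain ⟨x, rfl⟩ := (RRank_emb p K σ₀).2 σ
        show ℓ (ψ (e.symm ((σ₀.comp (x : K →+* K)).comp ((b ^ m : K ≃ₐ[ℚ] K) : K →+* K)))) =
          (ω : ℚ_[p]) * ℓ (ψ (e.symm (σ₀.comp (x : K →+* K))))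
        rw [hF, hF0, map_pow, hψb, hCm, ← Algebra.commutes, ← Algebra.smul_def, map_smul,
          smul_eq_mul]
      · obtain ⟨x, rfl⟩ := (RRank_emb p K σ₀).2 σ
        show ∑ k ∈ Finset.range p,
          ℓ (ψ (e.symm ((σ₀.comp (x : K →+* K)).comp ((a ^ k : K ≃ₐ[ℚ] K) : K →+* K)))) = 0
        have h3 : ∀ k ∈ Finset.range p,
            ℓ (ψ (e.symm ((σ₀.comp (x : K →+* K)).comp ((a ^ k : K ≃ₐ[ℚ] K) : K →+* K)))) =
            ℓ (ψ x * A ^ k) := by
          intro k _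
          rw [hF, map_pow, hψa]
        rw [Finset.sum_congr rfl h3, ← map_sum, ← Finset.mul_sum, hAsum, mul_zero, map_zero]
    refine ⟨⟨⟨F, hFY⟩, hFf⟩, ?_⟩
    funext ik
    rw [hΦ]
    show ℓ (ψ (e.symm (σ₀.comp _))) = φ ik
    rw [hF0, hpsi]
    exact hℓ ik
  have h9 := (LinearEquiv.ofBijective Φ ⟨hinj, hsurj⟩).finrank_eq
  rw [h9, Module.finrank_fintype_fun_eq_card, Fintype.card_prod, Fintype.card_fin,
    Fintype.card_fin, hn']

end GR95
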