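import Pool.Agent.LibGR95.RFinal

/-! Row G33. The regulator map restricted to a constituent of multiplicity one. -/

namespace GR95

open NumberField Bru95

variable (p : ℕ) [Fact p.Prime] (K : Type*) [Field K] [NumberField K] [IsCMField K]

theorem act_valVec (g : K ≃ₐ[ℚ] K) (u : K) :
    act p K ℚ_[p] (g : K →+* K) (valVec p K u) = valVec p K (g u) := by
  funext σ
  show ((locNorm p K (σ.comp (g : K →+* K)) u).valuation : ℚ_[p]) = _
  rw [locNorm_comp p K σ (g : K →+* K) g.bijective u]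
  rfl

theorem act_logVec (L : ℚ_[p] → ℚ_[p]) (g : K ≃ₐ[ℚ] K) (u : K) :
    act p K ℚ_[p] (g : K →+* K) (logVec p K L u) = logVec p K L (g u) := by
  funext σ
  show L (locNorm p K (σ.comp (g : K →+* K)) u) = _
  rw [locNorm_comp p K σ (g : K →+* K) g.bijective u]
  rfl

theorem isPUnit_aut (g : K ≃ₐ[ℚ] K) {u : K} (hu : IsPUnit p K u) : IsPUnit p K (g u) := by
  obtain ⟨h0, n, h1, h2⟩ := hu
  refine ⟨by simpa using h0, n, ?_, ?_⟩
  · have := h1.map (g : K →ₐ[ℚ] K).toRingHom.toIntAlgHom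
    simpa using this
  · have := h2.map (g : K →ₐ[ℚ] K).toRingHom.toIntAlgHom
    simpa using this

theorem minus_aut (g : K ≃ₐ[ℚ] K) {u : K} (hu : u * cc K u = 1) : g u * cc K (g u) = 1 := by
  have h := RingHom.congr_fun (cc_comm K g) u
  have h' : cc K (g u) = g (cc K u) := h
  rw [h', ← map_mul, hu, map_one]

/-- the span of the valuation vectors inside `Y⁻` is everything -/
theorem span_valVec_eq_top : Submodule.span ℚ_[p] {v : Ym p K | ∃ u : K, IsPUnit p K u ∧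
    u * cc K u = 1 ∧ (v : Emb p K → ℚ_[p]) = valVec p K u} = ⊤ := by
  rw [eq_top_iff]
  intro v _
  have h := Ym_le_span p K v.2
  have h2 : Submodule.span ℚ_[p] {f | ∃ u : K, IsPUnit p K u ∧ u * cc K u = 1 ∧
      f = fun τ => ((locNorm p K τ u).valuation : ℚ_[p])} =
      (Submodule.span ℚ_[p] {v : Ym p K | ∃ u : K, IsPUnit p K u ∧
        u * cc K u = 1 ∧ (v : Emb p K → ℚ_[p]) = valVec p K u}).map (Ym p K).subtype := by
    rw [Submodule.map_span]
    congr 1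
    ext f
    constructor
    · rintro ⟨u, hu, hc, rfl⟩
      exact ⟨⟨valVec p K u, valVec_mem_Ym p K hc⟩, ⟨u, hu, hc, rfl⟩, rfl⟩
    · rintro ⟨v, ⟨u, hu, hc, hv⟩, rfl⟩
      exact ⟨u, hu, hc, hv⟩
  rw [h2] at h
  obtain ⟨w, hw, hwv⟩ := h
  have : w = v := Subtype.ext hwv
  rwa [← this]

theorem regulator_comm {L : ℚ_[p] → ℚ_[p]} {Λ : Ym p K →ₗ[ℚ_[p]] Ym p K}
    (hΛ : IsRegulatorMap p K L Λ) (G : Subgroup (K ≃ₐ[ℚ] K)) (g : G) :
    Λ ∘ₗ rep p K G g = rep p K G g ∘ₗ Λ := by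
  apply LinearMap.ext_on (span_valVec_eq_top p K)
  rintro v ⟨u, hu, hc, hv⟩
  apply Subtype.ext
  have e1 : ((rep p K G g v : Ym p K) : Emb p K → ℚ_[p]) = valVec p K ((g : K ≃ₐ[ℚ] K) u) := by
    rw [← act_valVec, ← hv]; rfl
  have e2 := hΛ _ (isPUnit_aut p K (g : K ≃ₐ[ℚ] K) hu) (minus_aut K (g : K ≃ₐ[ℚ] K) hc) _ e1
  have e3 := hΛ u hu hc v hv
  show ((Λ (rep p K G g v) : Ym p K) : Emb p K → ℚ_[p]) = _
  rw [e2, ← act_logVec, ← e3]
  rfl

theorem logImage_le_range {L : ℚ_[p] → ℚ_[p]} {Λ : Ym p K →ₗ[ℚ_[p]] Ym p K}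
    (hΛ : IsRegulatorMap p K L Λ) :
    LogImage p K L ≤ (LinearMap.range Λ).map (Ym p K).subtype := by
  unfold LogImage
  rw [Submodule.span_le]
  rintro f ⟨u, hu, hc, rfl⟩
  refine ⟨Λ ⟨valVec p K u, valVec_mem_Ym p K hc⟩, ⟨_, rfl⟩, ?_⟩
  exact hΛ u hu hc _ rfl

/-- Gross's regulator map is bijective on a constituent of multiplicity one. -/
theorem regulator_R {L : ℚ_[p] → ℚ_[p]} (hL : IsPadicLog p L) (R : Type*) [Field R] [Algebra R K]
    (W : Submodule ℚ_[p] (Ym p K)) (hW : SimpleMultOne p K R W)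
    (Λ : Ym p K →ₗ[ℚ_[p]] Ym p K) (hΛ : IsRegulatorMap p K L Λ) : W.map Λ = W := by
  have hst : ∀ g : GR K R, ∀ w ∈ W, rep p K (GR K R) g w ∈ W := fun g w hw =>
    hW.stable (ofGR g) w hw
  have hmult : ∀ φ : W →ₗ[ℚ_[p]] Ym p K, (∀ (g : GR K R) (w : W),
      φ ⟨rep p K (GR K R) g w, hst g w w.2⟩ = rep p K (GR K R) g (φ w)) → ∀ w, φ w ∈ W :=
    fun φ hφ w => hW.mult φ (fun g w => hφ ⟨toQ g, toQ_mem g⟩ w) w
  have hsimple : ∀ W' : Submodule ℚ_[p] (Ym p K), W' ≤ W →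
      (∀ g : GR K R, ∀ w ∈ W', rep p K (GR K R) g w ∈ W') → W' = ⊥ ∨ W' = W :=
    fun W' hW' hst' => hW.simple W' hW' (fun g f hf => hst' ⟨toQ g, toQ_mem g⟩ f hf)
  have hle : W.map Λ ≤ W := by
    rintro _ ⟨w, hw, rfl⟩
    exact hmult (Λ ∘ₗ W.subtype) (fun g w => by
      exact LinearMap.congr_fun (regulator_comm p K hΛ (GR K R) g) (w : Ym p K)) ⟨w, hw⟩
  refine le_antisymm hle ?_
  by_cases h0 : W ≤ ⊥
  · exact h0.trans bot_le
  obtain ⟨e, he, hr, -, -, hcent⟩ := exists_central_idem (rep p K (GR K R)) W ⊥ hst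
    (fun g w hw => by
      rw [Submodule.mem_bot] at hw ⊢
      rw [hw, map_zero]) hsimple hmult h0
  have hc := hcent Λ (fun g => regulator_comm p K hΛ (GR K R) g)
  intro w hw
  have h1 := logImage_le_range p K hΛ (main_R p K hL R W hW ⟨w, hw, rfl⟩)
  obtain ⟨v, ⟨x, hx⟩, hv⟩ := h1
  have hxw : Λ x = w := by rw [hx]; exact Subtype.ext hv
  have hew : e w = w := by
    rw [← hr] at hw
    obtain ⟨y, rfl⟩ := hw
    exact LinearMap.congr_fun he y
  refine ⟨e x, ?_, ?_⟩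
  · rw [← hr]; exact ⟨x, rfl⟩
  · have := LinearMap.congr_fun hc x
    simp only [LinearMap.comp_apply] at this
    rw [← this, hxw, hew]

/-- Gross's regulator map is bijective if `Y⁻` is multiplicity free. -/
theorem regulator_full_R {L : ℚ_[p] → ℚ_[p]} (hL : IsPadicLog p L) (R : Type*) [Field R]
    [Algebra R K] (h : MultFree p K R) (Λ : Ym p K →ₗ[ℚ_[p]] Ym p K)
    (hΛ : IsRegulatorMap p K L Λ) : Function.Bijective Λ := by
  have h1 := logImage_le_range p K hΛ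
  rw [full_R p K hL R h] at h1
  have hs : Function.Surjective Λ := by
    intro v
    obtain ⟨w, ⟨w', hw'⟩, hw⟩ := h1 v.2
    exact ⟨w', by rw [hw']; exact Subtype.ext hw⟩
  exact ⟨LinearMap.injective_iff_surjective.mpr hs, hs⟩

end GR95
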