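import Pool.Agent.LibGR95.RVal

/-! Row G4. Separation of two places by a `p`-integral element. `K = ℚ(α)` (`Field.exists_primitive_element`), `F` the minimal
polynomial of `α` over `ℚ`, mapped to `ℚ_[p]`; `f` = the minimal polynomial of `σ α` over `ℚ_[p]`; `F = f g`, `F` separable so `f, g`
are coprime in `ℚ_[p][X]`: there is `h` with `f ∣ h`, `g ∣ h - 1`. For an embedding `ρ`, `ρ α` is a root of `F`, so of `f` or of `g`:
`h(ρ α) ∈ {0, 1}`; it is a root of `f` only if `SamePlace σ ρ` (`isConjRoot_iff_exists_algEquiv` or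
`minpoly.eq_of_irreducible..`/`IsAlgClosed`-lift: an automorphism of `PadicAlgCl p` maps `σ α` to `ρ α`, and `σ` is determined by
`σ α`). Approximate the coefficients of `h` by rationals (`Padic.rat_dense`), so that `h'(ρ α) - h(ρ α)` has norm `< 1` for all `ρ`
(finitely many `ρ`; bound `‖ρ α‖^i`), `x = h'(α)`. -/

namespace GR95

open NumberField Bru95 Polynomial

variable (p : ℕ) [Fact p.Prime] (K : Type*) [Field K] [NumberField K]

/-- an embedding is determined by the image of a primitive element -/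
private theorem RSepA_ext {α : K} (hα : IntermediateField.adjoin ℚ {α} = ⊤) {L : Type*} [Field L] [CharZero L]
    {σ τ : K →+* L} (h : σ α = τ α) : σ = τ := by
  have h1 : ∀ x ∈ IntermediateField.adjoin ℚ {α}, σ x = τ x := by
    intro x hx
    induction hx using IntermediateField.adjoin_induction with
    | mem x hx =>
      rw [Set.mem_singleton_iff.1 hx]
      exact h
    | algebraMap q => simp
    | add x y _ _ hx hy => rw [map_add, map_add, hx, hy]
    | mul x y _ _ hx hy => rw [map_mul, map_mul, hx, hy]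
    | inv x _ hx => rw [map_inv₀, map_inv₀, hx]
  ext x
  exact h1 x (by rw [hα]; trivial)

/-- rational approximation of a polynomial -/
private theorem RSepA_approx (h : ℚ_[p][X]) {B : ℝ} (hB : 1 ≤ B) : ∃ q : ℚ[X], ∀ y : PadicAlgCl p, ‖y‖ ≤ B →
    ‖eval₂ (algebraMap ℚ (PadicAlgCl p)) y q - eval₂ (algebraMap ℚ_[p] (PadicAlgCl p)) y h‖ < 1 := by
  have hpos : ∀ i : ℕ, 0 < 1 / B ^ i := fun i => by positivity
  choose c hc using fun i : ℕ => Padic.rat_dense p (h.coeff i) (hpos i)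
  refine ⟨∑ i ∈ Finset.range (h.natDegree + 1), C (c i) * X ^ i, fun y hy => ?_⟩
  rw [eval₂_finsetSum, eval₂_eq_sum_range (p := h), ← Finset.sum_sub_distrib]
  have hterm : ∀ i, ‖eval₂ (algebraMap ℚ (PadicAlgCl p)) y (C (c i) * X ^ i) -
      algebraMap ℚ_[p] (PadicAlgCl p) (h.coeff i) * y ^ i‖ < 1 := by
    intro i
    have h1 : eval₂ (algebraMap ℚ (PadicAlgCl p)) y (C (c i) * X ^ i) -
        algebraMap ℚ_[p] (PadicAlgCl p) (h.coeff i) * y ^ i =
        -(algebraMap ℚ_[p] (PadicAlgCl p) (h.coeff i - c i)) * y ^ i := by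
      rw [eval₂_mul, eval₂_C, eval₂_X_pow, map_sub]
      have h2 : algebraMap ℚ_[p] (PadicAlgCl p) (c i : ℚ_[p]) = algebraMap ℚ (PadicAlgCl p) (c i) := by
        simp
      rw [h2]
      ring
    rw [h1, norm_mul, norm_neg, norm_pow]
    have h2 : ‖algebraMap ℚ_[p] (PadicAlgCl p) (h.coeff i - c i)‖ = ‖h.coeff i - c i‖ :=
      PadicAlgCl.norm_extends p _
    rw [h2]
    have h3 : ‖y‖ ^ i ≤ B ^ i := pow_le_pow_left₀ (norm_nonneg _) hy i
    have hBi : 0 < B ^ i := by positivity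
    calc ‖h.coeff i - c i‖ * ‖y‖ ^ i ≤ ‖h.coeff i - c i‖ * B ^ i :=
          mul_le_mul_of_nonneg_left h3 (norm_nonneg _)
      _ < 1 / B ^ i * B ^ i := mul_lt_mul_of_pos_right (hc i) hBi
      _ = 1 := by field_simp
  obtain ⟨i, -, hi⟩ := IsUltrametricDist.exists_norm_finsetSum_le_of_nonempty
    (t := Finset.range (h.natDegree + 1)) ⟨0, by simp⟩
    (fun i => eval₂ (algebraMap ℚ (PadicAlgCl p)) y (C (c i) * X ^ i) -
      algebraMap ℚ_[p] (PadicAlgCl p) (h.coeff i) * y ^ i)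
  exact hi.trans_lt (hterm i)

theorem exists_sep_K {σ τ : Emb p K} (h : ¬ SamePlace p K σ τ) :
    ∃ x : K, (∀ ρ : Emb p K, ‖ρ x‖ ≤ 1) ∧ ‖σ x‖ < 1 ∧ ‖τ x‖ = 1 := by
  obtain ⟨α, hα⟩ := Field.exists_primitive_element ℚ K
  set F : ℚ_[p][X] := (minpoly ℚ α).map (algebraMap ℚ ℚ_[p]) with hF
  have hroot : ∀ ρ : Emb p K, aeval (ρ α) F = 0 := by
    intro ρ
    rw [hF, aeval_def, eval₂_map]
    have h1 : (algebraMap ℚ_[p] (PadicAlgCl p)).comp (algebraMap ℚ ℚ_[p]) = ρ.comp (algebraMap ℚ K) :=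
      Subsingleton.elim _ _
    rw [h1, ← hom_eval₂, ← aeval_def, minpoly.aeval, map_zero]
  have hsep : F.Separable := by
    rw [hF]
    exact (minpoly.irreducible (Algebra.IsIntegral.isIntegral α)).separable.map
  set f : ℚ_[p][X] := minpoly ℚ_[p] (σ α) with hf
  obtain ⟨g, hg⟩ : f ∣ F := minpoly.dvd _ _ (hroot σ)
  have hcop : IsCoprime f g := by
    rw [hg] at hsep
    exact hsep.isCoprime
  obtain ⟨a, b, hab⟩ := hcop
  -- values
  have hval : ∀ ρ : Emb p K, (aeval (ρ α) f = 0 ∧ aeval (ρ α) (a * f) = 0) ∨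
      (aeval (ρ α) f ≠ 0 ∧ aeval (ρ α) (a * f) = 1) := by
    intro ρ
    have h1 := hroot ρ
    rw [hg, map_mul] at h1
    by_cases h2 : aeval (ρ α) f = 0
    · exact Or.inl ⟨h2, by rw [map_mul, h2, mul_zero]⟩
    · refine Or.inr ⟨h2, ?_⟩
      have h3 := congrArg (aeval (ρ α)) hab
      rw [map_add, map_mul _ b, (mul_eq_zero.1 h1).resolve_left h2, mul_zero, add_zero, map_one] at h3
      exact h3
  have hσ : aeval (σ α) (a * f) = 0 := by
    rw [map_mul, hf, minpoly.aeval, mul_zero]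
  have hτ : aeval (τ α) (a * f) = 1 := by
    rcases hval τ with ⟨h1, -⟩ | ⟨-, h1⟩
    · exfalso
      apply h
      have hint : IsIntegral ℚ_[p] (σ α) := Algebra.IsIntegral.isIntegral _
      have h2 : f = minpoly ℚ_[p] (τ α) :=
        minpoly.eq_of_irreducible_of_monic (minpoly.irreducible hint) h1 (minpoly.monic hint)
      have h3 : IsConjRoot ℚ_[p] (τ α) (σ α) := by
        rw [isConjRoot_def, ← h2]
      obtain ⟨γ, hγ⟩ := isConjRoot_iff_exists_algEquiv.1 h3
      exact ⟨γ, RSepA_ext K hα hγ⟩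
    · exact h1
  -- the bound
  obtain ⟨B, hB1, hB⟩ : ∃ B : ℝ, 1 ≤ B ∧ ∀ ρ : Emb p K, ‖ρ α‖ ≤ B := by
    refine ⟨1 + ∑ ρ : Emb p K, ‖ρ α‖, ?_, fun ρ => ?_⟩
    · have := Finset.sum_nonneg (fun (ρ : Emb p K) (_ : ρ ∈ Finset.univ) => norm_nonneg (ρ α))
      linarith
    · have := Finset.single_le_sum (fun (ρ : Emb p K) _ => norm_nonneg (ρ α)) (Finset.mem_univ ρ)
      linarith
  obtain ⟨q, hq⟩ := RSepA_approx p (a * f) hB1
  have hx : ∀ ρ : Emb p K, ‖ρ (aeval α q) - aeval (ρ α) (a * f)‖ < 1 := by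
    intro ρ
    have h1 := hq (ρ α) (hB ρ)
    have h2 : ρ (aeval α q) = eval₂ (algebraMap ℚ (PadicAlgCl p)) (ρ α) q := by
      rw [aeval_def, hom_eval₂]
      congr 1
      exact Subsingleton.elim _ _
    rw [h2, aeval_def]
    exact h1
  have hone : ∀ ρ : Emb p K, aeval (ρ α) (a * f) = 1 → ‖ρ (aeval α q)‖ = 1 := by
    intro ρ h1
    have h2 := hx ρ
    rw [h1] at h2
    have h3 : ρ (aeval α q) = (ρ (aeval α q) - 1) + 1 := by ring
    rw [h3, IsUltrametricDist.norm_add_eq_max_of_norm_ne_norm, norm_one]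
    · exact max_eq_right h2.le
    · rw [norm_one]
      exact h2.ne
  have hzero : ∀ ρ : Emb p K, aeval (ρ α) (a * f) = 0 → ‖ρ (aeval α q)‖ < 1 := by
    intro ρ h1
    have h2 := hx ρ
    rwa [h1, sub_zero] at h2
  refine ⟨aeval α q, fun ρ => ?_, hzero σ hσ, hone τ hτ⟩
  rcases hval ρ with ⟨-, h1⟩ | ⟨-, h1⟩
  · exact (hzero ρ h1).le
  · exact (hone ρ h1).le

end GR95
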