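import Pool.Agent.LibGR95.RMain

/-! Row G21. `p` totally split, `K/ℚ` Galois with group `G`, `ψ : G → D` a multiplicative homomorphism to a division algebra `D` over
`ℚ_[p]` which spans `D`, `ψ(c) = -1`. All embeddings have values in `ℚ_[p]`, so `SamePlace σ τ ↔ σ = τ` and `g ↦ σ₀ ∘ g` is a bijection
`G → Emb` (`card Emb = [K:ℚ] = card G`, or: two embeddings of a Galois extension differ by an automorphism). For a functional `ℓ` on `D` let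
`F_ℓ(σ₀ ∘ g) = ℓ(ψ g)`, `F_ℓ ∈ Y⁻` as `ψ(c g)=-ψ(g)`, note `(σ₀ g) ∘ c`. `W = {F_ℓ}` is stable: `h F_ℓ = F_(ℓ ∘ R_ψ(h))`, `R_d(x) = x d`.
Simple: a stable `W' ≠ ⊥` contains some `F_ℓ`, `ℓ ≠ 0`, so all `F_(ℓ ∘ R_d)` (`hspan`); `d ↦ ℓ ∘ R_d` is injective from `D` to its dual
(if `ℓ(x d) = 0` for all `x` and `d ≠ 0`, then `x ↦ x d` is injective, so onto, and `ℓ = 0`), so onto. Multiplicity one: let
`φ : W → Y⁻` be equivariant. `ℓ ↦ φ(F_ℓ)(σ₀)` is a functional on the dual of `D`, so it is evaluation at some `d₀ ∈ D`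
(finite dimension); `φ(F_ℓ)(σ₀ ∘ g) = (g φ(F_ℓ))(σ₀) = φ(F_(ℓ ∘ R_ψ(g)))(σ₀) = ℓ(d₀ ψ(g))`, so `φ(F_ℓ) = F_(ℓ ∘ L_d₀) ∈ W`.
Apply `main_subgroup` with `G = ⊤`. (`F_ℓ` may fail to be injective in `ℓ`? No: `hspan`.) -/

namespace GR95

open NumberField Bru95

variable (p : ℕ) [Fact p.Prime] (K : Type*) [Field K] [NumberField K] [IsCMField K]

/-- complex conjugation as an element of `Gal(K/ℚ)` -/
noncomputable def ccAut : K ≃ₐ[ℚ] K := (IsCMField.complexConj K).restrictScalars ℚ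

private theorem RSplit_bij [IsGalois ℚ K] (σ₀ : Emb p K) :
    Function.Bijective (fun g : K ≃ₐ[ℚ] K => (σ₀.comp (g : K →+* K) : Emb p K)) := by
  classical
  rw [Fintype.bijective_iff_injective_and_card]
  constructor
  · intro g h hgh
    ext x
    exact σ₀.injective (RingHom.congr_fun hgh x)
  · have h1 : Fintype.card (K →+* PadicAlgCl p) = Module.finrank ℚ K :=
      NumberField.Embeddings.card K (PadicAlgCl p)
    have h2 := IsGalois.card_aut_eq_finrank ℚ K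
    rw [← Nat.card_eq_fintype_card, ← Nat.card_eq_fintype_card, h2]
    rw [← Nat.card_eq_fintype_card] at h1
    exact h1.symm

private theorem RSplit_same (hsplit : ∀ (σ : Emb p K) (x : K), ∃ y : ℚ_[p],
    σ x = algebraMap ℚ_[p] (PadicAlgCl p) y) {σ τ : Emb p K} (h : SamePlace p K σ τ) : σ = τ := by
  obtain ⟨γ, rfl⟩ := h
  ext x
  obtain ⟨y, hy⟩ := hsplit σ x
  change σ x = γ (σ x)
  rw [hy]
  exact (γ.commutes y).symm

private theorem RSplit_F [IsGalois ℚ K]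
    (hsplit : ∀ (σ : Emb p K) (x : K), ∃ y : ℚ_[p], σ x = algebraMap ℚ_[p] (PadicAlgCl p) y)
    {D : Type*} [Ring D] [Algebra ℚ_[p] D] (ψ : (K ≃ₐ[ℚ] K) →* D) (hc : ψ (ccAut K) = -1)
    (σ₀ : Emb p K) :
    ∃ F : (D →ₗ[ℚ_[p]] ℚ_[p]) →ₗ[ℚ_[p]] Ym p K, ∀ (ℓ : D →ₗ[ℚ_[p]] ℚ_[p]) (g : K ≃ₐ[ℚ] K),
      (F ℓ : Emb p K → ℚ_[p]) (σ₀.comp (g : K →+* K)) = ℓ (ψ g) := by
  classical
  set E := Equiv.ofBijective _ (RSplit_bij p K σ₀) with hE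
  have hEg : ∀ g : K ≃ₐ[ℚ] K, E.symm (σ₀.comp (g : K →+* K)) = g := fun g =>
    E.symm_apply_apply g
  have hmem : ∀ ℓ : D →ₗ[ℚ_[p]] ℚ_[p], (fun σ : Emb p K => ℓ (ψ (E.symm σ))) ∈ Ym p K := by
    intro ℓ
    refine ⟨fun σ τ h => by rw [RSplit_same p K hsplit h], fun σ => ?_⟩
    obtain ⟨g, rfl⟩ := (RSplit_bij p K σ₀).2 σ
    have h1 : (σ₀.comp (g : K →+* K)).comp (cc K) =
        σ₀.comp ((g * ccAut K : K ≃ₐ[ℚ] K) : K →+* K) := by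
      ext x
      rfl
    change ℓ (ψ (E.symm ((σ₀.comp (g : K →+* K)).comp (cc K)))) =
      -ℓ (ψ (E.symm (σ₀.comp (g : K →+* K))))
    rw [h1, hEg, hEg, map_mul, hc, mul_neg, mul_one, map_neg]
  refine ⟨{ toFun := fun ℓ => ⟨fun σ => ℓ (ψ (E.symm σ)), hmem ℓ⟩
            map_add' := fun a b => rfl
            map_smul' := fun c a => rfl }, ?_⟩
  intro ℓ g
  change ℓ (ψ (E.symm (σ₀.comp (g : K →+* K)))) = ℓ (ψ g)
  rw [hEg]

private theorem RSplit_ext [IsGalois ℚ K] (σ₀ : Emb p K) {f f' : Ym p K}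
    (h : ∀ g : K ≃ₐ[ℚ] K, (f : Emb p K → ℚ_[p]) (σ₀.comp (g : K →+* K)) =
      (f' : Emb p K → ℚ_[p]) (σ₀.comp (g : K →+* K))) : f = f' := by
  apply Subtype.ext
  funext σ
  obtain ⟨g, rfl⟩ := (RSplit_bij p K σ₀).2 σ
  exact h g

theorem split_division {L : ℚ_[p] → ℚ_[p]} (hL : IsPadicLog p L) [IsGalois ℚ K]
    (hsplit : ∀ (σ : Emb p K) (x : K), ∃ y : ℚ_[p], σ x = algebraMap ℚ_[p] (PadicAlgCl p) y)
    {D : Type*} [Ring D] [Nontrivial D] [NoZeroDivisors D] [Algebra ℚ_[p] D]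
    [FiniteDimensional ℚ_[p] D] (ψ : (K ≃ₐ[ℚ] K) →* D)
    (hspan : Submodule.span ℚ_[p] (Set.range ψ) = ⊤) (hc : ψ (ccAut K) = -1) (σ₀ : Emb p K)
    (ℓ : D →ₗ[ℚ_[p]] ℚ_[p]) :
    ∃ f ∈ LogImage p K L, ∀ g : K ≃ₐ[ℚ] K, f (σ₀.comp (g : K →+* K)) = ℓ (ψ g) := by
  classical
  obtain ⟨F, hF⟩ := RSplit_F p K hsplit ψ hc σ₀
  have hrep : ∀ (h : (⊤ : Subgroup (K ≃ₐ[ℚ] K))) (ℓ : D →ₗ[ℚ_[p]] ℚ_[p]),
      rep p K ⊤ h (F ℓ) = F (ℓ ∘ₗ LinearMap.mulRight ℚ_[p] (ψ h)) := by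
    intro h ℓ
    apply RSplit_ext p K σ₀
    intro g
    rw [hF, rep_apply]
    have h1 : (σ₀.comp (g : K →+* K)).comp ((h : K ≃ₐ[ℚ] K) : K →+* K) =
        σ₀.comp ((g * (h : K ≃ₐ[ℚ] K) : K ≃ₐ[ℚ] K) : K →+* K) := by
      ext x
      rfl
    rw [h1, hF, map_mul]
    rfl
  have hW : ∀ g : (⊤ : Subgroup (K ≃ₐ[ℚ] K)), ∀ w ∈ LinearMap.range F,
      rep p K ⊤ g w ∈ LinearMap.range F := by
    rintro g _ ⟨ℓ', rfl⟩
    exact ⟨_, (hrep g ℓ').symm⟩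
  have hmain := main_subgroup p K hL ⊤ (LinearMap.range F) hW ?_ ?_
  · exact ⟨(F ℓ : Emb p K → ℚ_[p]), hmain ⟨F ℓ, ⟨ℓ, rfl⟩, rfl⟩, fun g => hF ℓ g⟩
  · -- simple
    intro W' hle hst
    by_cases hb : W' = ⊥
    · exact Or.inl hb
    · right
      apply le_antisymm hle
      obtain ⟨f, hf, hf0⟩ := (Submodule.ne_bot_iff _).1 hb
      obtain ⟨ℓ₁, hℓ₁⟩ := hle hf
      have hℓ0 : ℓ₁ ≠ 0 := by
        rintro rfl
        apply hf0
        rw [← hℓ₁, map_zero]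
      -- all `F (ℓ₁ ∘ R_d)` are in `W'`
      let T : D →ₗ[ℚ_[p]] (D →ₗ[ℚ_[p]] ℚ_[p]) :=
        { toFun := fun d => ℓ₁ ∘ₗ LinearMap.mulRight ℚ_[p] d
          map_add' := by
            intro a b
            ext x
            simp [mul_add]
          map_smul' := by
            intro c a
            ext x
            simp }
      have hT : ∀ d, T d = ℓ₁ ∘ₗ LinearMap.mulRight ℚ_[p] d := fun d => rfl
      have hTW : ∀ d, F (T d) ∈ W' := by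
        intro d
        have h2 : Submodule.span ℚ_[p] (Set.range ψ) ≤ (W'.comap (F ∘ₗ T)) := by
          rw [Submodule.span_le]
          rintro _ ⟨g, rfl⟩
          change F (T (ψ g)) ∈ W'
          rw [hT]
          have h3 := hst ⟨g, Subgroup.mem_top g⟩ f hf
          rw [← hℓ₁, hrep] at h3
          exact h3
        rw [hspan] at h2
        exact h2 (Submodule.mem_top : d ∈ (⊤ : Submodule ℚ_[p] D))
      have hTinj : Function.Injective T := by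
        rw [← LinearMap.ker_eq_bot, eq_bot_iff]
        intro d hd
        rw [Submodule.mem_bot]
        by_contra hd0
        apply hℓ0
        have hinj : Function.Injective (LinearMap.mulRight ℚ_[p] d) := by
          intro a b hab
          exact mul_right_cancel₀ hd0 hab
        have hsurj : Function.Surjective (LinearMap.mulRight ℚ_[p] d) :=
          LinearMap.surjective_of_injective hinj
        have hd' : ℓ₁ ∘ₗ LinearMap.mulRight ℚ_[p] d = 0 := hd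
        ext x
        obtain ⟨y, rfl⟩ := hsurj x
        exact LinearMap.congr_fun hd' y
      have hTsurj : Function.Surjective T := by
        rw [← LinearMap.injective_iff_surjective_of_finrank_eq_finrank]
        · exact hTinj
        · exact (Subspace.dual_finrank_eq (K := ℚ_[p]) (V := D)).symm
      rintro _ ⟨ℓ₂, rfl⟩
      obtain ⟨d, rfl⟩ := hTsurj ℓ₂
      exact hTW d
  · -- multiplicity one
    intro φ hφ w
    obtain ⟨w, ⟨ℓ', rfl⟩⟩ := w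
    let Λ : (D →ₗ[ℚ_[p]] ℚ_[p]) →ₗ[ℚ_[p]] ℚ_[p] :=
      { toFun := fun ℓ => (φ ⟨F ℓ, ⟨ℓ, rfl⟩⟩ : Emb p K → ℚ_[p]) σ₀
        map_add' := by
          intro a b
          have : (⟨F (a + b), ⟨a + b, rfl⟩⟩ : LinearMap.range F) =
              ⟨F a, ⟨a, rfl⟩⟩ + ⟨F b, ⟨b, rfl⟩⟩ := Subtype.ext (map_add F a b)
          rw [this, map_add]
          rfl
        map_smul' := by
          intro c a
          have : (⟨F (c • a), ⟨c • a, rfl⟩⟩ : LinearMap.range F) =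
              c • ⟨F a, ⟨a, rfl⟩⟩ := Subtype.ext (map_smul F c a)
          rw [this, map_smul]
          rfl }
    obtain ⟨d₀, hd₀⟩ := (Module.evalEquiv ℚ_[p] D).surjective Λ
    have hΛ : ∀ ℓ : D →ₗ[ℚ_[p]] ℚ_[p], (φ ⟨F ℓ, ⟨ℓ, rfl⟩⟩ : Emb p K → ℚ_[p]) σ₀ = ℓ d₀ := by
      intro ℓ
      have := LinearMap.congr_fun hd₀ ℓ
      simpa [Λ] using this.symm
    refine ⟨ℓ' ∘ₗ LinearMap.mulLeft ℚ_[p] d₀, ?_⟩
    apply RSplit_ext p K σ₀
    intro g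
    rw [hF]
    have h4 := hφ ⟨g, Subgroup.mem_top g⟩ ⟨F ℓ', ⟨ℓ', rfl⟩⟩
    have h5 : (φ ⟨F ℓ', ⟨ℓ', rfl⟩⟩ : Emb p K → ℚ_[p]) (σ₀.comp (g : K →+* K)) =
        (rep p K ⊤ ⟨g, Subgroup.mem_top g⟩ (φ ⟨F ℓ', ⟨ℓ', rfl⟩⟩) : Emb p K → ℚ_[p]) σ₀ := rfl
    have h6 : (⟨rep p K ⊤ ⟨g, Subgroup.mem_top g⟩ (F ℓ'), hW _ _ ⟨ℓ', rfl⟩⟩ :
        LinearMap.range F) = ⟨F (ℓ' ∘ₗ LinearMap.mulRight ℚ_[p] (ψ g)), ⟨_, rfl⟩⟩ :=
      Subtype.ext (hrep ⟨g, Subgroup.mem_top g⟩ ℓ')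
    rw [h5, ← h4]
    change (ℓ' ∘ₗ LinearMap.mulLeft ℚ_[p] d₀) (ψ g) =
      (φ ⟨rep p K ⊤ ⟨g, Subgroup.mem_top g⟩ (F ℓ'), hW _ _ ⟨ℓ', rfl⟩⟩ : Emb p K → ℚ_[p]) σ₀
    rw [h6, hΛ]
    rfl

end GR95
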