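import Pool.Agent.LibGR95.RSplit

/-! Row G22. If moreover `2 dim D = |G|`, the functions of `split_division` are all of `Y⁻`: `Y⁻` has dimension `|G|/2`
(functions `f` on `G` with `f(g c) = - f(g)`, `c ≠ 1` of order 2), and `ℓ ↦ F_ℓ` is injective (`hspan`) from a space of dimension
`dim D`. -/

namespace GR95

open NumberField Bru95

variable (p : ℕ) [Fact p.Prime] (K : Type*) [Field K] [NumberField K] [IsCMField K]

private theorem RSplitDim_ccAut_apply (x : K) : ccAut K x = cc K x := rfl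

private theorem RSplitDim_ccAut_coe : ((ccAut K : K ≃ₐ[ℚ] K) : K →+* K) = cc K := rfl

private theorem RSplitDim_ccAut_mul_self : ccAut K * ccAut K = 1 := by
  ext x
  exact cc_cc K x

private theorem RSplitDim_ccAut_comm (g : K ≃ₐ[ℚ] K) : ccAut K * g = g * ccAut K := by
  ext x
  exact RingHom.congr_fun (cc_comm K g) x

omit [IsCMField K] in
private theorem RSplitDim_surj [IsGalois ℚ K] (σ₀ τ : Emb p K) :
    ∃ g : K ≃ₐ[ℚ] K, σ₀.comp (g : K →+* K) = τ := by
  have hinj : Function.Injective (fun g : K ≃ₐ[ℚ] K => σ₀.comp (g : K →+* K)) := by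
    intro g h hgh
    ext x
    have h1 : σ₀ (g x) = σ₀ (h x) := RingHom.congr_fun hgh x
    exact σ₀.injective h1
  have hcard : Nat.card (K ≃ₐ[ℚ] K) = Nat.card (Emb p K) := by
    rw [IsGalois.card_aut_eq_finrank, Nat.card_eq_fintype_card, NumberField.Embeddings.card]
  have hbij := (Nat.bijective_iff_injective_and_card _).2 ⟨hinj, hcard⟩
  exact hbij.2 τ

/-- the functions on the group which are anti-invariant under complex conjugation -/
private noncomputable def RSplitDim_W : Submodule ℚ_[p] ((K ≃ₐ[ℚ] K) → ℚ_[p]) where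
  carrier := {F | ∀ g, F (ccAut K * g) = - F g}
  add_mem' := by
    intro a b ha hb g
    rw [Pi.add_apply, Pi.add_apply, ha g, hb g]
    ring
  zero_mem' := by
    intro g
    simp
  smul_mem' := by
    intro c a ha g
    rw [Pi.smul_apply, Pi.smul_apply, ha g, smul_neg]

private theorem RSplitDim_finrank (hne : ccAut K ≠ 1) :
    2 * Module.finrank ℚ_[p] (RSplitDim_W p K) ≤ Nat.card (K ≃ₐ[ℚ] K) := by
  classical
  let c := ccAut K
  let Q := (K ≃ₐ[ℚ] K) ⧸ Subgroup.zpowers c
  have hc2 : c * c = 1 := RSplitDim_ccAut_mul_self K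
  have hord : orderOf c = 2 := orderOf_eq_prime (by rw [pow_two]; exact hc2) hne
  have hcard : Nat.card (K ≃ₐ[ℚ] K) = Nat.card Q * 2 := by
    rw [Subgroup.card_eq_card_quotient_mul_card_subgroup (Subgroup.zpowers c), Nat.card_zpowers, hord]
  let T : RSplitDim_W p K →ₗ[ℚ_[p]] (Q → ℚ_[p]) :=
    (LinearMap.funLeft ℚ_[p] ℚ_[p] (fun q : Q => (Quotient.out q : K ≃ₐ[ℚ] K))).comp
      (RSplitDim_W p K).subtype
  have hT : ∀ (F : RSplitDim_W p K) (q : Q), T F q = (F : (K ≃ₐ[ℚ] K) → ℚ_[p]) (Quotient.out q) := by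
    intro F q
    rfl
  have hinj : Function.Injective T := by
    rw [← LinearMap.ker_eq_bot, LinearMap.ker_eq_bot']
    intro F hF
    apply Subtype.ext
    funext g
    have hq : ((Quotient.out (QuotientGroup.mk g : Q) : K ≃ₐ[ℚ] K) : Q) = QuotientGroup.mk g :=
      Quotient.out_eq' _
    have h0 : (F : (K ≃ₐ[ℚ] K) → ℚ_[p]) (Quotient.out (QuotientGroup.mk g : Q)) = 0 := by
      rw [← hT, hF]
      rfl
    rw [QuotientGroup.eq] at hq
    obtain ⟨n, hn⟩ := Subgroup.mem_zpowers_iff.1 hq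
    have hn' : g = (Quotient.out (QuotientGroup.mk g : Q) : K ≃ₐ[ℚ] K) * c ^ n := by
      rw [hn]
      group
    rcases Int.even_or_odd n with ⟨r, hr⟩ | ⟨r, hr⟩
    · have h1 : c ^ n = 1 := by
        rw [hr, ← two_mul, zpow_mul, zpow_two, hc2, one_zpow]
      rw [h1, mul_one] at hn'
      rw [hn']
      exact h0
    · have h1 : c ^ n = c := by
        rw [hr, zpow_add, zpow_mul, zpow_two, hc2, one_zpow, one_mul, zpow_one]
      have h2 : g = c * (Quotient.out (QuotientGroup.mk g : Q) : K ≃ₐ[ℚ] K) := by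
        rw [h1] at hn'
        rw [RSplitDim_ccAut_comm]
        exact hn'
      rw [h2]
      have h3 := F.2 (Quotient.out (QuotientGroup.mk g : Q) : K ≃ₐ[ℚ] K)
      rw [h3, h0, neg_zero]
      rfl
  have hle := LinearMap.finrank_le_finrank_of_injective hinj
  have hQ : Module.finrank ℚ_[p] (Q → ℚ_[p]) = Nat.card Q := by
    have : Fintype Q := Fintype.ofFinite Q
    rw [Module.finrank_pi, Nat.card_eq_fintype_card]
  rw [hQ] at hle
  omega

theorem split_full {L : ℚ_[p] → ℚ_[p]} (hL : IsPadicLog p L) [IsGalois ℚ K]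
    (hsplit : ∀ (σ : Emb p K) (x : K), ∃ y : ℚ_[p], σ x = algebraMap ℚ_[p] (PadicAlgCl p) y)
    {D : Type*} [Ring D] [Nontrivial D] [NoZeroDivisors D] [Algebra ℚ_[p] D]
    [FiniteDimensional ℚ_[p] D] (ψ : (K ≃ₐ[ℚ] K) →* D)
    (hspan : Submodule.span ℚ_[p] (Set.range ψ) = ⊤) (hc : ψ (ccAut K) = -1)
    (hdim : 2 * Module.finrank ℚ_[p] D = Nat.card (K ≃ₐ[ℚ] K)) :
    LogImage p K L = Ym p K := by
  classical
  apply le_antisymm (logImage_le_Ym p K hL)
  intro f hf
  have hne : ccAut K ≠ 1 := by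
    intro h
    rw [h, map_one] at hc
    have h2 : (2 : D) = 0 := by
      have h3 : (1 : D) + 1 = 0 := by
        nth_rw 2 [hc]
        exact add_neg_cancel 1
      rw [← one_add_one_eq_two]
      exact h3
    have h4 : algebraMap ℚ_[p] D 2 = 0 := by
      rw [map_ofNat]
      exact h2
    have h5 : (2 : ℚ_[p]) = 0 := by
      rw [← map_zero (algebraMap ℚ_[p] D)] at h4
      exact (algebraMap ℚ_[p] D).injective h4
    exact two_ne_zero h5
  let T : Module.Dual ℚ_[p] D →ₗ[ℚ_[p]] RSplitDim_W p K :=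
    { toFun := fun ℓ => ⟨fun g => ℓ (ψ g), by
        intro g
        change ℓ (ψ (ccAut K * g)) = - ℓ (ψ g)
        rw [map_mul, hc, neg_one_mul, map_neg]⟩
      map_add' := by
        intro a b
        rfl
      map_smul' := by
        intro a b
        rfl }
  have hT : ∀ (ℓ : Module.Dual ℚ_[p] D) (g : K ≃ₐ[ℚ] K),
      (T ℓ : (K ≃ₐ[ℚ] K) → ℚ_[p]) g = ℓ (ψ g) := fun ℓ g => rfl
  have hTinj : Function.Injective T := by
    rw [← LinearMap.ker_eq_bot, LinearMap.ker_eq_bot']
    intro ℓ hℓ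
    apply LinearMap.ext
    intro x
    have hx : x ∈ Submodule.span ℚ_[p] (Set.range ψ) := by
      rw [hspan]
      trivial
    refine Submodule.span_induction ?_ ?_ ?_ ?_ hx
    · rintro _ ⟨g, rfl⟩
      rw [← hT, hℓ]
      rfl
    · simp
    · intro a b _ _ ha hb
      rw [map_add, map_add, ha, hb]
    · intro a b _ hb
      rw [map_smul, map_smul, hb]
  have hfin : Module.finrank ℚ_[p] (Module.Dual ℚ_[p] D) = Module.finrank ℚ_[p] (RSplitDim_W p K) := by
    apply le_antisymm (LinearMap.finrank_le_finrank_of_injective hTinj)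
    have h1 := RSplitDim_finrank p K hne
    rw [Subspace.dual_finrank_eq]
    omega
  have hsurj : Function.Surjective T :=
    (LinearMap.injective_iff_surjective_of_finrank_eq_finrank hfin).1 hTinj
  obtain ⟨σ₀⟩ : Nonempty (Emb p K) := inferInstance
  have hfW : (fun g : K ≃ₐ[ℚ] K => f (σ₀.comp (g : K →+* K))) ∈ RSplitDim_W p K := by
    intro g
    change f (σ₀.comp ((ccAut K * g : K ≃ₐ[ℚ] K) : K →+* K)) = - f (σ₀.comp (g : K →+* K))
    rw [RSplitDim_ccAut_comm, ← hf.2]
    rfl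
  obtain ⟨ℓ, hℓ⟩ := hsurj ⟨_, hfW⟩
  obtain ⟨f', hf', hf''⟩ := split_division p K hL hsplit ψ hspan hc σ₀ ℓ
  have hff : f' = f := by
    funext τ
    obtain ⟨g, rfl⟩ := RSplitDim_surj p K σ₀ τ
    rw [hf'' g, ← hT, hℓ]
  rw [← hff]
  exact hf'

end GR95
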