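import Mathlib

/-! Row G12. If a matrix over `k` is annihilated by a nonzero rational polynomial, its trace is algebraic: the trace is the sum of
the roots of the characteristic polynomial in the algebraic closure of `k` (`Matrix.trace_eq_sum_roots_charpoly` after base
change), every root is an eigenvalue, so a root of `q`, so algebraic over `ℚ`; sums of algebraic elements are algebraic, and
algebraicity descends along `k → AlgebraicClosure k` (injective). -/

namespace GR95

theorem trace_algebraic {k : Type*} [Field k] [CharZero k] {n : Type*} [Fintype n] [DecidableEq n]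
    (f : Matrix n n k) (q : Polynomial ℚ) (hq : q ≠ 0) (h : Polynomial.aeval f q = 0) :
    IsAlgebraic ℚ f.trace := by
  rcases isEmpty_or_nonempty n with hn | hn
  · rw [Matrix.trace, Finset.univ_eq_empty, Finset.sum_empty]
    exact isAlgebraic_zero
  set K := AlgebraicClosure k with hK
  set A : Matrix n n K := (algebraMap k K).mapMatrix f with hA
  set P : Polynomial K := q.map (algebraMap ℚ K) with hP
  have hAP : Polynomial.aeval A P = 0 := by
    have h1 := Polynomial.hom_eval₂ q (algebraMap ℚ (Matrix n n k)) ((algebraMap k K).mapMatrix) f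
    rw [← Polynomial.aeval_def, h, map_zero] at h1
    rw [hP, Polynomial.aeval_def, Polynomial.eval₂_map, h1, ← hA]
    congr 1
    exact Subsingleton.elim _ _
  have hroot : ∀ μ ∈ A.charpoly.roots, IsIntegral ℚ μ := by
    intro μ hμ
    have h1 : μ ∈ spectrum K A :=
      Matrix.mem_spectrum_of_isRoot_charpoly (Polynomial.isRoot_of_mem_roots hμ)
    have h2 : P.eval μ ∈ spectrum K (Polynomial.aeval A P) :=
      spectrum.subset_polynomial_aeval A P ⟨μ, h1, rfl⟩
    rw [hAP, spectrum.zero_eq, Set.mem_singleton_iff] at h2
    rw [← isAlgebraic_iff_isIntegral]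
    refine ⟨q, hq, ?_⟩
    rw [hP, Polynomial.eval_map] at h2
    rw [Polynomial.aeval_def]
    exact h2
  have htr : algebraMap k K f.trace = A.charpoly.roots.sum := by
    rw [← Matrix.trace_eq_sum_roots_charpoly_of_splits (IsAlgClosed.splits _), hA]
    exact (AddMonoidHom.map_trace (algebraMap k K).toAddMonoidHom f)
  have h3 : IsAlgebraic ℚ (algebraMap k K f.trace) := by
    rw [htr, isAlgebraic_iff_isIntegral]
    exact IsIntegral.multiset_sum hroot
  exact (isAlgebraic_algebraMap_iff (algebraMap k K).injective).1 h3

end GR95
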