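import Pool.Agent.LibGR95.RNorm2

/-! Row G3. Absolute values. `‖γ y‖ = ‖y‖` for `γ ∈ Gal(PadicAlgCl p/ℚ_[p])` (`spectralNorm_eq_of_equiv`), so
`‖locNorm σ x‖ = ‖σ x‖^(number of τ in the place)`; the exponent is at least 1. -/

namespace GR95

open NumberField Bru95

variable (p : ℕ) [Fact p.Prime] (K : Type*) [Field K] [NumberField K]

theorem norm_samePlace {σ τ : Emb p K} (h : SamePlace p K σ τ) (x : K) : ‖σ x‖ = ‖τ x‖ := by
  obtain ⟨γ, rfl⟩ := h
  exact spectralNorm_eq_of_equiv (K := ℚ_[p]) γ (σ x)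

theorem norm_locNorm (σ : Emb p K) : ∃ e : ℕ, 1 ≤ e ∧ ∀ x : K, ‖locNorm p K σ x‖ = ‖σ x‖ ^ e := by
  classical
  refine ⟨(Finset.univ.filter (fun τ : Emb p K => SamePlace p K σ τ)).card, ?_, ?_⟩
  · rw [Nat.one_le_iff_ne_zero, Finset.card_ne_zero]
    exact ⟨σ, Finset.mem_filter.2 ⟨Finset.mem_univ _, samePlace_refl p K σ⟩⟩
  · intro x
    have h1 : ‖locNorm p K σ x‖ = ‖algebraMap ℚ_[p] (PadicAlgCl p) (locNorm p K σ x)‖ :=
      (PadicAlgCl.norm_extends p _).symm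
    rw [h1, algebraMap_locNorm, norm_prod]
    rw [Finset.prod_congr rfl (g := fun _ => ‖σ x‖)]
    · rw [Finset.prod_const]
    · intro τ hτ
      rw [Finset.mem_filter] at hτ
      exact (norm_samePlace p K hτ.2 x).symm

theorem valuation_locNorm_eq_zero (σ : Emb p K) {x : K} (hx : ‖σ x‖ = 1) :
    (locNorm p K σ x).valuation = 0 := by
  obtain ⟨e, _, he⟩ := norm_locNorm p K σ
  have h1 : ‖locNorm p K σ x‖ = 1 := by
    rw [he x, hx, one_pow]
  have h0 : locNorm p K σ x ≠ 0 := by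
    intro h
    rw [h, norm_zero] at h1
    exact zero_ne_one h1
  rw [Padic.norm_eq_zpow_neg_valuation h0] at h1
  have hp : (1 : ℝ) < p := by exact_mod_cast (Fact.out : p.Prime).one_lt
  have h2 := (zpow_eq_one_iff_right₀ (by positivity) hp.ne').1 h1
  omega

theorem valuation_locNorm_pos (σ : Emb p K) {x : K} (hx0 : x ≠ 0) (hx : ‖σ x‖ < 1) :
    0 < (locNorm p K σ x).valuation := by
  obtain ⟨e, he1, he⟩ := norm_locNorm p K σ
  have h1 : ‖locNorm p K σ x‖ < 1 := by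
    rw [he x]
    exact pow_lt_one₀ (norm_nonneg _) hx (by omega)
  have h0 : locNorm p K σ x ≠ 0 := locNorm_ne_zero p K σ hx0
  rw [Padic.norm_eq_zpow_neg_valuation h0] at h1
  have hp : (1 : ℝ) < p := by exact_mod_cast (Fact.out : p.Prime).one_lt
  have h2 := (zpow_lt_one_iff_right₀ hp).1 h1
  omega

end GR95
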