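import Pool.Agent.LibGR95.YDefs
import Pool.Agent.LibGR95.RRegEq
import Pool.Agent.LibGR95.RFamReg
import Pool.Agent.LibGR95.RRank
import Pool.Agent.LibGR95.RIrr

/-! The final statements, with `Y⁻` as a type of its own. -/

namespace GR95

open NumberField Bru95

variable (p : ℕ) [Fact p.Prime] (K : Type*) [Field K] [NumberField K] [IsCMField K]

theorem YM_ext {v w : YM p K} (h : ∀ σ, v.at σ = w.at σ) : v = w :=
  Subtype.ext (funext h)

theorem isTranslate_iff {R : Type*} [Field R] [Algebra R K] (g : K ≃ₐ[R] K) (v v' : YM p K) :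
    IsTranslate g v v' ↔ v' = (actY p K g : Ym p K →ₗ[ℚ_[p]] Ym p K) v := by
  constructor
  · intro h
    exact YM_ext p K h
  · intro h σ
    rw [h]
    rfl

theorem isGrossMap_iff (L : ℚ_[p] → ℚ_[p]) (Λ : EndY p K) :
    IsGrossMap L Λ ↔ IsRegulatorMap p K L Λ := by
  constructor
  · intro h u hu hc v hv
    funext σ
    exact h u hu hc v (fun σ => congrFun hv σ) σ
  · intro h u hu hc v hv σ
    exact congrFun (h u hu hc v (funext hv)) σ

theorem stable_iff {R : Type*} [Field R] [Algebra R K] (W : SubY p K) :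
    Stable R W ↔ ∀ g : K ≃ₐ[R] K, ∀ w ∈ (W : Submodule ℚ_[p] (Ym p K)), actY p K g w ∈ W := by
  constructor
  · intro h g w hw
    exact h g w _ hw ((isTranslate_iff p K g w _).2 rfl)
  · intro h g w v hw hv
    rw [(isTranslate_iff p K g w v).1 hv]
    exact h g w hw

theorem simpleMultOne_of {R : Type*} [Field R] [Algebra R K] {W : SubY p K} (h : Simple R W)
    (h' : MultOne R W) : SimpleMultOne p K R (W : Submodule ℚ_[p] (Ym p K)) where
  stable := (stable_iff p K W).1 h.1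
  simple := fun W' hW' hs => h.2 W' hW' ((stable_iff p K W').2 hs)
  mult := fun φ hφ w => h' φ (fun g w w' hw => by
    have e : w' = ⟨actY p K g (w : YM p K), (stable_iff p K W).1 h.1 g w w.2⟩ :=
      Subtype.ext ((isTranslate_iff p K g _ _).1 hw)
    rw [e]
    exact (isTranslate_iff p K g _ _).2 (hφ g w)) w

theorem gross_unique {L : ℚ_[p] → ℚ_[p]} (hL : IsPadicLog p L) :
    ∃! Λ : EndY p K, IsGrossMap L Λ := by
  obtain ⟨Λ, hΛ⟩ := exists_regulatorMap p K hL
  refine ⟨Λ, (isGrossMap_iff p K L Λ).2 hΛ, fun Λ' hΛ' => ?_⟩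
  exact regulatorMap_unique p K ((isGrossMap_iff p K L Λ').1 hΛ') hΛ

theorem gross_main {L : ℚ_[p] → ℚ_[p]} (hL : IsPadicLog p L) (R : Type*) [Field R] [Algebra R K]
    (W : SubY p K) (h : Simple R W) (h' : MultOne R W) (Λ : EndY p K)
    (hΛ : IsGrossMap L Λ) : W.map Λ = W :=
  regulator_R p K hL R W (simpleMultOne_of p K h h') Λ ((isGrossMap_iff p K L Λ).1 hΛ)

theorem gross_free {L : ℚ_[p] → ℚ_[p]} (hL : IsPadicLog p L) (R : Type*) [Field R] [Algebra R K]
    (h : MultiplicityFree p K R) (Λ : EndY p K) (hΛ : IsGrossMap L Λ) :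
    Function.Bijective Λ := by
  refine regulator_full_R p K hL R (fun φ hφ h0 => ?_) Λ ((isGrossMap_iff p K L Λ).1 hΛ)
  apply LinearMap.ext
  refine h φ (fun g v v' hv => ?_) (fun v => LinearMap.congr_fun h0 v)
  rw [(isTranslate_iff p K g v v').1 hv]
  exact (isTranslate_iff p K g _ _).2 (LinearMap.congr_fun (hφ g) v)

theorem chiPart_eq (a b : K ≃ₐ[ℚ] K) (m : ℕ) (ω : ℤ_[p]) :
    chiPart p K a b m ω = (famPart p K a b m ω : Submodule ℚ_[p] (Ym p K)) := rfl

theorem gross_family {L : ℚ_[p] → ℚ_[p]} (hL : IsPadicLog p L) [IsGalois ℚ K]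
    (hs : TotallySplit p K) {m t g : ℕ} {a b : K ≃ₐ[ℚ] K} (hab : Metacyclic p K m t g a b)
    {ω : ℤ_[p]} (hω : GoodRoot p m t ω) (Λ : EndY p K) (hΛ : IsGrossMap L Λ) :
    (chiPart p K a b m ω).map Λ = chiPart p K a b m ω ∧
      Module.finrank ℚ_[p] (chiPart p K a b m ω) = m * (p - 1) := by
  rw [chiPart_eq]
  refine ⟨?_, ?_⟩
  · exact family_regulator p K hL hs hab.m_pos (by have := hab.t_pos; omega) hab.prime_to_p a b
      hab.order_a hab.order_b hab.generate hab.conj hab.g_pow ω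
      (by rw [mul_comm, pow_mul, hω.1]; norm_num) hω.2 Λ ((isGrossMap_iff p K L Λ).1 hΛ)
  · exact finrank_famPart p K hs hab.m_pos hab.t_pos hab.prime_to_p a b
      hab.order_a hab.order_b hab.generate hab.conj hab.g_pow ω hω.1 hω.2
      (AlgEquiv.ext fun x => hab.complex_conj x)

end GR95
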