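import Mathlib

/-! Row G26. `‖ζ^k - 1‖^(p-1) = 1/p` for a primitive `p`-th root of unity and `p ∤ k`: `∏_{k=1}^{p-1} (1 - ζ^k) = p`
(cyclotomic polynomial at 1, `Polynomial.eval_one_cyclotomic_prime`, or `IsPrimitiveRoot` product lemmas) and all the
`‖1 - ζ^k‖` are equal (`1 - ζ^k` is a multiple of `1 - ζ` by an element of norm at most 1, and conversely). -/

namespace GR95

private theorem RZeta_le (p : ℕ) [Fact p.Prime] {ζ μ : PadicAlgCl p} (hζ : IsPrimitiveRoot ζ p)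
    (hμ : IsPrimitiveRoot μ p) : ‖1 - μ‖ ≤ ‖1 - ζ‖ := by
  have hp : 0 < p := (Fact.out : p.Prime).pos
  have : NeZero p := ⟨hp.ne'⟩
  obtain ⟨i, -, rfl⟩ := hζ.eq_pow_of_pow_eq_one hμ.pow_eq_one
  have hn : ‖ζ‖ = 1 := by
    have h1 : ‖ζ‖ ^ p = 1 := by rw [← norm_pow, hζ.pow_eq_one, norm_one]
    exact (pow_eq_one_iff_of_nonneg (norm_nonneg _) hp.ne').1 h1
  have h2 : (1 : PadicAlgCl p) - ζ ^ i = (∑ j ∈ Finset.range i, ζ ^ j) * (1 - ζ) := by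
    rw [geom_sum_mul_neg]
  rw [h2, norm_mul]
  have h3 : ‖∑ j ∈ Finset.range i, ζ ^ j‖ ≤ 1 := by
    refine IsUltrametricDist.norm_sum_le_of_forall_le_of_nonneg zero_le_one fun j _ => ?_
    rw [norm_pow, hn, one_pow]
  calc ‖∑ j ∈ Finset.range i, ζ ^ j‖ * ‖1 - ζ‖ ≤ 1 * ‖1 - ζ‖ :=
        mul_le_mul_of_nonneg_right h3 (norm_nonneg _)
    _ = ‖1 - ζ‖ := one_mul _

theorem norm_zeta_sub_one (p : ℕ) [Fact p.Prime] {ζ : PadicAlgCl p} (hζ : IsPrimitiveRoot ζ p) {k : ℕ}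
    (hk : ¬ p ∣ k) : ‖ζ ^ k - 1‖ ^ (p - 1) = (p : ℝ)⁻¹ := by
  have hp : p.Prime := Fact.out
  have hζk : IsPrimitiveRoot (ζ ^ k) p :=
    hζ.pow_of_coprime k ((Nat.coprime_comm.1 (hp.coprime_iff_not_dvd.2 hk)))
  have hprod : (p : PadicAlgCl p) = ∏ μ ∈ primitiveRoots p (PadicAlgCl p), (1 - μ) := by
    have h1 := Polynomial.cyclotomic_eq_prod_X_sub_primitiveRoots hζ
    have h2 := congrArg (Polynomial.eval 1) h1
    rw [Polynomial.eval_one_cyclotomic_prime, Polynomial.eval_prod] at h2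
    simpa using h2
  have hcast : ‖(p : PadicAlgCl p)‖ = (p : ℝ)⁻¹ := by
    have h : ((p : ℚ_[p]) : PadicAlgCl p) = (p : PadicAlgCl p) :=
      map_natCast (algebraMap ℚ_[p] (PadicAlgCl p)) p
    rw [← h, PadicAlgCl.norm_extends, Padic.norm_p]
  rw [← hcast, hprod, norm_prod, Finset.prod_congr rfl (g := fun _ => ‖ζ ^ k - 1‖)]
  · rw [Finset.prod_const, hζ.card_primitiveRoots, Nat.totient_prime hp]
  · intro μ hμ
    have hμ' : IsPrimitiveRoot μ p := (mem_primitiveRoots hp.pos).1 hμ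
    rw [norm_sub_rev (ζ ^ k) 1]
    exact le_antisymm (RZeta_le p hζk hμ') (RZeta_le p hμ' hζk)

end GR95
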