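import Pool.Agent.LibGR95.Defs

/-!
# The definitions used in the statement of the theorem

`YM p K` is the minus part `Y⁻` of `ℚ_p ⊗ Y_{K,p}`: the functions on the places of `K` above `p` on which complex
conjugation acts as `-1`.  Every automorphism `g` of `K` acts on it by `(g v)(σ) = v(σ ∘ g)`.
-/

namespace GR95

open NumberField Bru95

section

variable (p : ℕ) [Fact p.Prime] (K : Type*) [Field K] [NumberField K] [IsCMField K]

/-- `Y⁻ = (ℚ_p ⊗ Y_{K,p})⁻` as a type: the elements of `Ym p K`. -/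
def YM : Type _ := Ym p K

noncomputable instance : AddCommGroup (YM p K) := inferInstanceAs (AddCommGroup (Ym p K))

noncomputable instance : Module ℚ_[p] (YM p K) := inferInstanceAs (Module ℚ_[p] (Ym p K))

/-- The endomorphisms of the `ℚ_p`-vector space `Y⁻`. -/
abbrev EndY := YM p K →ₗ[ℚ_[p]] YM p K

/-- The subspaces of `Y⁻`. -/
abbrev SubY := Submodule ℚ_[p] (YM p K)

end

variable {p : ℕ} [Fact p.Prime] {K : Type*} [Field K] [NumberField K] [IsCMField K]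

/-- The value of `v ∈ Y⁻` at (the place of) `σ`. -/
def YM.at (v : YM p K) (σ : Emb p K) : ℚ_[p] := Subtype.val v σ

/-- `v' = g v`, for an automorphism `g` of `K`: `v'(σ) = v(σ ∘ g)`. -/
def IsTranslate {R : Type*} [Field R] [Algebra R K] (g : K ≃ₐ[R] K) (v v' : YM p K) : Prop :=
  ∀ σ : Emb p K, v'.at σ = v.at (σ.comp (g : K →+* K))

/-- `Λ` is Gross's regulator map on `Y⁻`: for every minus `p`-unit `u`, it maps the vector of valuations
`(v_p(N_{K_σ/ℚ_p}(u)))_σ` to the vector of logarithms `(L(N_{K_σ/ℚ_p}(u)))_σ`. -/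
def IsGrossMap (L : ℚ_[p] → ℚ_[p]) (Λ : EndY p K) : Prop :=
  ∀ u : K, IsPUnit p K u → u * cc K u = 1 → ∀ v : YM p K,
    (∀ σ, v.at σ = ((locNorm p K σ u).valuation : ℚ_[p])) →
      ∀ σ, (Λ v).at σ = L (locNorm p K σ u)

variable (R : Type*) [Field R] [Algebra R K]

/-- The subspace `W` of `Y⁻` is stable under `G = Aut(K/R)`. -/
def Stable (W : SubY p K) : Prop :=
  ∀ (g : K ≃ₐ[R] K) (w v : YM p K), w ∈ W → IsTranslate g w v → v ∈ W

/-- `W` is a simple `ℚ_p[G]`-submodule of `Y⁻` (or zero), `G = Aut(K/R)`. -/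
def Simple (W : SubY p K) : Prop :=
  Stable R W ∧ ∀ W' ≤ W, Stable R W' → W' = ⊥ ∨ W' = W

/-- `W` occurs in `Y⁻` with multiplicity one (or `W = 0`): every `G`-equivariant linear map from `W` to `Y⁻`,
`G = Aut(K/R)`, has image in `W`. -/
def MultOne (W : SubY p K) : Prop :=
  ∀ φ : W →ₗ[ℚ_[p]] YM p K,
    (∀ (g : K ≃ₐ[R] K) (w w' : W), IsTranslate g (w : YM p K) w' → IsTranslate g (φ w) (φ w')) →
      ∀ w, φ w ∈ W

variable (p K) in
/-- `Y⁻` is multiplicity free over `ℚ_p[G]`, `G = Aut(K/R)`: no nonzero `G`-equivariant endomorphism of `Y⁻` has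
square zero. -/
def MultiplicityFree : Prop :=
  ∀ φ : EndY p K,
    (∀ (g : K ≃ₐ[R] K) (v v' : YM p K), IsTranslate g v v' → IsTranslate g (φ v) (φ v')) →
      (∀ v, φ (φ v) = 0) → ∀ v, φ v = 0

section

variable (p K)

/-- `p` splits completely in `K`. -/
def TotallySplit : Prop :=
  ∀ (σ : Emb p K) (x : K), ∃ y : ℚ_[p], σ x = algebraMap ℚ_[p] (PadicAlgCl p) y

/-- `Gal(K/ℚ) = ⟨a⟩ ⋊ ⟨b⟩` with `a` of order `p`, `b` of order `2 m t` prime to `p`, `b a b⁻¹ = a^g`, `g^m ≡ 1 mod p`, and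
complex conjugation is `b^(m t)`. -/
structure Metacyclic (m t g : ℕ) (a b : K ≃ₐ[ℚ] K) : Prop where
  m_pos : 0 < m
  t_pos : 0 < t
  prime_to_p : ¬ p ∣ m * (2 * t)
  order_a : orderOf a = p
  order_b : orderOf b = m * (2 * t)
  generate : Subgroup.closure {a, b} = ⊤
  conj : b * a * b⁻¹ = a ^ g
  g_pow : g ^ m ≡ 1 [MOD p]
  complex_conj : ∀ x : K, cc K x = (b ^ (m * t)) x

/-- `ω ∈ ℤ_p` is a root of unity, `ω^t = -1`, and `X^m - ω` is irreducible modulo `p`. -/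
def GoodRoot (m t : ℕ) (ω : ℤ_[p]) : Prop :=
  ω ^ t = -1 ∧
    Irreducible (Polynomial.X ^ m - Polynomial.C (PadicInt.toZMod ω) : Polynomial (ZMod p))

/-- The subspace of the `v ∈ Y⁻` with `b^m v = ω v` and `∑_{k<p} a^k v = 0`. -/
def chiPart (a b : K ≃ₐ[ℚ] K) (m : ℕ) (ω : ℤ_[p]) : SubY p K where
  carrier := {v | (∀ σ : Emb p K,
      v.at (σ.comp ((b ^ m : K ≃ₐ[ℚ] K) : K →+* K)) = (ω : ℚ_[p]) * v.at σ) ∧
    ∀ σ : Emb p K, ∑ k ∈ Finset.range p, v.at (σ.comp ((a ^ k : K ≃ₐ[ℚ] K) : K →+* K)) = 0}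
  add_mem' := by
    rintro v w ⟨hv, hv'⟩ ⟨hw, hw'⟩
    have e : ∀ σ, (v + w).at σ = v.at σ + w.at σ := fun _ => rfl
    refine ⟨fun σ => ?_, fun σ => ?_⟩
    · rw [e, e, hv, hw, mul_add]
    · simp only [e, Finset.sum_add_distrib, hv', hw', add_zero]
  zero_mem' := by
    have e : ∀ σ, (0 : YM p K).at σ = 0 := fun _ => rfl
    refine ⟨fun σ => ?_, fun σ => ?_⟩
    · rw [e, e, mul_zero]
    · simp only [e, Finset.sum_const_zero]
  smul_mem' := by
    rintro c v ⟨hv, hv'⟩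
    have e : ∀ σ, (c • v).at σ = c * v.at σ := fun _ => rfl
    refine ⟨fun σ => ?_, fun σ => ?_⟩
    · rw [e, e, hv, mul_left_comm]
    · simp only [e, ← Finset.mul_sum, hv', mul_zero]

end

end GR95
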